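import Mathlib

/-!
# Functoriality of completed localised rings

For a ring `A` and an ideal `I`, we consider the localisation of the `I`-adic completion of `A` at
the generators of `I`.
-/

set_option autoImplicit false

namespace Pool.Agent.TH831

universe u

section completion

variable {A : Type u} [CommRing A] (I : Ideal A)

theorem factor_evalA {m n : ℕ} (h : m ≤ n) (x : AdicCompletion I A) :
    Ideal.Quotient.factorPow I h (AdicCompletion.evalₐ I n x) = AdicCompletion.evalₐ I m x := by
  induction x using AdicCompletion.induction_on with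
  | _ f =>
    rw [AdicCompletion.evalₐ_mk, AdicCompletion.evalₐ_mk]
    show Ideal.Quotient.mk (I ^ m) (f.val n) = Ideal.Quotient.mk (I ^ m) (f.val m)
    have h2 : f.val m ≡ f.val n [SMOD (I ^ m • ⊤ : Ideal A)] := f.2 h
    rw [SModEq.sub_mem, smul_eq_mul, Ideal.mul_top] at h2
    rw [Ideal.Quotient.eq, ← neg_mem_iff, neg_sub]
    exact h2

variable {I}

theorem pow_le_comap {g : A →+* A} (hg : I.map g = I) (n : ℕ) : I ^ n ≤ (I ^ n).comap g := by
  rw [← Ideal.map_le_iff_le_comap, Ideal.map_pow, hg]

theorem complMap_compat (g : A →+* A) (hg : I.map g = I) {m n : ℕ} (hmn : m ≤ n) :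
    (Ideal.Quotient.factorPow I hmn).comp ((Ideal.quotientMap (I ^ n) g (pow_le_comap hg n)).comp
      (AdicCompletion.evalₐ I n : AdicCompletion I A →+* A ⧸ I ^ n)) =
      (Ideal.quotientMap (I ^ m) g (pow_le_comap hg m)).comp
      (AdicCompletion.evalₐ I m : AdicCompletion I A →+* A ⧸ I ^ m) := by
  ext x
  simp only [RingHom.comp_apply, RingHom.coe_coe]
  rw [← factor_evalA I hmn x]
  obtain ⟨a, ha⟩ := Ideal.Quotient.mk_surjective (AdicCompletion.evalₐ I n x)
  rw [← ha, Ideal.quotientMap_mk]
  show Ideal.Quotient.mk (I ^ m) (g a) = Ideal.quotientMap (I ^ m) g _ (Ideal.Quotient.mk _ a)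
  rw [Ideal.quotientMap_mk]

/-- the map induced on the completion -/
noncomputable def complMap (g : A →+* A) (hg : I.map g = I) :
    AdicCompletion I A →+* AdicCompletion I A :=
  AdicCompletion.liftRingHom I
    (fun n => (Ideal.quotientMap (I ^ n) g (pow_le_comap hg n)).comp
      (AdicCompletion.evalₐ I n : AdicCompletion I A →+* A ⧸ I ^ n))
    (complMap_compat g hg)

theorem evalA_complMap (g : A →+* A) (hg : I.map g = I) (n : ℕ) (x : AdicCompletion I A) (a : A)
    (ha : AdicCompletion.evalₐ I n x = Ideal.Quotient.mk _ a) :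
    AdicCompletion.evalₐ I n (complMap g hg x) = Ideal.Quotient.mk _ (g a) := by
  unfold complMap
  rw [AdicCompletion.evalₐ_liftRingHom I _ (complMap_compat g hg)]
  simp only [RingHom.comp_apply, RingHom.coe_coe]
  rw [ha, Ideal.quotientMap_mk]

theorem evalA_algebraMap (n : ℕ) (a : A) :
    AdicCompletion.evalₐ I n (algebraMap A (AdicCompletion I A) a) = Ideal.Quotient.mk _ a :=
  (AdicCompletion.evalₐ I n).commutes a

theorem of_eq_algebraMap (a : A) :
    AdicCompletion.of I A a = algebraMap A (AdicCompletion I A) a := by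
  apply AdicCompletion.ext_evalₐ
  intro n
  rw [evalA_algebraMap, AdicCompletion.evalₐ_of]

theorem complMap_algebraMap (g : A →+* A) (hg : I.map g = I) (a : A) :
    complMap g hg (algebraMap A (AdicCompletion I A) a) =
      algebraMap A (AdicCompletion I A) (g a) := by
  apply AdicCompletion.ext_evalₐ
  intro n
  rw [evalA_algebraMap]
  exact evalA_complMap g hg n _ a (evalA_algebraMap n a)

variable (I) in
/-- the multiplicative set generated by the generators of `I` -/
noncomputable def genSub : Submonoid (AdicCompletion I A) :=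
  Submonoid.closure (AdicCompletion.of I A '' {a | I = Ideal.span {a}})

theorem genSub_le (g : A →+* A) (hg : I.map g = I) :
    genSub I ≤ (genSub I).comap (complMap g hg) := by
  unfold genSub
  rw [Submonoid.closure_le]
  rintro _ ⟨a, ha, rfl⟩
  refine Submonoid.subset_closure ⟨g a, ?_, ?_⟩
  · show I = Ideal.span {g a}
    have ha' : I = Ideal.span {a} := ha
    conv_lhs => rw [← hg, ha', Ideal.map_span, Set.image_singleton]
  · rw [of_eq_algebraMap, of_eq_algebraMap, complMap_algebraMap]

/-- the map induced on the localised completion -/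
noncomputable def locMap (g : A →+* A) (hg : I.map g = I) :
    Localization (genSub I) →+* Localization (genSub I) :=
  IsLocalization.map (Localization (genSub I)) (complMap g hg) (genSub_le g hg)

variable (I) in
/-- the canonical map to the localised completion -/
noncomputable def toLoc : A →+* Localization (genSub I) :=
  (algebraMap (AdicCompletion I A) (Localization (genSub I))).comp
    (algebraMap A (AdicCompletion I A))

theorem locMap_algebraMap (g : A →+* A) (hg : I.map g = I) (x : AdicCompletion I A) :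
    locMap g hg (algebraMap _ (Localization (genSub I)) x) =
      algebraMap _ (Localization (genSub I)) (complMap g hg x) :=
  IsLocalization.map_eq _ _

variable [IsDomain A] {ξ : A} (hI : I = Ideal.span {ξ}) (hξ : ξ ≠ 0)

include hI in
theorem genSub_form {s : AdicCompletion I A} (hs : s ∈ genSub I) :
    ∃ (u : Aˣ) (r : ℕ), s = algebraMap A (AdicCompletion I A) (u * ξ ^ r) := by
  unfold genSub at hs
  induction hs using Submonoid.closure_induction with
  | mem x hx =>
    obtain ⟨a, ha, rfl⟩ := hx
    have ha' : I = Ideal.span {a} := ha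
    rw [hI, Ideal.span_singleton_eq_span_singleton] at ha'
    obtain ⟨u, hu⟩ := ha'
    refine ⟨u, 1, ?_⟩
    rw [of_eq_algebraMap, pow_one, mul_comm, hu]
  | one => exact ⟨1, 0, by simp⟩
  | mul x y _ _ hx hy =>
    obtain ⟨u, r, rfl⟩ := hx
    obtain ⟨v, s, rfl⟩ := hy
    refine ⟨u * v, r + s, ?_⟩
    rw [← map_mul]
    congr 1
    push_cast
    ring

omit [IsDomain A] in
include hI in
theorem pow_eq_span (n : ℕ) : I ^ n = Ideal.span {ξ ^ n} := by
  rw [hI, Ideal.span_singleton_pow]

include hI hξ in
theorem xi_mul_eq_zero {β : AdicCompletion I A} (h : algebraMap A (AdicCompletion I A) ξ * β = 0) :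
    β = 0 := by
  apply AdicCompletion.ext_evalₐ
  intro n
  obtain ⟨a, ha⟩ := Ideal.Quotient.mk_surjective (AdicCompletion.evalₐ I (n + 1) β)
  have h1 := congrArg (AdicCompletion.evalₐ I (n + 1)) h
  rw [map_mul, evalA_algebraMap, ← ha, map_zero, ← map_mul, Ideal.Quotient.eq_zero_iff_mem,
    pow_eq_span hI, Ideal.mem_span_singleton, pow_succ'] at h1
  have h2 : ξ ^ n ∣ a := (mul_dvd_mul_iff_left hξ).1 h1
  rw [← factor_evalA I (Nat.le_succ n) β, ← ha, map_zero]
  show Ideal.Quotient.mk (I ^ n) a = 0
  rw [Ideal.Quotient.eq_zero_iff_mem, pow_eq_span hI, Ideal.mem_span_singleton]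
  exact h2

include hI hξ in
theorem xi_pow_mul_eq_zero {β : AdicCompletion I A} (r : ℕ)
    (h : algebraMap A (AdicCompletion I A) (ξ ^ r) * β = 0) : β = 0 := by
  induction r with
  | zero => simpa using h
  | succ r ih =>
    apply ih
    apply xi_mul_eq_zero hI hξ
    rw [← mul_assoc, ← map_mul, ← pow_succ']
    exact h

include hI hξ in
theorem genSub_le_nonZeroDivisors : genSub I ≤ nonZeroDivisors (AdicCompletion I A) := by
  intro s hs
  obtain ⟨u, r, rfl⟩ := genSub_form hI hs
  rw [mem_nonZeroDivisors_iff_right]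
  intro z hz
  rw [mul_comm, map_mul, mul_assoc] at hz
  have hu : IsUnit (algebraMap A (AdicCompletion I A) (u : A)) := u.isUnit.map _
  exact xi_pow_mul_eq_zero hI hξ r ((hu.mul_right_eq_zero).1 hz)

omit [IsDomain A] in
include hI in
theorem exists_level {β : AdicCompletion I A} (hβ : β ≠ 0) :
    ∃ (i : ℕ) (x : A), x ∉ I ∧
      AdicCompletion.evalₐ I (i + 1) β = Ideal.Quotient.mk _ (ξ ^ i * x) := by
  classical
  have hex : ∃ n, AdicCompletion.evalₐ I n β ≠ 0 := by
    by_contra hcon
    push Not at hcon
    apply hβ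
    apply AdicCompletion.ext_evalₐ
    intro n
    rw [hcon n, map_zero]
  obtain ⟨a, ha⟩ := Ideal.Quotient.mk_surjective (AdicCompletion.evalₐ I (Nat.find hex) β)
  have hn := Nat.find_spec hex
  have hn0 : Nat.find hex ≠ 0 := by
    intro h0
    apply hn
    rw [← ha, Ideal.Quotient.eq_zero_iff_mem, h0, pow_zero, Ideal.one_eq_top]
    exact Submodule.mem_top
  obtain ⟨i, hi⟩ := Nat.exists_eq_succ_of_ne_zero hn0
  have hmin : AdicCompletion.evalₐ I i β = 0 := by
    by_contra hcon
    exact Nat.find_min hex (by omega) hcon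
  rw [hi] at ha hn
  have h1 := factor_evalA I (Nat.le_succ i) β
  rw [← ha, hmin] at h1
  have h2 : Ideal.Quotient.mk (I ^ i) a = 0 := h1
  rw [Ideal.Quotient.eq_zero_iff_mem, pow_eq_span hI, Ideal.mem_span_singleton] at h2
  obtain ⟨x, rfl⟩ := h2
  refine ⟨i, x, ?_, ha.symm⟩
  intro hx
  apply hn
  rw [← ha, Ideal.Quotient.eq_zero_iff_mem, pow_succ]
  refine Ideal.mul_mem_mul ?_ hx
  rw [pow_eq_span hI]
  exact Ideal.mem_span_singleton_self _

include hI hξ in
/-- The leading term of an eigenvector. -/
theorem exists_gr (b : Localization (genSub I)) (hb : b ≠ 0) :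
    ∃ (i r : ℕ) (x : A), x ∉ I ∧ ∀ (g : A →+* A) (hg : I.map g = I) (lam a : A),
      g ξ = lam * ξ →
      locMap g hg b = algebraMap _ (Localization (genSub I))
        (algebraMap A (AdicCompletion I A) a) * b →
      lam ^ i * g x - a * lam ^ r * x ∈ I := by
  obtain ⟨⟨β, s⟩, hs⟩ := IsLocalization.surj (genSub I) b
  obtain ⟨u, r, hur⟩ := genSub_form hI s.2
  have hinj : Function.Injective (algebraMap (AdicCompletion I A) (Localization (genSub I))) :=
    IsLocalization.injective _ (genSub_le_nonZeroDivisors hI hξ)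
  set af := algebraMap A (AdicCompletion I A) with haf
  set al := algebraMap (AdicCompletion I A) (Localization (genSub I)) with hal
  set β' : AdicCompletion I A := af ((u⁻¹ : Aˣ) : A) * β with hβ'
  have h1 : b * al (af (ξ ^ r)) = al β' := by
    have h2 : af (ξ ^ r) = af ((u⁻¹ : Aˣ) : A) * (s : AdicCompletion I A) := by
      rw [hur, ← map_mul, ← mul_assoc, Units.inv_mul, one_mul]
    rw [h2, map_mul, hβ', map_mul, ← hs]
    ring
  have hβ0 : β' ≠ 0 := by
    intro h0
    rw [h0, map_zero] at h1
    have h2 : b * al (s : AdicCompletion I A) = 0 := by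
      rw [hur, mul_comm (u : A), map_mul, map_mul, ← mul_assoc, h1, zero_mul]
    have h3 : IsUnit (al (s : AdicCompletion I A)) := IsLocalization.map_units _ s
    exact hb ((h3.mul_left_eq_zero).1 h2)
  obtain ⟨i, x, hx, hev⟩ := exists_level hI hβ0
  refine ⟨i, r, x, hx, fun g hg lam a hlam hga => ?_⟩
  have h2 := congrArg (locMap g hg) h1
  rw [map_mul, hal, locMap_algebraMap, locMap_algebraMap, haf, complMap_algebraMap, hga, map_pow,
    hlam, ← haf, ← hal] at h2
  have h3 : al (complMap g hg β') = al (af (a * lam ^ r) * β') := by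
    rw [← h2, map_mul al, ← h1, mul_pow, map_mul af, map_mul af, map_mul al, map_mul al]
    ring
  have h4 := hinj h3
  have h5 := congrArg (AdicCompletion.evalₐ I (i + 1)) h4
  have h7 : AdicCompletion.evalₐ I (i + 1) (af (a * lam ^ r) * β') =
      Ideal.Quotient.mk _ (a * lam ^ r * (ξ ^ i * x)) := by
    rw [map_mul, haf, evalA_algebraMap, hev, ← map_mul]
  rw [evalA_complMap g hg (i + 1) β' _ hev, h7, Ideal.Quotient.eq, pow_eq_span hI,
    Ideal.mem_span_singleton, map_mul, map_pow, hlam] at h5
  have h6 : (lam * ξ) ^ i * g x - a * lam ^ r * (ξ ^ i * x) =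
      ξ ^ i * (lam ^ i * g x - a * lam ^ r * x) := by ring
  rw [h6, pow_succ, mul_dvd_mul_iff_left (pow_ne_zero i hξ)] at h5
  rw [hI, Ideal.mem_span_singleton]
  exact h5

end completion

end Pool.Agent.TH831
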