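import Mathlib

/-!
# Ax's lemma
-/

set_option autoImplicit false

open Polynomial

namespace Pool.Agent.TH831

section coeff

variable {L : Type*} [NormedField L] [IsUltrametricDist L]

theorem norm_sub_le_max' (x y : L) : ‖x - y‖ ≤ max ‖x‖ ‖y‖ := by
  have h := IsUltrametricDist.norm_add_le_max x (-y)
  rwa [norm_neg, ← sub_eq_add_neg] at h

/-- the coefficients of a monic polynomial whose roots are small -/
theorem norm_coeff_prod_le {r : ℝ} (hr : 0 ≤ r) (s : Multiset L) (hs : ∀ x ∈ s, ‖x‖ ≤ r) (k : ℕ)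
    (hk : k ≤ Multiset.card s) :
    ‖((s.map fun x => X - C x).prod).coeff k‖ ≤ r ^ (Multiset.card s - k) := by
  induction s using Multiset.induction_on generalizing k with
  | empty =>
    simp only [Multiset.card_zero, Nat.le_zero] at hk
    subst hk
    simp
  | cons a s ih =>
    rw [Multiset.map_cons, Multiset.prod_cons, sub_mul, coeff_sub, coeff_C_mul]
    rw [Multiset.card_cons] at hk ⊢
    have hs' : ∀ x ∈ s, ‖x‖ ≤ r := fun x hx => hs x (Multiset.mem_cons_of_mem hx)
    have ha : ‖a‖ ≤ r := hs a (Multiset.mem_cons_self a s)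
    have h2 : ‖a * ((s.map fun x => X - C x).prod).coeff k‖ ≤ r ^ (Multiset.card s + 1 - k) := by
      rcases Nat.lt_or_ge (Multiset.card s) k with h | h
      · have h0 : ((s.map fun x => X - C x).prod).coeff k = 0 := by
          apply coeff_eq_zero_of_natDegree_lt
          rw [natDegree_multiset_prod_X_sub_C_eq_card]
          exact h
        rw [h0, mul_zero, norm_zero]
        exact pow_nonneg hr _
      · rw [norm_mul, Nat.sub_add_comm h, pow_succ, mul_comm]
        exact mul_le_mul (ih hs' k h) ha (norm_nonneg _) (pow_nonneg hr _)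
    have h1 : ‖(X * (s.map fun x => X - C x).prod).coeff k‖ ≤ r ^ (Multiset.card s + 1 - k) := by
      rcases k with _ | k
      · rw [mul_comm, coeff_mul_X_zero, norm_zero]
        exact pow_nonneg hr _
      · rw [mul_comm, coeff_mul_X, Nat.add_sub_add_right]
        exact ih hs' k (by omega)
    exact (norm_sub_le_max' _ _).trans (max_le h1 h2)

/-- a Hasse derivative of a polynomial whose roots are close to `α` has a root close to `α` -/
theorem exists_root_hasseDeriv [IsAlgClosed L] [CharZero L] {r s : ℝ} (hr : 0 ≤ r) (hs0 : 0 ≤ s)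
    (P : L[X]) (hP : P.Monic) (α : L) (hα : ∀ x ∈ P.roots, ‖x - α‖ ≤ r) (q : ℕ)
    (hq : q < P.natDegree)
    (hs : r ^ (P.natDegree - q) ≤ ‖(P.natDegree.choose q : L)‖ * s ^ (P.natDegree - q)) :
    ∃ β, (hasseDeriv q P).eval β = 0 ∧ ‖β - α‖ ≤ s := by
  by_contra hcon
  push Not at hcon
  set n := P.natDegree with hn
  set D := hasseDeriv q P with hD
  have hsplit : P = (P.roots.map fun x => X - C x).prod :=
    (IsAlgClosed.splits P).eq_prod_roots_of_monic hP
  have hcard : Multiset.card P.roots = n := splits_iff_card_roots.1 (IsAlgClosed.splits P)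
  -- bound on the value at `α`
  have h1 : ‖D.eval α‖ ≤ r ^ (n - q) := by
    rw [hD, ← taylor_coeff]
    have h2 : taylor α P = ((P.roots.map fun x => x - α).map fun x => X - C x).prod := by
      conv_lhs => rw [hsplit]
      rw [taylor_apply, Multiset.map_map]
      have h3 : ∀ s : Multiset L, ((s.map fun x => X - C x).prod).comp (X + C α) =
          (s.map ((fun x => X - C x) ∘ fun x => x - α)).prod := by
        intro s
        induction s using Multiset.induction_on with
        | empty => simp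
        | cons a s ih =>
          rw [Multiset.map_cons, Multiset.prod_cons, mul_comp, ih, Multiset.map_cons,
            Multiset.prod_cons]
          congr 1
          simp only [sub_comp, X_comp, C_comp, Function.comp_apply, map_sub]
          ring
      exact h3 _
    rw [h2]
    have h4 := norm_coeff_prod_le hr (P.roots.map fun x => x - α) (fun x hx => by
      obtain ⟨y, hy, rfl⟩ := Multiset.mem_map.1 hx
      exact hα y hy) q (by rw [Multiset.card_map, hcard]; exact hq.le)
    rwa [Multiset.card_map, hcard] at h4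
  -- the derivative
  have hc : D.coeff (n - q) = (n.choose q : L) := by
    rw [hD, hasseDeriv_coeff, Nat.sub_add_cancel hq.le]
    have h3 : P.coeff n = 1 := hP
    rw [h3, mul_one]
  have hc0 : (n.choose q : L) ≠ 0 := Nat.cast_ne_zero.2 (Nat.choose_pos hq.le).ne'
  have hdeg : D.natDegree = n - q := by
    apply le_antisymm
    · exact natDegree_hasseDeriv_le P q
    · apply le_natDegree_of_ne_zero
      rw [hc]
      exact hc0
  have hlead : D.leadingCoeff = (n.choose q : L) := by
    rw [leadingCoeff, hdeg, hc]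
  have hD0 : D ≠ 0 := by
    intro h
    rw [h, leadingCoeff_zero] at hlead
    exact hc0 hlead.symm
  have hDs : D = C D.leadingCoeff * (D.roots.map fun x => X - C x).prod :=
    (IsAlgClosed.splits D).eq_prod_roots
  have hDc : Multiset.card D.roots = n - q := by
    rw [splits_iff_card_roots.1 (IsAlgClosed.splits D), hdeg]
  have h5 : D.eval α = (n.choose q : L) * (D.roots.map fun x => α - x).prod := by
    conv_lhs => rw [hDs]
    rw [eval_mul, eval_C, hlead, eval_multiset_prod, Multiset.map_map]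
    simp
  have h6 : ∀ t : Multiset L, (∀ x ∈ t, s < ‖x - α‖) → t ≠ 0 →
      s ^ Multiset.card t < ‖(t.map fun x => α - x).prod‖ := by
    intro t
    induction t using Multiset.induction_on with
    | empty => intro _ h; exact absurd rfl h
    | cons a t ih =>
      intro h _
      rw [Multiset.map_cons, Multiset.prod_cons, norm_mul, Multiset.card_cons, pow_succ, mul_comm]
      have ha : s < ‖α - a‖ := by
        rw [norm_sub_rev]
        exact h a (Multiset.mem_cons_self a t)
      by_cases ht : t = 0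
      · subst ht
        simpa using ha
      · have h7 := ih (fun x hx => h x (Multiset.mem_cons_of_mem hx)) ht
        exact mul_lt_mul'' ha h7 hs0 (pow_nonneg hs0 _)
  have h7 := h6 D.roots (fun x hx => hcon x ((mem_roots hD0).1 hx)) (by
    intro h
    rw [h, Multiset.card_zero] at hDc
    omega)
  rw [hDc] at h7
  rw [h5, norm_mul] at h1
  have h8 : 0 < ‖(n.choose q : L)‖ := norm_pos_iff.2 hc0
  have h9 := mul_lt_mul_of_pos_left h7 h8
  linarith

end coeff

section binomial

variable {p : ℕ} [hp : Fact p.Prime]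

theorem coe_natCast (n : ℕ) : ((n : ℚ_[p]) : PadicAlgCl p) = (n : PadicAlgCl p) :=
  map_natCast (algebraMap ℚ_[p] (PadicAlgCl p)) n

theorem norm_natCast_eq (n : ℕ) : ‖(n : PadicAlgCl p)‖ = ‖(n : ℚ_[p])‖ := by
  rw [← coe_natCast, PadicAlgCl.norm_extends]

theorem not_dvd_choose (k m : ℕ) (hm : ¬ p ∣ m) : ¬ p ∣ (p ^ k * m).choose (p ^ k) := by
  intro h
  have h1 : (((p ^ k * m).choose (p ^ k) : ℕ) : ZMod p) = 0 := (ZMod.natCast_eq_zero_iff _ _).2 h
  have h2 : ((1 + X : (ZMod p)[X]) ^ (p ^ k * m)).coeff (p ^ k) = (m : ZMod p) := by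
    have h3 : (1 + X : (ZMod p)[X]) ^ (p ^ k * m) = expand (ZMod p) (p ^ k) ((1 + X) ^ m) := by
      rw [pow_mul, add_pow_char_pow, one_pow, map_pow, map_add, map_one, expand_X]
    rw [h3]
    have h4 := coeff_expand_mul (R := ZMod p) (p := p ^ k) (pow_pos hp.out.pos k)
      ((1 + X) ^ m) 1
    rw [one_mul] at h4
    rw [h4, coeff_one_add_X_pow, Nat.choose_one_right]
  rw [coeff_one_add_X_pow, h1] at h2
  exact hm ((ZMod.natCast_eq_zero_iff _ _).1 h2.symm)

theorem norm_choose_one (k m : ℕ) (hm : ¬ p ∣ m) :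
    ‖((p ^ k * m).choose (p ^ k) : PadicAlgCl p)‖ = 1 := by
  rw [norm_natCast_eq, Padic.norm_natCast_eq_one_iff]
  exact (hp.out.coprime_iff_not_dvd.2 (not_dvd_choose k m hm))

theorem norm_choose_p (k : ℕ) : ‖((p ^ (k + 1)).choose (p ^ k) : PadicAlgCl p)‖ = (p : ℝ)⁻¹ := by
  have hle : p ^ k ≤ p ^ (k + 1) := Nat.pow_le_pow_right hp.out.pos (Nat.le_succ k)
  have h0 : (p ^ (k + 1)).choose (p ^ k) ≠ 0 := (Nat.choose_pos hle).ne'
  have h1 := Nat.factorization_choose_prime_pow_add_factorization hp.out hle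
    (pow_pos hp.out.pos k).ne'
  rw [hp.out.factorization_pow, Finsupp.single_eq_same] at h1
  have h2 : ((p ^ (k + 1)).choose (p ^ k)).factorization p = 1 := by omega
  have h3 : padicValNat p ((p ^ (k + 1)).choose (p ^ k)) = 1 := by
    rw [← Nat.factorization_def _ hp.out, h2]
  rw [norm_natCast_eq, Padic.norm_eq_zpow_neg_valuation (Nat.cast_ne_zero.2 h0),
    Padic.valuation_natCast, h3]
  simp

end binomial

section ax

variable {p : ℕ} [hp : Fact p.Prime]

theorem norm_map_eq (σ : PadicAlgCl p ≃ₐ[ℚ_[p]] PadicAlgCl p) (x : PadicAlgCl p) :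
    ‖σ x‖ = ‖x‖ :=
  (spectralNorm_eq_of_equiv σ x).symm

/-- the exponents in Ax's lemma -/
noncomputable def axE (k : ℕ) : ℝ := 2 - 2 * (1 / 2) ^ k

theorem axE_mono {i k : ℕ} (h : i ≤ k) : axE i ≤ axE k := by
  unfold axE
  have : (1 / 2 : ℝ) ^ k ≤ (1 / 2) ^ i := pow_le_pow_of_le_one (by norm_num) (by norm_num) h
  linarith

theorem axE_nonneg (k : ℕ) : 0 ≤ axE k := by
  unfold axE
  have : (1 / 2 : ℝ) ^ k ≤ 1 := pow_le_one₀ (by norm_num) (by norm_num)
  linarith

theorem axE_succ (i : ℕ) : axE i + (1 / 2) ^ i = axE (i + 1) := by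
  unfold axE
  rw [pow_succ]
  ring

theorem ax_aux (F : IntermediateField ℚ_[p] (PadicAlgCl p)) (n : ℕ) :
    ∀ (k : ℕ), n < p ^ (k + 1) → ∀ (α : PadicAlgCl p) (r : ℝ), 0 ≤ r →
      (minpoly F α).natDegree = n →
      (∀ σ : PadicAlgCl p ≃ₐ[F] PadicAlgCl p, ‖σ α - α‖ ≤ r) →
      ∃ a ∈ F, ‖α - a‖ ≤ (p : ℝ) ^ axE k * r := by
  induction n using Nat.strong_induction_on with
  | _ n ih =>
  intro k hk α r hr hn hσ
  have hp1 : (1 : ℝ) ≤ p := by exact_mod_cast hp.out.one_lt.le
  have hp0 : (0 : ℝ) < p := by exact_mod_cast hp.out.pos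
  have halg : Algebra.IsAlgebraic F (PadicAlgCl p) := inferInstance
  have hclo : IsAlgClosure F (PadicAlgCl p) := ⟨inferInstance, halg⟩
  have hnor : Normal F (PadicAlgCl p) := IsAlgClosure.normal F (PadicAlgCl p)
  have hint : IsIntegral F α := (halg.isAlgebraic α).isIntegral
  have hn0 : 0 < n := by rw [← hn]; exact minpoly.natDegree_pos hint
  rcases Nat.lt_or_ge n 2 with h2 | h2
  · have h1 : (minpoly F α).natDegree = 1 := by omega
    rw [minpoly.natDegree_eq_one_iff] at h1
    obtain ⟨a, ha⟩ := h1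
    refine ⟨a, a.2, ?_⟩
    have ha' : (a : PadicAlgCl p) = α := ha
    rw [ha', sub_self, norm_zero]
    exact mul_nonneg (Real.rpow_nonneg hp0.le _) hr
  set P : (PadicAlgCl p)[X] := (minpoly F α).map (algebraMap F (PadicAlgCl p)) with hP
  have hPm : P.Monic := (minpoly.monic hint).map _
  have hPd : P.natDegree = n := by rw [hP, natDegree_map, hn]
  have hroots : ∀ x ∈ P.roots, ‖x - α‖ ≤ r := by
    intro x hx
    have hx1 : aeval x (minpoly F α) = 0 := by
      rw [aeval_def, ← eval_map]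
      exact (mem_roots hPm.ne_zero).1 hx
    obtain ⟨σ, hσx⟩ := minpoly.exists_algEquiv_of_root' (halg.isAlgebraic α) hx1
    rw [← hσx]
    exact hσ σ
  -- the step to a root of a derivative
  have step : ∀ (q : ℕ) (s : ℝ), 1 ≤ q → q < n → r ≤ s →
      r ^ (n - q) ≤ ‖(n.choose q : PadicAlgCl p)‖ * s ^ (n - q) →
      ∃ β, ‖β - α‖ ≤ s ∧ (minpoly F β).natDegree ≤ n - q ∧
        ∀ σ : PadicAlgCl p ≃ₐ[F] PadicAlgCl p, ‖σ β - β‖ ≤ s := by
    intro q s hq1 hq hrs hs
    have hs0 : 0 ≤ s := hr.trans hrs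
    obtain ⟨β, hβ1, hβ2⟩ := exists_root_hasseDeriv hr hs0 P hPm α hroots q (by rwa [hPd])
      (by rwa [hPd])
    refine ⟨β, hβ2, ?_, fun σ => ?_⟩
    · have hD : hasseDeriv q P =
          (hasseDeriv q (minpoly F α)).map (algebraMap F (PadicAlgCl p)) := by
        ext i
        rw [hasseDeriv_coeff, hP, coeff_map, coeff_map, hasseDeriv_coeff, map_mul, map_natCast]
      have hdvd : minpoly F β ∣ hasseDeriv q (minpoly F α) := by
        apply minpoly.dvd
        rw [aeval_def, ← eval_map, ← hD]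
        exact hβ1
      have hne : hasseDeriv q (minpoly F α) ≠ 0 := by
        intro h
        have h3 := congrArg (fun f => coeff f (n - q)) h
        simp only [hasseDeriv_coeff, coeff_zero, Nat.sub_add_cancel hq.le] at h3
        have h4 : (minpoly F α).coeff n = 1 := by
          rw [← hn]
          exact minpoly.monic hint
        rw [h4, mul_one] at h3
        exact (Nat.choose_pos hq.le).ne' (Nat.cast_eq_zero.1 h3)
      refine (natDegree_le_of_dvd hdvd hne).trans ?_
      have h5 := natDegree_hasseDeriv_le (minpoly F α) q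
      rwa [hn] at h5
    · have h3 : σ β - β = (σ (β - α) - (β - α)) + (σ α - α) := by
        rw [map_sub]
        ring
      rw [h3]
      refine (IsUltrametricDist.norm_add_le_max _ _).trans (max_le ?_ ((hσ σ).trans hrs))
      refine (norm_sub_le_max' _ _).trans (max_le ?_ hβ2)
      have h4 := norm_map_eq (AlgEquiv.restrictScalars ℚ_[p] σ) (β - α)
      have h5 : ‖σ (β - α)‖ = ‖β - α‖ := h4
      rw [h5]
      exact hβ2
  have fin : ∀ (β : PadicAlgCl p) (s e : ℝ), 0 ≤ e → 0 ≤ s → ‖β - α‖ ≤ s →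
      (∃ a ∈ F, ‖β - a‖ ≤ (p : ℝ) ^ e * s) → ∃ a ∈ F, ‖α - a‖ ≤ (p : ℝ) ^ e * s := by
    rintro β s e he hs hβ ⟨a, ha, hβa⟩
    refine ⟨a, ha, ?_⟩
    have h3 : α - a = (β - a) - (β - α) := by ring
    rw [h3]
    refine (norm_sub_le_max' _ _).trans (max_le hβa (hβ.trans ?_))
    have h4 : 1 ≤ (p : ℝ) ^ e := Real.one_le_rpow hp1 he
    nlinarith
  obtain ⟨j, m, hpm, hjm⟩ := Nat.exists_eq_pow_mul_and_not_dvd hn0.ne' p hp.out.ne_one
  rcases Nat.lt_or_ge m 2 with hm | hm
  · -- `n = p ^ (i + 1)`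
    have hm0 : m ≠ 0 := by
      rintro rfl
      exact hpm (dvd_zero p)
    have hm1 : m = 1 := by omega
    subst hm1
    rw [mul_one] at hjm
    have hj : j ≠ 0 := by
      rintro rfl
      rw [pow_zero] at hjm
      omega
    obtain ⟨i, rfl⟩ := Nat.exists_eq_succ_of_ne_zero hj
    rw [Nat.succ_eq_add_one] at hjm
    have hq : p ^ i < n := by
      rw [hjm]
      exact Nat.pow_lt_pow_right hp.out.one_lt (Nat.lt_succ_self i)
    have hnq : 2 ^ i ≤ n - p ^ i := by
      have h3 : p ^ i * 2 ≤ p ^ (i + 1) := by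
        rw [pow_succ]
        exact Nat.mul_le_mul_left _ hp.out.two_le
      have h4 : 2 ^ i ≤ p ^ i := Nat.pow_le_pow_left hp.out.two_le i
      omega
    have hnq0 : n - p ^ i ≠ 0 := by
      have : 0 < 2 ^ i := by positivity
      omega
    set N := n - p ^ i with hN
    set s : ℝ := (p : ℝ) ^ ((N : ℝ)⁻¹) * r with hs
    have h1s : 1 ≤ (p : ℝ) ^ ((N : ℝ)⁻¹) := Real.one_le_rpow hp1 (by positivity)
    have hrs : r ≤ s := by
      rw [hs]
      nlinarith
    have hsN : r ^ N ≤ ‖(n.choose (p ^ i) : PadicAlgCl p)‖ * s ^ N := by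
      rw [hs, mul_pow, ← Real.rpow_natCast ((p : ℝ) ^ ((N : ℝ)⁻¹)) N, ← Real.rpow_mul hp0.le,
        inv_mul_cancel₀ (by exact_mod_cast hnq0), Real.rpow_one]
      have h3 : ‖(n.choose (p ^ i) : PadicAlgCl p)‖ = (p : ℝ)⁻¹ := by
        rw [hjm]
        exact norm_choose_p i
      rw [h3, ← mul_assoc, inv_mul_cancel₀ hp0.ne', one_mul]
    obtain ⟨β, hβ1, hβ2, hβ3⟩ := step (p ^ i) s (Nat.one_le_pow _ _ hp.out.pos) hq hrs hsN
    have hpos : 0 < p ^ i := pow_pos hp.out.pos i
    have hlt : (minpoly F β).natDegree < n := by omega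
    have h3 := fin β s (axE i) (axE_nonneg i) (hr.trans hrs) hβ1
      (ih _ hlt i (by rw [← hjm]; exact hlt) β s (hr.trans hrs) rfl hβ3)
    obtain ⟨a, ha, haα⟩ := h3
    refine ⟨a, ha, haα.trans ?_⟩
    rw [hs, ← mul_assoc, ← Real.rpow_add hp0]
    apply mul_le_mul_of_nonneg_right _ hr
    apply Real.rpow_le_rpow_of_exponent_le hp1
    have hik : i + 1 ≤ k := by
      by_contra hcon
      have h4 : p ^ (k + 1) ≤ p ^ (i + 1) := Nat.pow_le_pow_right hp.out.pos (by omega)
      omega
    have h4 : (N : ℝ)⁻¹ ≤ (1 / 2) ^ i := by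
      rw [one_div, inv_pow]
      apply inv_anti₀ (by positivity)
      exact_mod_cast hnq
    have h5 := axE_succ i
    have h6 := axE_mono hik
    linarith
  · -- `n` is not a power of `p`
    have hq : p ^ j < n := by
      have : 0 < p ^ j := pow_pos hp.out.pos j
      rw [hjm]
      nlinarith
    have hc : ‖(n.choose (p ^ j) : PadicAlgCl p)‖ = 1 := by
      rw [hjm]
      exact norm_choose_one j m hpm
    obtain ⟨β, hβ1, hβ2, hβ3⟩ := step (p ^ j) r (Nat.one_le_pow _ _ hp.out.pos) hq le_rfl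
      (by rw [hc, one_mul])
    have hpos : 0 < p ^ j := pow_pos hp.out.pos j
    have hlt : (minpoly F β).natDegree < n := by omega
    exact fin β r (axE k) (axE_nonneg k) hr hβ1
      (ih _ hlt k (hlt.trans hk) β r hr rfl hβ3)

/-- **Ax's lemma** -/
theorem ax (F : IntermediateField ℚ_[p] (PadicAlgCl p)) (α : PadicAlgCl p) (r : ℝ) (hr : 0 ≤ r)
    (hσ : ∀ σ : PadicAlgCl p ≃ₐ[F] PadicAlgCl p, ‖σ α - α‖ ≤ r) :
    ∃ a ∈ F, ‖α - a‖ ≤ (p : ℝ) ^ 2 * r := by
  have hp1 : (1 : ℝ) ≤ p := by exact_mod_cast hp.out.one_lt.le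
  obtain ⟨a, ha, h⟩ := ax_aux F (minpoly F α).natDegree (minpoly F α).natDegree
    ((Nat.lt_pow_self hp.out.one_lt).trans (Nat.pow_lt_pow_right hp.out.one_lt
      (Nat.lt_succ_self _))) α r hr rfl hσ
  refine ⟨a, ha, h.trans ?_⟩
  apply mul_le_mul_of_nonneg_right _ hr
  rw [← Real.rpow_natCast (p : ℝ) 2]
  apply Real.rpow_le_rpow_of_exponent_le hp1
  unfold axE
  have : (0 : ℝ) ≤ (1 / 2) ^ (minpoly F α).natDegree := by positivity
  push_cast
  linarith

end ax

end Pool.Agent.TH831
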