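import Pool.Agent.TH831.Abs

/-!
# Functoriality of the de Rham period ring

Mathlib defines the period ring `BDeRham R p` for a `p`-adically complete ring `R`.  We make ring
automorphisms of `R` act on it, and give it the structure of an algebra over `ℚ_p`.
-/

set_option autoImplicit false

open WittVector

universe u

namespace Pool.Agent.TH831

section general

variable {R : Type u} [CommRing R] {p : ℕ} [Fact p.Prime] [Fact ¬IsUnit (p : R)]

/-- the map induced on `R / p` -/
noncomputable def modPMap (e : R →+* R) : ModP R p →+* ModP R p :=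
  Ideal.quotientMap _ e (by
    rw [Ideal.span_singleton_le_iff_mem, Ideal.mem_comap, map_natCast]
    exact Ideal.mem_span_singleton_self _)

omit [Fact p.Prime] [Fact ¬IsUnit (p : R)] in
theorem modPMap_mk (e : R →+* R) (x : R) :
    modPMap (p := p) e (Ideal.Quotient.mk _ x) = Ideal.Quotient.mk _ (e x) :=
  Ideal.quotientMap_mk

/-- the map induced on the tilt `R♭ = lim R / p` -/
noncomputable def tiltMap (e : R →+* R) : PreTilt R p →+* PreTilt R p :=
  Perfection.map p (modPMap e)

theorem coeff_tiltMap (e : R →+* R) (n : ℕ) (x : PreTilt R p) :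
    PreTilt.coeff n (tiltMap e x) = modPMap e (PreTilt.coeff n x) :=
  rfl

variable [IsAdicComplete (Ideal.span {(p : R)}) R]

theorem untilt_tiltMap (e : R →+* R) (x : PreTilt R p) :
    (tiltMap e x).untilt = e x.untilt := by
  refine Perfection.teichmuller_spec (I := Ideal.span {(p : R)}) fun n => ?_
  obtain ⟨y, hy⟩ := Ideal.Quotient.mk_surjective (PreTilt.coeff n x)
  refine ⟨e y, ?_, ?_⟩
  · rw [← modPMap_mk, hy]
    rfl
  · have h : x.untilt ≡ y ^ p ^ n [SMOD Ideal.span {(p : R)} ^ (n + 1)] :=
      Perfection.teichmuller_sModEq hy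
    rw [SModEq.sub_mem] at h ⊢
    have h2 : e (y ^ p ^ n - x.untilt) ∈ Ideal.span {(p : R)} ^ (n + 1) := by
      have h3 : (Ideal.span {(p : R)} ^ (n + 1)).map e ≤ Ideal.span {(p : R)} ^ (n + 1) := by
        rw [Ideal.map_pow, Ideal.map_span, Set.image_singleton, map_natCast]
      apply h3
      apply Ideal.mem_map_of_mem
      rw [← neg_mem_iff, neg_sub]
      exact h
    rwa [map_sub, map_pow] at h2

/-- the map induced on `A_inf = W(R♭)` -/
noncomputable def wittMap (e : R →+* R) : WittVector p (PreTilt R p) →+* WittVector p (PreTilt R p) :=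
  WittVector.map (tiltMap e)

theorem theta_wittMap (e : R →+* R) (x : WittVector p (PreTilt R p)) :
    fontaineTheta R p (wittMap e x) = e (fontaineTheta R p x) := by
  rw [IsHausdorff.eq_iff_smodEq (I := Ideal.span {(p : R)})]
  intro n
  have key : ((Ideal.Quotient.mk (Ideal.span {(p : R)} ^ n)).comp (fontaineTheta R p)).comp
      (wittMap e) = ((Ideal.Quotient.mk (Ideal.span {(p : R)} ^ n)).comp e).comp
        (fontaineTheta R p) := by
    apply eq_of_apply_teichmuller_eq
    · refine ⟨n, ?_⟩
      have h : ((p : R ⧸ Ideal.span {(p : R)} ^ n)) =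
          Ideal.Quotient.mk (Ideal.span {(p : R)} ^ n) (p : R) := by rw [map_natCast]
      rw [h, ← map_pow, Ideal.Quotient.eq_zero_iff_mem]
      exact Ideal.pow_mem_pow (Ideal.mem_span_singleton_self _) n
    · intro x
      simp only [RingHom.comp_apply]
      rw [wittMap, map_teichmuller, fontaineTheta_teichmuller, fontaineTheta_teichmuller,
        untilt_tiltMap]
  have h := congrArg (fun f => f x) key
  simp only [RingHom.comp_apply] at h
  rw [smul_eq_mul, Ideal.mul_top]
  exact h

/-- `A_inf[1/p]` -/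
abbrev AinfP (R : Type u) [CommRing R] (p : ℕ) [Fact p.Prime] [Fact ¬IsUnit (p : R)] : Type u :=
  Localization.Away (p : WittVector p (PreTilt R p))

/-- the kernel of `θ` on `A_inf[1/p]` -/
noncomputable abbrev kerT (R : Type u) [CommRing R] (p : ℕ) [Fact p.Prime] [Fact ¬IsUnit (p : R)]
    [IsAdicComplete (Ideal.span {(p : R)}) R] : Ideal (AinfP R p) :=
  RingHom.ker (fontaineThetaInvertP R p)

omit [IsAdicComplete (Ideal.span {(p : R)}) R] in
theorem isUnit_ainf (e : R →+* R) :
    IsUnit (((algebraMap (WittVector p (PreTilt R p)) (AinfP R p)).comp (wittMap e))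
      (p : WittVector p (PreTilt R p))) := by
  rw [RingHom.comp_apply, map_natCast]
  exact IsLocalization.Away.algebraMap_isUnit (p : WittVector p (PreTilt R p))

/-- the map induced on `A_inf[1/p]` -/
noncomputable def ainfMap (e : R →+* R) : AinfP R p →+* AinfP R p :=
  IsLocalization.Away.lift (p : WittVector p (PreTilt R p)) (isUnit_ainf e)

omit [IsAdicComplete (Ideal.span {(p : R)}) R] in
theorem ainfMap_algebraMap (e : R →+* R) (x : WittVector p (PreTilt R p)) :
    ainfMap e (algebraMap _ (AinfP R p) x) = algebraMap _ (AinfP R p) (wittMap e x) :=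
  IsLocalization.Away.lift_eq _ (isUnit_ainf e) x

theorem isUnit_invP (p : ℕ) (e : R →+* R) :
    IsUnit (((algebraMap R (Localization.Away (p : R))).comp e) (p : R)) := by
  rw [RingHom.comp_apply, map_natCast]
  exact IsLocalization.Away.algebraMap_isUnit (p : R)

/-- the map induced on `R[1/p]` -/
noncomputable def invPMap (p : ℕ) (e : R →+* R) :
    Localization.Away (p : R) →+* Localization.Away (p : R) :=
  IsLocalization.Away.lift (p : R) (isUnit_invP p e)

theorem invPMap_algebraMap (p : ℕ) (e : R →+* R) (x : R) :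
    invPMap p e (algebraMap _ (Localization.Away (p : R)) x) =
      algebraMap _ (Localization.Away (p : R)) (e x) :=
  IsLocalization.Away.lift_eq _ (isUnit_invP p e) x

theorem isUnit_theta : IsUnit (((algebraMap R (Localization.Away (p : R))).comp
    (fontaineTheta R p)) (p : WittVector p (PreTilt R p))) := by
  rw [RingHom.comp_apply, map_natCast]
  exact IsLocalization.Away.algebraMap_isUnit (p : R)

theorem thetaInvertP_algebraMap (x : WittVector p (PreTilt R p)) :
    fontaineThetaInvertP R p (algebraMap _ (AinfP R p) x) =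
      algebraMap _ (Localization.Away (p : R)) (fontaineTheta R p x) :=
  IsLocalization.Away.lift_eq (p : WittVector p (PreTilt R p)) isUnit_theta x

theorem thetaInvertP_ainfMap (e : R →+* R) (x : AinfP R p) :
    fontaineThetaInvertP R p (ainfMap e x) = invPMap p e (fontaineThetaInvertP R p x) := by
  have h : (fontaineThetaInvertP R p).comp (ainfMap e) =
      (invPMap p e).comp (fontaineThetaInvertP R p) := by
    apply IsLocalization.ringHom_ext (Submonoid.powers (p : WittVector p (PreTilt R p)))
    ext x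
    simp only [RingHom.comp_apply]
    rw [ainfMap_algebraMap, thetaInvertP_algebraMap, thetaInvertP_algebraMap, invPMap_algebraMap,
      theta_wittMap]
  exact congrArg (fun f => f x) h

theorem ker_map_le (e : R →+* R) : (kerT R p).map (ainfMap e) ≤ kerT R p := by
  rw [Ideal.map_le_iff_le_comap]
  intro x hx
  rw [Ideal.mem_comap, RingHom.mem_ker, thetaInvertP_ainfMap, RingHom.mem_ker.1 hx, map_zero]

omit [IsAdicComplete (Ideal.span {(p : R)}) R] in
theorem tiltMap_comp (e e' : R →+* R) (x : PreTilt R p) :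
    tiltMap e (tiltMap e' x) = tiltMap (e.comp e') x := by
  apply Perfection.ext
  intro n
  show modPMap e (modPMap e' (PreTilt.coeff n x)) = modPMap (e.comp e') (PreTilt.coeff n x)
  obtain ⟨y, hy⟩ := Ideal.Quotient.mk_surjective (PreTilt.coeff n x)
  rw [← hy, modPMap_mk, modPMap_mk, modPMap_mk]
  rfl

omit [IsAdicComplete (Ideal.span {(p : R)}) R] in
theorem tiltMap_id (x : PreTilt R p) : tiltMap (RingHom.id R) x = x := by
  apply Perfection.ext
  intro n
  show modPMap (RingHom.id R) (PreTilt.coeff n x) = PreTilt.coeff n x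
  obtain ⟨y, hy⟩ := Ideal.Quotient.mk_surjective (PreTilt.coeff n x)
  rw [← hy, modPMap_mk]
  rfl

omit [IsAdicComplete (Ideal.span {(p : R)}) R] in
theorem wittMap_comp (e e' : R →+* R) (x : WittVector p (PreTilt R p)) :
    wittMap e (wittMap e' x) = wittMap (e.comp e') x := by
  ext n
  rw [wittMap, wittMap, wittMap, map_coeff, map_coeff, map_coeff, tiltMap_comp]

omit [IsAdicComplete (Ideal.span {(p : R)}) R] in
theorem wittMap_id (x : WittVector p (PreTilt R p)) : wittMap (RingHom.id R) x = x := by
  ext n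
  rw [wittMap, map_coeff, tiltMap_id]

omit [IsAdicComplete (Ideal.span {(p : R)}) R] in
theorem ainfMap_comp (e e' : R →+* R) : (ainfMap e).comp (ainfMap e') =
    (ainfMap (e.comp e') : AinfP R p →+* AinfP R p) := by
  apply IsLocalization.ringHom_ext (Submonoid.powers (p : WittVector p (PreTilt R p)))
  ext x
  simp only [RingHom.comp_apply]
  rw [ainfMap_algebraMap, ainfMap_algebraMap, ainfMap_algebraMap, wittMap_comp]

omit [IsAdicComplete (Ideal.span {(p : R)}) R] in
theorem ainfMap_id : (ainfMap (RingHom.id R) : AinfP R p →+* AinfP R p) = RingHom.id _ := by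
  apply IsLocalization.ringHom_ext (Submonoid.powers (p : WittVector p (PreTilt R p)))
  ext x
  simp only [RingHom.comp_apply]
  rw [ainfMap_algebraMap, wittMap_id]
  rfl

theorem ker_map_eq (e : R ≃+* R) :
    (kerT R p).map (ainfMap (e : R →+* R)) = kerT R p := by
  refine le_antisymm (ker_map_le _) ?_
  have h1 : (ainfMap (e : R →+* R)).comp (ainfMap (e.symm : R →+* R)) =
      RingHom.id (AinfP R p) := by
    rw [ainfMap_comp, ← ainfMap_id]
    congr 1
    ext x
    exact e.apply_symm_apply x
  calc kerT R p = (kerT R p).map (RingHom.id (AinfP R p)) := (Ideal.map_id _).symm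
    _ = ((kerT R p).map (ainfMap (e.symm : R →+* R))).map (ainfMap (e : R →+* R)) := by
      rw [Ideal.map_map, h1]
    _ ≤ _ := Ideal.map_mono (ker_map_le _)

noncomputable instance instCommRingBDeRham : CommRing (BDeRham R p) :=
  (inferInstance : CommRing (Localization (genSub (kerT R p))))

/-- The canonical map from `A_inf[1/p]` to `B_dR`. -/
noncomputable def toBdR (R : Type u) [CommRing R] (p : ℕ) [Fact p.Prime] [Fact ¬IsUnit (p : R)]
    [IsAdicComplete (Ideal.span {(p : R)}) R] : AinfP R p →+* BDeRham R p :=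
  toLoc (kerT R p)

/-- The action of an automorphism of `R` on `B_dR`. -/
noncomputable def bdrMap (e : R ≃+* R) : BDeRham R p →+* BDeRham R p :=
  locMap (ainfMap (e : R →+* R)) (ker_map_eq e)

theorem bdrMap_toBdR (e : R ≃+* R) (a : AinfP R p) :
    bdrMap e (toBdR R p a) = toBdR R p (ainfMap (e : R →+* R) a) := by
  have h1 := locMap_algebraMap (ainfMap (e : R →+* R)) (ker_map_eq e)
    (algebraMap (AinfP R p) (AdicCompletion (kerT R p) (AinfP R p)) a)
  rw [complMap_algebraMap] at h1
  exact h1

/-- The canonical map `ℤ_p = W(F_p) → W(R♭)`. -/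
noncomputable def zpToW (R : Type u) [CommRing R] (p : ℕ) [Fact p.Prime] [Fact ¬IsUnit (p : R)] :
    ℤ_[p] →+* WittVector p (PreTilt R p) :=
  (WittVector.map (ZMod.castHom (dvd_refl p) (PreTilt R p))).comp
    (WittVector.equiv p).symm.toRingHom

omit [IsAdicComplete (Ideal.span {(p : R)}) R] in
theorem wittMap_zpToW (e : R →+* R) (x : ℤ_[p]) :
    wittMap e (zpToW R p x) = zpToW R p x := by
  ext n
  unfold zpToW wittMap
  simp only [RingHom.comp_apply]
  rw [map_coeff, map_coeff]
  have h : (tiltMap e).comp (ZMod.castHom (dvd_refl p) (PreTilt R p)) =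
      ZMod.castHom (dvd_refl p) (PreTilt R p) := RingHom.ext_zmod _ _
  exact congrArg (fun f : ZMod p →+* PreTilt R p => f (((equiv p).symm.toRingHom x).coeff n)) h

omit [IsAdicComplete (Ideal.span {(p : R)}) R] in
theorem isUnit_zpToA (y : nonZeroDivisors ℤ_[p]) :
    IsUnit (((algebraMap (WittVector p (PreTilt R p)) (AinfP R p)).comp (zpToW R p)) y) := by
  have hy : (y : ℤ_[p]) ≠ 0 := nonZeroDivisors.ne_zero y.2
  rw [PadicInt.unitCoeff_spec hy, map_mul, map_pow]
  refine IsUnit.mul ((PadicInt.unitCoeff hy).isUnit.map _) (IsUnit.pow _ ?_)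
  rw [RingHom.comp_apply, map_natCast]
  exact IsLocalization.Away.algebraMap_isUnit (p : WittVector p (PreTilt R p))

/-- The canonical map `ℚ_p → A_inf[1/p]`. -/
noncomputable def qpToA (R : Type u) [CommRing R] (p : ℕ) [Fact p.Prime] [Fact ¬IsUnit (p : R)] :
    ℚ_[p] →+* AinfP R p :=
  IsLocalization.lift (M := nonZeroDivisors ℤ_[p])
    (g := (algebraMap (WittVector p (PreTilt R p)) (AinfP R p)).comp (zpToW R p)) isUnit_zpToA

omit [IsAdicComplete (Ideal.span {(p : R)}) R] in
theorem qpToA_coe (x : ℤ_[p]) :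
    qpToA R p (x : ℚ_[p]) = algebraMap (WittVector p (PreTilt R p)) (AinfP R p) (zpToW R p x) :=
  IsLocalization.lift_eq (M := nonZeroDivisors ℤ_[p]) (S := ℚ_[p]) isUnit_zpToA x

omit [IsAdicComplete (Ideal.span {(p : R)}) R] in
theorem ainfMap_qpToA (e : R →+* R) (x : ℚ_[p]) : ainfMap e (qpToA R p x) = qpToA R p x := by
  have h : (ainfMap e).comp (qpToA R p) = qpToA R p := by
    apply IsLocalization.ringHom_ext (nonZeroDivisors ℤ_[p])
    ext x
    simp only [RingHom.comp_apply]
    show ainfMap e (qpToA R p (x : ℚ_[p])) = qpToA R p (x : ℚ_[p])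
    rw [qpToA_coe, ainfMap_algebraMap, wittMap_zpToW]
  exact congrArg (fun f => f x) h

/-- `B_dR` is an algebra over `ℚ_p`. -/
noncomputable instance instAlgebraBDeRham : Algebra ℚ_[p] (BDeRham R p) :=
  ((toBdR R p).comp (qpToA R p)).toAlgebra

theorem algebraMap_BdR (x : ℚ_[p]) :
    algebraMap ℚ_[p] (BDeRham R p) x = toBdR R p (qpToA R p x) := rfl

theorem bdrMap_smul (e : R ≃+* R) (x : ℚ_[p]) (b : BDeRham R p) :
    bdrMap e (x • b) = x • bdrMap e b := by
  rw [Algebra.smul_def, Algebra.smul_def, map_mul, algebraMap_BdR, bdrMap_toBdR, ainfMap_qpToA]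

/-- The action of an automorphism of `R` on `B_dR` is linear over `ℚ_p`. -/
noncomputable def bdrLin (e : R ≃+* R) : BDeRham R p →ₗ[ℚ_[p]] BDeRham R p where
  toFun := bdrMap e
  map_add' := map_add _
  map_smul' := bdrMap_smul e

end general

end Pool.Agent.TH831
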