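import Pool.Agent.TH831.Tate

/-!
# Tate's theorem for open subgroups and integral twists
-/

set_option autoImplicit false

open Polynomial Finset

namespace Pool.Agent.TH831

variable {p : ℕ} [hp : Fact p.Prime]

/-- the cyclotomic character with values in `ℂ_p` -/
noncomputable def chiC (σ : GP p) : ℂ_[p] :=
  algebraMap ℚ_[p] ℂ_[p] (((chi σ : ℤ_[p]ˣ) : ℤ_[p]) : ℚ_[p])

theorem chiC_ne_zero (σ : GP p) : chiC σ ≠ 0 := by
  unfold chiC
  rw [Ne, FaithfulSMul.algebraMap_eq_zero_iff]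
  have h : ((chi σ : ℤ_[p]ˣ) : ℤ_[p]) ≠ 0 := (chi σ).ne_zero
  rw [PadicInt.coe_eq_zero]
  exact h

theorem chiC_mul (σ τ : GP p) : chiC (σ * τ) = chiC σ * chiC τ := by
  unfold chiC
  rw [chi_mul, ← map_mul]
  push_cast
  rfl

theorem galC_chiC (σ τ : GP p) : galC σ (chiC τ) = chiC τ := galC_algebraMap _ _

/-- **Tate's theorem**: no nonzero element of `ℂ_p` transforms through a nonzero integral power of
the cyclotomic character on a subgroup of finite index. -/
theorem tate_int (k : ℤ) (hk : k ≠ 0) (H : Subgroup (GP p)) [H.FiniteIndex] (z : ℂ_[p])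
    (hz : ∀ σ ∈ H, galC σ z = chiC σ ^ k * z) : z = 0 := by
  classical
  wlog hpos : 0 < k generalizing k z
  · have h1 := this (-k) (by omega) z⁻¹ (fun σ hσ => by
      rw [map_inv₀, hz σ hσ, mul_inv, zpow_neg]) (by omega)
    exact inv_eq_zero.1 h1
  obtain ⟨M, rfl⟩ := Int.eq_ofNat_of_zero_le hpos.le
  have hM : 0 < M := by exact_mod_cast hpos
  haveI : Fintype (GP p ⧸ H) := H.fintypeQuotientOfFiniteIndex
  let f : GP p → ℂ_[p] := fun g => (chiC g ^ M)⁻¹ * galC g z
  have hf : ∀ g, ∀ h ∈ H, f (g * h) = f g := by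
    intro g h hh
    show (chiC (g * h) ^ M)⁻¹ * galC (g * h) z = (chiC g ^ M)⁻¹ * galC g z
    rw [galC_mul, hz h hh, map_mul, zpow_natCast, map_pow, galC_chiC, chiC_mul, mul_pow, mul_inv]
    have h1 : chiC h ^ M ≠ 0 := pow_ne_zero _ (chiC_ne_zero h)
    field_simp
  let F : GP p ⧸ H → ℂ_[p] := fun c => f c.out
  have hF : ∀ g : GP p, F (g : GP p ⧸ H) = f g := by
    intro g
    obtain ⟨h, hh⟩ := QuotientGroup.mk_out_eq_mul H g
    show f _ = f g
    rw [hh]
    exact hf g h h.2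
  let N : ℂ_[p] := ∏ c, F c
  have hN : N = 0 := by
    refine tate_pos (M * Fintype.card (GP p ⧸ H)) (Nat.mul_pos hM Fintype.card_pos) N ?_
    intro σ
    have h1 : galC σ N = ∏ c, galC σ (F c) := map_prod _ _ _
    have h2 : ∀ c : GP p ⧸ H, galC σ (F c) = chiC σ ^ M * F (σ • c) := by
      intro c
      obtain ⟨g, rfl⟩ := QuotientGroup.mk_surjective c
      rw [hF g]
      have h3 : σ • (g : GP p ⧸ H) = ((σ * g : GP p) : GP p ⧸ H) := rfl
      rw [h3, hF]
      show galC σ ((chiC g ^ M)⁻¹ * galC g z) = chiC σ ^ M * ((chiC (σ * g) ^ M)⁻¹ *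
        galC (σ * g) z)
      rw [map_mul, map_inv₀, map_pow, galC_chiC, galC_mul, chiC_mul, mul_pow, mul_inv]
      have h1 : chiC σ ^ M ≠ 0 := pow_ne_zero _ (chiC_ne_zero σ)
      field_simp
    rw [h1, prod_congr rfl (fun c _ => h2 c), prod_mul_distrib, prod_const, card_univ, ← pow_mul]
    have h4 : ∏ c, F (σ • c) = N := Fintype.prod_equiv (MulAction.toPerm σ) _ _ (fun _ => rfl)
    rw [h4]
    congr 1
    unfold chiC
    rw [← map_pow]
    push_cast
    rfl
  have h5 : ∃ c ∈ (univ : Finset (GP p ⧸ H)), F c = 0 := prod_eq_zero_iff.1 hN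
  obtain ⟨c, -, hc⟩ := h5
  have h6 : (chiC c.out ^ M)⁻¹ * galC c.out z = 0 := hc
  rcases mul_eq_zero.1 h6 with h7 | h7
  · exact absurd h7 (inv_ne_zero (pow_ne_zero _ (chiC_ne_zero _)))
  · exact (map_eq_zero_iff _ (galC c.out).injective).1 h7

end Pool.Agent.TH831
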