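import Pool.Agent.TH831.Root
import Pool.Agent.TH831.TateInt

/-!
# A half-integral power of the cyclotomic character of a number field
-/

set_option autoImplicit false

open Polynomial NumberField

namespace Pool.Agent.TH831

/-! ### Generalities on the cyclotomic character -/

section cyc

variable {L : Type*} [Field L] (p : ℕ) [hp : Fact p.Prime] [∀ i, HasEnoughRootsOfUnity L (p ^ i)]

theorem cyclotomicCharacter_eq (g : L ≃+* L) (c : ℤ_[p])
    (h : ∀ (n : ℕ) (t : L), t ^ p ^ n = 1 → g t = t ^ (PadicInt.toZModPow n c).val) :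
    ((cyclotomicCharacter L p g : ℤ_[p]ˣ) : ℤ_[p]) = c := by
  apply PadicInt.ext_of_toZModPow.1
  intro n
  obtain ⟨ζ, hζ⟩ := HasEnoughRootsOfUnity.exists_primitiveRoot L (p ^ n)
  have h1 := cyclotomicCharacter.spec p g ζ hζ.pow_eq_one
  rw [h n ζ hζ.pow_eq_one] at h1
  have : NeZero (p ^ n) := ⟨pow_ne_zero _ hp.out.ne_zero⟩
  have h2 := hζ.pow_inj (ZMod.val_lt _) (ZMod.val_lt _) h1
  exact (ZMod.val_injective _ h2).symm

end cyc

section numfield

variable {F : Type*} [Field F] [NumberField F] {l : ℕ} [hl : Fact l.Prime]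

/-- the `l`-adic cyclotomic character of `F` -/
noncomputable def chiF (F : Type*) [Field F] [NumberField F] (l : ℕ) [Fact l.Prime] :
    Gal(AlgebraicClosure F/F) →* ℤ_[l]ˣ :=
  (cyclotomicCharacter (AlgebraicClosure F) l).comp
    (MulSemiringAction.toRingAut Gal(AlgebraicClosure F/F) (AlgebraicClosure F))

theorem continuous_chiF : Continuous (chiF F l) :=
  cyclotomicCharacter.continuous l F (AlgebraicClosure F)

theorem neZero_pow (i : ℕ) : NeZero ((l ^ i : ℕ) : AlgebraicClosure F) := by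
  have : CharZero (AlgebraicClosure F) := charZero_of_injective_algebraMap (algebraMap F _).injective
  exact ⟨by exact_mod_cast pow_ne_zero i hl.out.ne_zero⟩

instance hasEnough (i : ℕ) : HasEnoughRootsOfUnity (AlgebraicClosure F) (l ^ i) := by
  have := neZero_pow (F := F) (l := l) i
  infer_instance

theorem chiF_eq (τ : Gal(AlgebraicClosure F/F)) (c : ℤ_[l])
    (h : ∀ (n : ℕ) (t : AlgebraicClosure F), t ^ l ^ n = 1 →
      τ t = t ^ (PadicInt.toZModPow n c).val) :
    ((chiF F l τ : ℤ_[l]ˣ) : ℤ_[l]) = c :=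
  cyclotomicCharacter_eq l _ c h

/-- Compatible pairs of automorphisms: `σ` is an automorphism of the algebraic closure of `ℚ_l`
and `τ` is the automorphism of the algebraic closure of `F` which it induces through `ι`. -/
def Compat (ι : AlgebraicClosure F →+* PadicAlgCl l) (σ : Gal(PadicAlgCl l/ℚ_[l]))
    (τ : Gal(AlgebraicClosure F/F)) : Prop :=
  ∀ x, ι (τ x) = σ (ι x)

theorem chiF_of_compat {ι : AlgebraicClosure F →+* PadicAlgCl l} {σ : GP l}
    {τ : Gal(AlgebraicClosure F/F)} (h : Compat ι σ τ) : chiF F l τ = chi σ := by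
  apply Units.ext
  apply chiF_eq
  intro n t ht
  apply ι.injective
  rw [h t, map_pow]
  apply chi_spec
  rw [← map_pow, ht, map_one]

/-! ### Inertia and Frobenius -/

theorem eq_one_of_sub_mem {S : Type*} [CommRing S] [IsDomain S] {Q : Ideal S} {η : S} {m : ℕ}
    (hη : η ^ m = 1) (h1 : η - 1 ∈ Q) (hm : (m : S) ∉ Q) : η = 1 := by
  have h2 := geom_sum_mul η m
  rw [hη, sub_self, mul_eq_zero, sub_eq_zero] at h2
  rcases h2 with h2 | h2
  · exfalso
    apply hm
    have h3 : (∑ i ∈ Finset.range m, (η ^ i - 1)) ∈ Q := by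
      refine Ideal.sum_mem _ fun i _ => ?_
      exact Ideal.mem_of_dvd _ (by simpa using sub_dvd_pow_sub_pow η 1 i) h1
    rw [Finset.sum_sub_distrib, h2] at h3
    simpa using h3
  · exact h2


omit [NumberField F] in
theorem exists_int {n : ℕ} (hn : 0 < n) {t : AlgebraicClosure F} (ht : t ^ n = 1) :
    ∃ z : 𝓞 (AlgebraicClosure F), (algebraMap _ (AlgebraicClosure F)) z = t ∧ z ^ n = 1 := by
  have hint : IsIntegral ℤ t := ⟨X ^ n - 1, monic_X_pow_sub_C 1 hn.ne', by simp [ht]⟩
  obtain ⟨z, hz⟩ : ∃ z : 𝓞 (AlgebraicClosure F), (algebraMap _ (AlgebraicClosure F)) z = t :=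
    ⟨⟨t, hint⟩, rfl⟩
  refine ⟨z, hz, ?_⟩
  have hinj : Function.Injective (algebraMap (𝓞 (AlgebraicClosure F)) (AlgebraicClosure F)) :=
    Subtype.val_injective
  apply hinj
  rw [map_pow, map_one, hz]
  exact ht

omit hl in
theorem natCast_pow_notMem {S : Type*} [CommRing S] {P : Ideal S} [hP : P.IsPrime]
    (hl : (l : S) ∉ P) (n : ℕ) : ((l ^ n : ℕ) : S) ∉ P := by
  push_cast
  intro h
  exact hl (hP.mem_of_pow_mem _ h)

theorem chiF_inertia {P : Ideal (𝓞 (AlgebraicClosure F))} [P.IsPrime]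
    (hP : (l : 𝓞 (AlgebraicClosure F)) ∉ P) {τ : Gal(AlgebraicClosure F/F)}
    (hτ : τ ∈ P.inertia Gal(AlgebraicClosure F/F)) : chiF F l τ = 1 := by
  apply Units.ext
  apply chiF_eq
  intro n t ht
  obtain ⟨z, rfl, hz⟩ := exists_int (pow_pos hl.out.pos n) ht
  have h1 : τ • z = z := by
    have h2 : (τ • z) * z ^ (l ^ n - 1) = 1 := by
      apply eq_one_of_sub_mem (Q := P) (m := l ^ n)
      · rw [mul_pow, ← smul_pow', hz, smul_one, one_mul, ← pow_mul, mul_comm, pow_mul, hz, one_pow]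
      · have h3 : (τ • z) * z ^ (l ^ n - 1) - 1 = ((τ • z) - z) * z ^ (l ^ n - 1) := by
          rw [sub_mul, ← pow_succ', Nat.sub_add_cancel (Nat.one_le_iff_ne_zero.2
            (pow_ne_zero _ hl.out.ne_zero)), hz]
        rw [h3]
        exact P.mul_mem_right _ (hτ z)
      · exact natCast_pow_notMem hP n
    calc τ • z = (τ • z) * (z ^ (l ^ n - 1) * z) := by
          rw [← pow_succ, Nat.sub_add_cancel (Nat.one_le_iff_ne_zero.2
            (pow_ne_zero _ hl.out.ne_zero)), hz, mul_one]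
      _ = z := by rw [← mul_assoc, h2, one_mul]
  have h2 : τ ((algebraMap (𝓞 (AlgebraicClosure F)) (AlgebraicClosure F)) z) =
      (algebraMap (𝓞 (AlgebraicClosure F)) (AlgebraicClosure F)) (τ • z) := rfl
  rw [h2, h1, Units.val_one, map_one]
  rcases n with _ | n
  · have h3 : z = 1 := by simpa using hz
    rw [h3, map_one, one_pow]
  · have hlt : 1 < l ^ (n + 1) := Nat.one_lt_pow (Nat.succ_ne_zero n) hl.out.one_lt
    rw [ZMod.val_one'' (by omega), pow_one]

theorem pow_toZModPow_natCast {M : Type*} [Monoid M] {n : ℕ} {t : M} (ht : t ^ l ^ n = 1) (q : ℕ) :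
    t ^ (PadicInt.toZModPow (p := l) n (q : ℤ_[l])).val = t ^ q := by
  rw [map_natCast, ZMod.val_natCast, ← pow_mod_orderOf, Nat.mod_mod_of_dvd _ (orderOf_dvd_of_pow_eq_one ht),
    pow_mod_orderOf]

instance smulComm : SMulCommClass Gal(AlgebraicClosure F/F) (𝓞 F) (𝓞 (AlgebraicClosure F)) where
  smul_comm τ a x := by
    have hinj : Function.Injective (algebraMap (𝓞 (AlgebraicClosure F)) (AlgebraicClosure F)) :=
      Subtype.val_injective
    apply hinj
    have h1 : ∀ y : 𝓞 (AlgebraicClosure F),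
        (algebraMap (𝓞 (AlgebraicClosure F)) (AlgebraicClosure F)) (τ • y) =
        τ ((algebraMap (𝓞 (AlgebraicClosure F)) (AlgebraicClosure F)) y) := fun y => rfl
    have h2 : ∀ y : 𝓞 (AlgebraicClosure F),
        (algebraMap (𝓞 (AlgebraicClosure F)) (AlgebraicClosure F)) (a • y) =
        algebraMap F (AlgebraicClosure F) a *
          ((algebraMap (𝓞 (AlgebraicClosure F)) (AlgebraicClosure F)) y) := by
      intro y
      rw [Algebra.smul_def, map_mul]
      rfl
    rw [h1, h2, h2, h1, map_mul, AlgEquiv.commutes]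

theorem chiF_frob {P : Ideal (𝓞 (AlgebraicClosure F))} [P.IsPrime]
    (hP : (l : 𝓞 (AlgebraicClosure F)) ∉ P) {τ : Gal(AlgebraicClosure F/F)}
    (hτ : IsArithFrobAt (𝓞 F) τ P) :
    ((chiF F l τ : ℤ_[l]ˣ) : ℤ_[l]) = ((Nat.card (𝓞 F ⧸ P.under (𝓞 F)) : ℕ) : ℤ_[l]) := by
  apply chiF_eq
  intro n t ht
  obtain ⟨z, rfl, hz⟩ := exists_int (pow_pos hl.out.pos n) ht
  have h1 := AlgHom.IsArithFrobAt.apply_of_pow_eq_one hτ hz (natCast_pow_notMem hP n)
  rw [pow_toZModPow_natCast ht, ← map_pow, ← h1]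
  rfl

end numfield

end Pool.Agent.TH831
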