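import Pool.Agent.TH831.Ax

/-!
# The cyclotomic extensions of `ℚ_p`
-/

set_option autoImplicit false

open Polynomial Finset

namespace Pool.Agent.TH831

section cyc

variable {p : ℕ} [hp : Fact p.Prime] {m : ℕ} {ζ : PadicAlgCl p}

theorem norm_one_sub_pow_le {z : PadicAlgCl p} (hz : ‖z‖ ≤ 1) (i : ℕ) : ‖1 - z ^ i‖ ≤ ‖1 - z‖ := by
  rw [← mul_neg_geom_sum z i, norm_mul]
  have h : ‖∑ k ∈ range i, z ^ k‖ ≤ 1 := by
    apply IsUltrametricDist.norm_sum_le_of_forall_le_of_nonneg zero_le_one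
    intro k _
    rw [norm_pow]
    exact pow_le_one₀ (norm_nonneg _) hz
  exact mul_le_of_le_one_right (norm_nonneg _) h

theorem norm_one_of_pow {z : PadicAlgCl p} {n : ℕ} (hn : n ≠ 0) (hz : z ^ n = 1) : ‖z‖ = 1 := by
  have h := congrArg norm hz
  rw [norm_pow, norm_one] at h
  exact (pow_eq_one_iff_of_nonneg (norm_nonneg z) hn).1 h

theorem norm_root (hζ : IsPrimitiveRoot ζ (p ^ (m + 1))) : ‖ζ‖ = 1 :=
  norm_one_of_pow (pow_pos hp.out.pos _).ne' hζ.pow_eq_one

theorem norm_sub_one_pow (hζ : IsPrimitiveRoot ζ (p ^ (m + 1))) :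
    ‖ζ - 1‖ ^ Nat.totient (p ^ (m + 1)) = (p : ℝ)⁻¹ := by
  have h := eval_one_cyclotomic_prime_pow (R := PadicAlgCl p) (p := p) m
  rw [cyclotomic_eq_prod_X_sub_primitiveRoots hζ, eval_prod] at h
  have h1 := congrArg norm h
  have hpos : 0 < p ^ (m + 1) := pow_pos hp.out.pos _
  rw [norm_prod, norm_natCast_eq, Padic.norm_p] at h1
  rw [← h1, ← hζ.card_primitiveRoots, ← Finset.prod_const]
  refine Finset.prod_congr rfl fun μ hμ => ?_
  have hμ' : IsPrimitiveRoot μ (p ^ (m + 1)) := (mem_primitiveRoots hpos).1 hμ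
  rw [eval_sub, eval_X, eval_C, norm_sub_rev ζ 1]
  apply le_antisymm
  · obtain ⟨i, -, hi⟩ := hμ'.eq_pow_of_pow_eq_one hζ.pow_eq_one
    rw [← hi]
    exact norm_one_sub_pow_le (norm_root hμ').le i
  · obtain ⟨i, -, hi⟩ := hζ.eq_pow_of_pow_eq_one hμ'.pow_eq_one
    rw [← hi]
    exact norm_one_sub_pow_le (norm_root hζ).le i

theorem norm_sub_one_pos (hζ : IsPrimitiveRoot ζ (p ^ (m + 1))) : 0 < ‖ζ - 1‖ := by
  have h := norm_sub_one_pow hζ
  have hp0 : (0 : ℝ) < p := by exact_mod_cast hp.out.pos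
  rcases (norm_nonneg (ζ - 1)).lt_or_eq with h1 | h1
  · exact h1
  · rw [← h1, zero_pow (Nat.totient_pos.2 (pow_pos hp.out.pos _)).ne'] at h
    exact absurd h.symm (inv_pos.2 hp0).ne'

theorem norm_sub_one_lt (hζ : IsPrimitiveRoot ζ (p ^ (m + 1))) : ‖ζ - 1‖ < 1 := by
  have h := norm_sub_one_pow hζ
  have hp1 : (1 : ℝ) < p := by exact_mod_cast hp.out.one_lt
  by_contra hcon
  push Not at hcon
  have h1 := one_le_pow₀ hcon (n := Nat.totient (p ^ (m + 1)))
  rw [h] at h1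
  exact absurd (inv_lt_one_of_one_lt₀ hp1) (not_lt.2 h1)

/-- the minimal polynomial of a root of unity of `p`-power order has full degree -/
theorem natDegree_minpoly (hζ : IsPrimitiveRoot ζ (p ^ (m + 1))) :
    (minpoly ℚ_[p] ζ).natDegree = Nat.totient (p ^ (m + 1)) := by
  have hpos : 0 < p ^ (m + 1) := pow_pos hp.out.pos _
  have hp0 : (0 : ℝ) < p := by exact_mod_cast hp.out.pos
  have hp1 : (1 : ℝ) < p := by exact_mod_cast hp.out.one_lt
  set e := Nat.totient (p ^ (m + 1)) with he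
  have hint : IsIntegral ℚ_[p] ζ := (Algebra.IsAlgebraic.isAlgebraic ζ).isIntegral
  have hdvd : minpoly ℚ_[p] ζ ∣ cyclotomic (p ^ (m + 1)) ℚ_[p] := by
    apply minpoly.dvd
    rw [aeval_def, ← eval_map, map_cyclotomic]
    exact (isRoot_cyclotomic_iff.2 hζ)
  apply le_antisymm
  · rw [he, ← natDegree_cyclotomic (p ^ (m + 1)) ℚ_[p]]
    exact natDegree_le_of_dvd hdvd (cyclotomic_ne_zero _ _)
  · set π := ζ - 1 with hπ
    have h1 : (minpoly ℚ_[p] π).natDegree = (minpoly ℚ_[p] ζ).natDegree := by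
      have h2 := minpoly.sub_algebraMap (A := ℚ_[p]) ζ (1 : ℚ_[p])
      rw [map_one] at h2
      rw [hπ, h2, natDegree_comp, natDegree_X_add_C, mul_one]
    rw [← h1]
    set d := (minpoly ℚ_[p] π).natDegree with hd
    have hintπ : IsIntegral ℚ_[p] π := (Algebra.IsAlgebraic.isAlgebraic π).isIntegral
    have hd0 : 0 < d := minpoly.natDegree_pos hintπ
    have h3 : ‖π‖ = ‖(minpoly ℚ_[p] π).coeff 0‖ ^ (1 / (d : ℝ)) :=
      spectralNorm.spectralNorm_eq_norm_coeff_zero_rpow (K := ℚ_[p]) (L := PadicAlgCl p) π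
    have hπ0 : π ≠ 0 := norm_pos_iff.1 (norm_sub_one_pos hζ)
    have hc0 : (minpoly ℚ_[p] π).coeff 0 ≠ 0 := minpoly.coeff_zero_ne_zero hintπ hπ0
    have h4 : ‖π‖ ^ d = ‖(minpoly ℚ_[p] π).coeff 0‖ := by
      rw [h3, ← Real.rpow_natCast, ← Real.rpow_mul (norm_nonneg _),
        one_div, inv_mul_cancel₀ (by exact_mod_cast hd0.ne'), Real.rpow_one]
    rw [Padic.norm_eq_zpow_neg_valuation hc0] at h4
    set v := ((minpoly ℚ_[p] π).coeff 0).valuation with hv
    have h5 : ((p : ℝ)⁻¹) ^ d = ((p : ℝ) ^ (-v)) ^ e := by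
      rw [← norm_sub_one_pow hζ, ← h4, ← pow_mul, ← pow_mul, mul_comm]
    have h6 : (p : ℝ) ^ (-(d : ℤ)) = (p : ℝ) ^ (-v * e) := by
      rw [zpow_mul, zpow_natCast, ← h5, zpow_neg, zpow_natCast, inv_pow]
    have h7 : (d : ℤ) = v * e := by
      have := zpow_right_injective₀ hp0 hp1.ne' h6
      linarith
    have h8 : 0 < v := by
      by_contra hcon
      push Not at hcon
      have : (d : ℤ) ≤ 0 := by
        rw [h7]
        exact mul_nonpos_of_nonpos_of_nonneg hcon (by positivity)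
      omega
    have h9 : (e : ℤ) ≤ d := by
      rw [h7]
      nlinarith
    exact_mod_cast h9

theorem minpoly_root (hζ : IsPrimitiveRoot ζ (p ^ (m + 1))) :
    minpoly ℚ_[p] ζ = cyclotomic (p ^ (m + 1)) ℚ_[p] := by
  have hint : IsIntegral ℚ_[p] ζ := (Algebra.IsAlgebraic.isAlgebraic ζ).isIntegral
  have hdvd : minpoly ℚ_[p] ζ ∣ cyclotomic (p ^ (m + 1)) ℚ_[p] := by
    apply minpoly.dvd
    rw [aeval_def, ← eval_map, map_cyclotomic]
    exact (isRoot_cyclotomic_iff.2 hζ)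
  refine (eq_of_monic_of_dvd_of_natDegree_le (minpoly.monic hint) (cyclotomic.monic _ _) hdvd
    ?_).symm
  rw [natDegree_cyclotomic, natDegree_minpoly hζ]

theorem exists_aut (hζ : IsPrimitiveRoot ζ (p ^ (m + 1))) (a : ℕ) (ha : ¬ p ∣ a) :
    ∃ g : PadicAlgCl p ≃ₐ[ℚ_[p]] PadicAlgCl p, g ζ = ζ ^ a := by
  have hpos : 0 < p ^ (m + 1) := pow_pos hp.out.pos _
  have h1 : IsPrimitiveRoot (ζ ^ a) (p ^ (m + 1)) :=
    hζ.pow_of_coprime a ((Nat.Coprime.pow_right _ (hp.out.coprime_iff_not_dvd.2 ha).symm))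
  have h2 : aeval (ζ ^ a) (minpoly ℚ_[p] ζ) = 0 := by
    rw [minpoly_root hζ, aeval_def, ← eval_map, map_cyclotomic]
    exact (isRoot_cyclotomic_iff.2 h1)
  exact minpoly.exists_algEquiv_of_root' (Algebra.IsAlgebraic.isAlgebraic ζ) h2

theorem exists_repr (hζ : IsPrimitiveRoot ζ (p ^ (m + 1))) (x : PadicAlgCl p)
    (hx : x ∈ IntermediateField.adjoin ℚ_[p] {ζ}) (hx1 : ‖x‖ ≤ 1) :
    ∃ b : ℕ → ℚ_[p], (∀ j, ‖b j‖ ≤ 1) ∧
      x = ∑ j ∈ range (Nat.totient (p ^ (m + 1))), b j • (ζ - 1) ^ j := by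
  have hp0 : (0 : ℝ) < p := by exact_mod_cast hp.out.pos
  have hp1 : (1 : ℝ) < p := by exact_mod_cast hp.out.one_lt
  set e := Nat.totient (p ^ (m + 1)) with he
  have he0 : 0 < e := Nat.totient_pos.2 (pow_pos hp.out.pos _)
  set π := ζ - 1 with hπ
  have hint : IsIntegral ℚ_[p] ζ := (Algebra.IsAlgebraic.isAlgebraic ζ).isIntegral
  have hintπ : IsIntegral ℚ_[p] π := (Algebra.IsAlgebraic.isAlgebraic π).isIntegral
  have hdeg : (minpoly ℚ_[p] π).natDegree = e := by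
    have h2 := minpoly.sub_algebraMap (A := ℚ_[p]) ζ (1 : ℚ_[p])
    rw [map_one] at h2
    rw [hπ, h2, natDegree_comp, natDegree_X_add_C, mul_one]
    exact natDegree_minpoly hζ
  -- write `x` as a polynomial in `π`
  have hx2 : x ∈ Algebra.adjoin ℚ_[p] {ζ} := by
    rw [← IntermediateField.adjoin_simple_toSubalgebra_of_isAlgebraic hint.isAlgebraic]
    exact hx
  rw [Algebra.adjoin_singleton_eq_range_aeval] at hx2
  obtain ⟨f, hf⟩ := hx2
  have hf' : aeval ζ f = x := hf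
  set g : ℚ_[p][X] := (f.comp (X + C 1)) %ₘ (minpoly ℚ_[p] π) with hg
  have hgx : aeval π g = x := by
    have h1 := modByMonic_add_div (f.comp (X + C 1)) (minpoly ℚ_[p] π)
    have h2 := congrArg (aeval π) h1
    rw [map_add, map_mul, minpoly.aeval, zero_mul, add_zero, aeval_comp] at h2
    rw [h2, ← hf']
    congr 1
    simp [hπ]
  have hgd : g.natDegree < e := by
    rw [← hdeg]
    exact natDegree_modByMonic_lt _ (minpoly.monic hintπ) (fun h => by
      rw [h, natDegree_one] at hdeg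
      omega)
  have hsum : x = ∑ j ∈ range e, g.coeff j • π ^ j := by
    rw [← hgx, aeval_eq_sum_range' hgd]
  refine ⟨fun j => if j < e then g.coeff j else 0, fun j => ?_, ?_⟩
  swap
  · rw [hsum]
    refine sum_congr rfl fun j hj => ?_
    show g.coeff j • π ^ j = (if j < e then g.coeff j else 0) • π ^ j
    rw [if_pos (mem_range.1 hj)]
  show ‖if j < e then g.coeff j else 0‖ ≤ 1
  split_ifs with hj
  swap
  · rw [norm_zero]
    exact zero_le_one
  by_cases hj0 : g.coeff j = 0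
  · rw [hj0, norm_zero]
    exact zero_le_one
  have hπn : ‖π‖ ^ e = (p : ℝ)⁻¹ := norm_sub_one_pow hζ
  -- the norms of the terms are distinct
  classical
  set s := (range e).filter (fun j => g.coeff j ≠ 0) with hs
  have hjs : j ∈ s := mem_filter.2 ⟨mem_range.2 hj, hj0⟩
  have hterm : ∀ i, g.coeff i ≠ 0 → ‖g.coeff i • π ^ i‖ ^ e =
      (p : ℝ) ^ (-(g.coeff i).valuation * e - i) := by
    intro i hi
    rw [norm_smul, norm_pow, mul_pow, ← pow_mul, mul_comm i e, pow_mul, hπn,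
      Padic.norm_eq_zpow_neg_valuation hi, ← zpow_natCast, ← zpow_mul, zpow_sub₀ hp0.ne',
      zpow_natCast, inv_pow, div_eq_mul_inv]
  have hpw : Set.Pairwise (s : Set ℕ) (fun i j => ‖g.coeff i • π ^ i‖ ≠ ‖g.coeff j • π ^ j‖) := by
    intro i hi k hk hik h
    have hi' := mem_filter.1 (mem_coe.1 hi)
    have hk' := mem_filter.1 (mem_coe.1 hk)
    have h1 := congrArg (fun x : ℝ => x ^ e) h
    simp only [hterm i hi'.2, hterm k hk'.2] at h1
    have h2 := zpow_right_injective₀ hp0 hp1.ne' h1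
    have hi3 := mem_range.1 hi'.1
    have hk3 := mem_range.1 hk'.1
    have h4 : (e : ℤ) ∣ (i : ℤ) - k := ⟨-(g.coeff i).valuation + (g.coeff k).valuation, by
      linarith⟩
    have h5 : |(i : ℤ) - k| < e := by
      rw [abs_lt]
      omega
    have h6 := Int.eq_zero_of_abs_lt_dvd h4 h5
    apply hik
    omega
  have hsum2 : ‖x‖ = s.sup' ⟨j, hjs⟩ (fun i => ‖g.coeff i • π ^ i‖) := by
    rw [← IsUltrametricDist.norm_sum_eq_sup'_of_pairwise_ne ⟨j, hjs⟩ hpw, hsum]
    congr 1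
    rw [hs, sum_filter]
    refine sum_congr rfl fun i _ => ?_
    split_ifs with h
    · rfl
    · push Not at h
      rw [h, zero_smul]
  have h1 : ‖g.coeff j • π ^ j‖ ≤ 1 := by
    refine le_trans ?_ hx1
    rw [hsum2]
    exact le_sup' (fun i => ‖g.coeff i • π ^ i‖) hjs
  have h2 : (p : ℝ) ^ (-(g.coeff j).valuation * e - j) ≤ 1 := by
    rw [← hterm j hj0]
    exact pow_le_one₀ (norm_nonneg _) h1
  have h3 : -(g.coeff j).valuation * e - j ≤ 0 := by
    by_contra hcon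
    push Not at hcon
    have := one_lt_zpow₀ hp1 hcon
    linarith
  rw [Padic.norm_le_one_iff_val_nonneg]
  by_contra hcon
  push Not at hcon
  have h4 : (1 : ℤ) ≤ -(g.coeff j).valuation := by omega
  have h5 : (e : ℤ) ≤ -(g.coeff j).valuation * e := by nlinarith
  omega

end cyc

end Pool.Agent.TH831
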