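import Pool.Agent.TH831.Char

/-!
# The representation and its local parameters outside `l`
-/

set_option autoImplicit false

open Polynomial NumberField

namespace Pool.Agent.TH831

variable {F : Type*} [Field F] [NumberField F] {l : ℕ} [hl : Fact l.Prime] {n : ℕ}

/-- The geometric Frobenius elements at a maximal ideal `P` of the ring of all algebraic integers:
the inverse `φ⁻¹` is `x ↦ x ^ q` modulo `P`, where `q` is the size of the residue field of `F` at
the place below `P`. -/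
def IsGeomFrob (P : Ideal (𝓞 (AlgebraicClosure F))) (φ : Gal(AlgebraicClosure F/F)) : Prop :=
  ∀ x : 𝓞 (AlgebraicClosure F), φ⁻¹ • x - x ^ Nat.card (𝓞 F ⧸ P.under (𝓞 F)) ∈ P

/-- `ρ` is unramified at every finite place not dividing `l`. -/
def UnramifiedOutside (ρ : Gal(AlgebraicClosure F/F) →* GL (Fin n) (PadicAlgCl l)) : Prop :=
  ∀ P : Ideal (𝓞 (AlgebraicClosure F)), P.IsMaximal → (l : 𝓞 (AlgebraicClosure F)) ∉ P →
    ∀ τ ∈ P.inertia Gal(AlgebraicClosure F/F), ρ τ = 1

/-- At every finite place `v` not dividing `l`, every eigenvalue of every geometric Frobenius is an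
algebraic integer, and all its complex conjugates have absolute value `q ^ (w / 2)`, where `q` is
the size of the residue field of `F` at `v`. -/
def FrobIntegralPure (ρ : Gal(AlgebraicClosure F/F) →* GL (Fin n) (PadicAlgCl l)) (w : ℤ) : Prop :=
  ∀ P : Ideal (𝓞 (AlgebraicClosure F)), P.IsMaximal → (l : 𝓞 (AlgebraicClosure F)) ∉ P →
    ∀ φ : Gal(AlgebraicClosure F/F), IsGeomFrob P φ →
      ∀ α : PadicAlgCl l, (ρ φ : Matrix (Fin n) (Fin n) (PadicAlgCl l)).charpoly.IsRoot α →
        IsIntegral ℤ α ∧ ∀ z : ℂ, aeval z (minpoly ℚ α) = 0 →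
          ‖z‖ = (Nat.card (𝓞 F ⧸ P.under (𝓞 F)) : ℝ) ^ ((w : ℝ) / 2)

/-- the one-dimensional representation attached to a character -/
noncomputable def scalarRep {G E : Type*} [Group G] [CommRing E] (χ : G →* Eˣ) :
    G →* GL (Fin 1) E :=
  (Units.map (Matrix.scalar (Fin 1)).toMonoidHom).comp χ

theorem scalarRep_apply {G E : Type*} [Group G] [CommRing E] (χ : G →* Eˣ) (g : G) :
    (scalarRep χ g : Matrix (Fin 1) (Fin 1) E) = Matrix.scalar (Fin 1) (χ g : E) := rfl

theorem continuous_scalarRep {G E : Type*} [Group G] [TopologicalSpace G] [CommRing E]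
    [TopologicalSpace E] {χ : G →* Eˣ} (hχ : Continuous χ) : Continuous (scalarRep χ) := by
  have h1 : Continuous (Units.map ((Matrix.scalar (Fin 1) : E →+* Matrix (Fin 1) (Fin 1) E)).toMonoidHom) := by
    refine Continuous.units_map _ ?_
    show Continuous fun x : E => Matrix.scalar (Fin 1) x
    refine continuous_pi fun i => continuous_pi fun j => ?_
    simp only [Matrix.scalar_apply]
    rw [Subsingleton.elim j i]
    simpa using (continuous_id' : Continuous fun a : E => a)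
  exact h1.comp hχ

theorem charpoly_scalarRep {G E : Type*} [Group G] [Field E] (χ : G →* Eˣ) (g : G) (α : E)
    (h : (scalarRep χ g : Matrix (Fin 1) (Fin 1) E).charpoly.IsRoot α) : α = (χ g : E) := by
  rw [scalarRep_apply] at h
  rw [Matrix.charpoly, Matrix.det_fin_one] at h
  simpa [sub_eq_zero] using h

section main

/-- the character `ψ(χ)⁻¹`, where `ψ` is a square root of the identity up to roots of unity -/
noncomputable def halfChar (F : Type*) [Field F] [NumberField F] {l : ℕ} [Fact l.Prime]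
    (ψ : ℤ_[l]ˣ →* (PadicAlgCl l)ˣ) : Gal(AlgebraicClosure F/F) →* (PadicAlgCl l)ˣ :=
  (ψ.comp (chiF F l))⁻¹

variable {ψ : ℤ_[l]ˣ →* (PadicAlgCl l)ˣ}

theorem continuous_halfChar (hψ : Continuous ψ) : Continuous (halfChar F ψ) :=
  (hψ.comp continuous_chiF).inv

theorem halfChar_unramified : UnramifiedOutside (scalarRep (halfChar F ψ)) := by
  intro P hP hlP τ hτ
  have h1 : halfChar F ψ τ = 1 := by
    show (ψ (chiF F l τ))⁻¹ = 1
    rw [chiF_inertia hlP hτ, map_one, inv_one]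
  show Units.map _ (halfChar F ψ τ) = 1
  rw [h1, map_one]

omit [NumberField F] in
theorem isArithFrobAt_of_isGeomFrob {P : Ideal (𝓞 (AlgebraicClosure F))}
    {φ : Gal(AlgebraicClosure F/F)} (h : IsGeomFrob P φ) : IsArithFrobAt (𝓞 F) φ⁻¹ P := h

theorem integral_of_pow {K : Type*} [Field K] [CharZero K] {α : K} {N : ℕ} (hN : 0 < N) {q : ℕ}
    (h : α ^ (2 * N) = (q : K) ^ N) :
    IsIntegral ℤ α ∧ ∀ z : ℂ, aeval z (minpoly ℚ α) = 0 → ‖z‖ = (q : ℝ) ^ ((1 : ℝ) / 2) := by
  constructor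
  · refine ⟨X ^ (2 * N) - C ((q : ℤ) ^ N), monic_X_pow_sub_C _ (by omega), ?_⟩
    rw [eval₂_sub, eval₂_X_pow, eval₂_C, h]
    simp
  · intro z hz
    have h1 : minpoly ℚ α ∣ X ^ (2 * N) - C ((q : ℚ) ^ N) := by
      apply minpoly.dvd
      simp [h]
    have h2 : aeval z (X ^ (2 * N) - C ((q : ℚ) ^ N)) = 0 := by
      obtain ⟨r, hr⟩ := h1
      rw [hr, map_mul, hz, zero_mul]
    have h3 : z ^ (2 * N) = (q : ℂ) ^ N := by
      have : z ^ (2 * N) - (q : ℂ) ^ N = 0 := by simpa using h2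
      exact sub_eq_zero.1 this
    have h4 : (‖z‖ ^ 2) ^ N = (q : ℝ) ^ N := by
      rw [← pow_mul, ← norm_pow, h3, norm_pow]
      simp
    have h5 : ‖z‖ ^ 2 = (q : ℝ) := (pow_left_inj₀ (by positivity) (by positivity) hN.ne').1 h4
    rw [← Real.sqrt_eq_rpow, ← h5, Real.sqrt_sq (norm_nonneg _)]

theorem halfChar_pure {N : ℕ} (hN : 0 < N)
    (hψ : ∀ u, ψ u ^ (2 * N) = Units.map (emb l).toMonoidHom u ^ N) :
    FrobIntegralPure (scalarRep (halfChar F ψ)) 1 := by
  intro P hP hlP φ hφ α hα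
  have h1 := charpoly_scalarRep _ _ _ hα
  have h2 := chiF_frob hlP (isArithFrobAt_of_isGeomFrob hφ)
  have h3 : halfChar F ψ φ = ψ (chiF F l φ⁻¹) := by
    rw [map_inv, map_inv]
    rfl
  rw [h3] at h1
  have h4 : α ^ (2 * N) = ((Nat.card (𝓞 F ⧸ P.under (𝓞 F)) : ℕ) : PadicAlgCl l) ^ N := by
    have h5 := congrArg (fun x : (PadicAlgCl l)ˣ => (x : PadicAlgCl l)) (hψ (chiF F l φ⁻¹))
    simp only [Units.val_pow_eq_pow_val] at h5
    rw [h1, h5]
    have h6 : ((Units.map (emb l).toMonoidHom (chiF F l φ⁻¹) : (PadicAlgCl l)ˣ) : PadicAlgCl l) =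
        emb l ((chiF F l φ⁻¹ : ℤ_[l]ˣ) : ℤ_[l]) := rfl
    rw [h6, h2, map_natCast]
  have h7 := integral_of_pow hN h4
  refine ⟨h7.1, fun z hz => ?_⟩
  rw [h7.2 z hz, Int.cast_one]

end main

end Pool.Agent.TH831
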