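import Pool.Agent.TH831.Local
import Pool.Agent.TH831.Rep

/-!
# Hodge–Tate parts
-/

set_option autoImplicit false

open Polynomial NumberField TensorProduct

namespace Pool.Agent.TH831

variable {F : Type*} [Field F] [NumberField F] {l : ℕ} [hl : Fact l.Prime] {n : ℕ}

/-- The action of `σ` on the Tate twist `ℂ_l(j)`. -/
noncomputable def galTwist (j : ℤ) (σ : Gal(PadicAlgCl l/ℚ_[l])) : ℂ_[l] →ₗ[ℚ_[l]] ℂ_[l] where
  toFun x := chiC σ ^ j * galC σ x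
  map_add' x y := by rw [map_add, mul_add]
  map_smul' a x := by
    rw [Algebra.smul_def, map_mul, galC_algebraMap, Algebra.smul_def, RingHom.id_apply]
    ring

section inv

variable {W : Type*} [AddCommGroup W] [Module ℚ_[l] W]

/-- A vector of `V ⊗ W` is invariant under the decomposition group `G_{F_v}`, where `V` is the space
of `ρ`, the group `Gal(ℚ̄_l/ℚ_l)` acts on `W` through `T`, and `v` is the place of `F` above `l`
defined by the embedding `ι`: the elements of `G_{F_v}` are the pairs `(σ, τ)` of compatible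
automorphisms. -/
def IsInv (ρ : Gal(AlgebraicClosure F/F) →* GL (Fin n) (PadicAlgCl l))
    (ι : AlgebraicClosure F →+* PadicAlgCl l) (T : Gal(PadicAlgCl l/ℚ_[l]) → W →ₗ[ℚ_[l]] W)
    (x : Fin n → PadicAlgCl l ⊗[ℚ_[l]] W) : Prop :=
  ∀ σ τ, Compat ι σ τ → ∀ i, ∑ k, (ρ τ : Matrix (Fin n) (Fin n) (PadicAlgCl l)) i k •
    (T σ).baseChange (PadicAlgCl l) (x k) = x i

omit [NumberField F] in
theorem isInv_zero (ρ : Gal(AlgebraicClosure F/F) →* GL (Fin n) (PadicAlgCl l))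
    (ι : AlgebraicClosure F →+* PadicAlgCl l) (T : Gal(PadicAlgCl l/ℚ_[l]) → W →ₗ[ℚ_[l]] W) :
    IsInv ρ ι T 0 := by
  intro σ τ _ i
  simp

omit [NumberField F] in
theorem isInv_add {ρ : Gal(AlgebraicClosure F/F) →* GL (Fin n) (PadicAlgCl l)}
    {ι : AlgebraicClosure F →+* PadicAlgCl l} {T : Gal(PadicAlgCl l/ℚ_[l]) → W →ₗ[ℚ_[l]] W}
    {x y : Fin n → PadicAlgCl l ⊗[ℚ_[l]] W} (hx : IsInv ρ ι T x) (hy : IsInv ρ ι T y) :
    IsInv ρ ι T (x + y) := by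
  intro σ τ h i
  simp only [Pi.add_apply, map_add, smul_add, Finset.sum_add_distrib]
  rw [hx σ τ h i, hy σ τ h i]

omit [NumberField F] in
theorem isInv_smul {ρ : Gal(AlgebraicClosure F/F) →* GL (Fin n) (PadicAlgCl l)}
    {ι : AlgebraicClosure F →+* PadicAlgCl l} {T : Gal(PadicAlgCl l/ℚ_[l]) → W →ₗ[ℚ_[l]] W}
    (c : PadicAlgCl l) {x : Fin n → PadicAlgCl l ⊗[ℚ_[l]] W} (hx : IsInv ρ ι T x) :
    IsInv ρ ι T (c • x) := by
  intro σ τ h i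
  simp only [Pi.smul_apply, map_smul]
  rw [← hx σ τ h i, Finset.smul_sum]
  refine Finset.sum_congr rfl fun k _ => ?_
  rw [smul_comm]

/-- the space `(V ⊗ W)^{G_{F_v}}` -/
noncomputable def invariants (ρ : Gal(AlgebraicClosure F/F) →* GL (Fin n) (PadicAlgCl l))
    (ι : AlgebraicClosure F →+* PadicAlgCl l) (T : Gal(PadicAlgCl l/ℚ_[l]) → W →ₗ[ℚ_[l]] W) :
    Submodule (PadicAlgCl l) (Fin n → PadicAlgCl l ⊗[ℚ_[l]] W) where
  carrier := {x | IsInv ρ ι T x}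
  zero_mem' := isInv_zero ρ ι T
  add_mem' := isInv_add
  smul_mem' := isInv_smul

end inv

variable {ψ : ℤ_[l]ˣ →* (PadicAlgCl l)ˣ}

theorem halfChar_apply_of_mem (hψ : ∀ u : Ub l, ψ u = Units.map (emb l).toMonoidHom (rt u))
    {ι : AlgebraicClosure F →+* PadicAlgCl l} {σ : GP l} (hσ : σ ∈ Hsub F l)
    {τ : Gal(AlgebraicClosure F/F)} (h : Compat ι σ τ) :
    ((halfChar F ψ τ : (PadicAlgCl l)ˣ) : PadicAlgCl l) =
      algebraMap ℚ_[l] (PadicAlgCl l) ((((rt ⟨chi σ, Hsub_chi hσ⟩)⁻¹ : ℤ_[l]ˣ) : ℤ_[l]) : ℚ_[l]) := by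
  have h1 : halfChar F ψ τ = Units.map (emb l).toMonoidHom ((rt ⟨chi σ, Hsub_chi hσ⟩)⁻¹) := by
    show (ψ (chiF F l τ))⁻¹ = _
    rw [chiF_of_compat h, map_inv, hψ ⟨chi σ, Hsub_chi hσ⟩]
  rw [h1]
  rfl

/-- General form: an `F`-linear Galois module on which the group acts through linear maps. -/
theorem eq_zero_of_invariant {W : Type*} [AddCommGroup W] [Module ℚ_[l] W]
    (T : GP l → W →ₗ[ℚ_[l]] W)
    (hT : ∀ w : W, (∀ σ (hσ : σ ∈ Hsub F l), T σ w =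
      ((((rt ⟨chi σ, Hsub_chi hσ⟩) : ℤ_[l]ˣ) : ℤ_[l]) : ℚ_[l]) • w) → w = 0)
    (hψ : ∀ u : Ub l, ψ u = Units.map (emb l).toMonoidHom (rt u))
    (ι : AlgebraicClosure F →+* PadicAlgCl l) (x : Fin 1 → PadicAlgCl l ⊗[ℚ_[l]] W)
    (hx : ∀ σ τ, Compat ι σ τ → ∀ i, ∑ k, (scalarRep (halfChar F ψ) τ :
      Matrix (Fin 1) (Fin 1) (PadicAlgCl l)) i k • (T σ).baseChange (PadicAlgCl l) (x k) = x i) :
    x = 0 := by
  funext i
  rw [Subsingleton.elim i 0]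
  clear i
  refine tensor_eq_zero (I := Hsub F l) (fun σ => T σ)
    (fun σ => ((((rt ⟨chi (σ : GP l), Hsub_chi σ.2⟩) : ℤ_[l]ˣ) : ℤ_[l]) : ℚ_[l])) ?_ (x 0) ?_
  · intro w hw
    exact hT w fun σ hσ => hw ⟨σ, hσ⟩
  · rintro ⟨σ, hσ⟩
    obtain ⟨τ, hτ⟩ := exists_compat (F := F) ι σ (fun a => Hsub_fix hσ (ι.comp (algebraMap F _)) a)
    have h1 := hx σ τ hτ 0
    rw [Fin.sum_univ_one, scalarRep_apply, Matrix.scalar_apply, Matrix.diagonal_apply_eq,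
      halfChar_apply_of_mem hψ hσ hτ, algebraMap_smul] at h1
    set u : ℤ_[l]ˣ := rt ⟨chi σ, Hsub_chi hσ⟩ with hu
    have h2 : (((u : ℤ_[l]ˣ) : ℤ_[l]) : ℚ_[l]) * ((((u⁻¹ : ℤ_[l]ˣ)) : ℤ_[l]) : ℚ_[l]) = 1 := by
      have h3 : ((u : ℤ_[l]ˣ) : ℤ_[l]) * (((u⁻¹ : ℤ_[l]ˣ)) : ℤ_[l]) = 1 := by
        rw [← Units.val_mul, mul_inv_cancel, Units.val_one]
      exact_mod_cast congrArg (fun z : ℤ_[l] => (z : ℚ_[l])) h3
    have h3 : (((u : ℤ_[l]ˣ) : ℤ_[l]) : ℚ_[l]) • x 0 = (T σ).baseChange (PadicAlgCl l) (x 0) := by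
      conv_lhs => rw [← h1]
      rw [smul_smul, h2, one_smul]
    exact h3.symm

/-- the core of the argument for Hodge–Tate weights -/
theorem core_HT {H : Subgroup (GP l)} [H.FiniteIndex] (j : ℤ) (z : ℂ_[l]) (a : GP l → ℂ_[l])
    (ha : ∀ σ ∈ H, a σ ^ 2 = chiC σ) (hz : ∀ σ ∈ H, galC σ z = a σ * chiC σ ^ j * z) : z = 0 := by
  have h1 : z ^ 2 = 0 := by
    refine tate_int (2 * j + 1) (by omega) H (z ^ 2) fun σ hσ => ?_
    rw [map_pow, hz σ hσ, mul_pow, mul_pow, ha σ hσ, zpow_add₀ (chiC_ne_zero σ), zpow_one,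
      ← zpow_natCast, ← zpow_mul]
    push_cast
    ring_nf
  exact pow_eq_zero_iff two_ne_zero |>.1 h1

theorem halfChar_hodgeTate (hψ : ∀ u : Ub l, ψ u = Units.map (emb l).toMonoidHom (rt u))
    (ι : AlgebraicClosure F →+* PadicAlgCl l) (j : ℤ) :
    invariants (scalarRep (halfChar F ψ)) ι (galTwist j) = ⊥ := by
  rw [eq_bot_iff]
  intro x hx
  rw [Submodule.mem_bot]
  refine eq_zero_of_invariant (fun σ => galTwist j σ) ?_ hψ ι x hx
  intro w hw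
  classical
  refine core_HT (H := Hsub F l) (-j) w
    (fun σ => if hσ : σ ∈ Hsub F l then algebraMap ℚ_[l] ℂ_[l]
      ((((rt ⟨chi σ, Hsub_chi hσ⟩) : ℤ_[l]ˣ) : ℤ_[l]) : ℚ_[l]) else 0) ?_ ?_
  · intro σ hσ
    simp only [hσ, dif_pos]
    rw [← map_pow]
    unfold chiC
    congr 1
    have h1 := rt_sq ⟨chi σ, Hsub_chi hσ⟩
    have h2 := congrArg (fun z : ℤ_[l]ˣ => ((z : ℤ_[l]) : ℚ_[l])) h1
    simpa using h2
  · intro σ hσ
    simp only [hσ, dif_pos]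
    have h1 := hw σ hσ
    have h2 : chiC σ ^ j * galC σ w = galTwist j σ w := rfl
    have h3 : chiC σ ^ j ≠ 0 := zpow_ne_zero _ (chiC_ne_zero σ)
    have h4 : galC σ w = (chiC σ ^ j)⁻¹ * (galTwist j σ w) := by
      rw [← h2, ← mul_assoc, inv_mul_cancel₀ h3, one_mul]
    rw [h4, h1, Algebra.smul_def, zpow_neg]
    ring

end Pool.Agent.TH831
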