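import Pool.Agent.TH831.Lam
import Pool.Agent.TH831.HT

/-!
# De Rham representations
-/

set_option autoImplicit false

open Polynomial NumberField TensorProduct

namespace Pool.Agent.TH831

section core

variable {p : ℕ} [hp : Fact p.Prime]

/-- The period ring `B_dR` of `ℚ_p`. -/
def BdRp (p : ℕ) [Fact p.Prime] : Type := BDeRham (PadicComplexInt p) p

noncomputable instance instAddCommGroupBdRp : AddCommGroup (BdRp p) :=
  (instCommRingBDeRham (R := PadicComplexInt p) (p := p)).toRing.toAddCommGroup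

noncomputable instance instModuleBdRp : Module ℚ_[p] (BdRp p) :=
  (instAlgebraBDeRham (R := PadicComplexInt p) (p := p)).toModule

/-- The action of the absolute Galois group of `ℚ_p` on the period ring `B_dR`. -/
noncomputable def galB (σ : Gal(PadicAlgCl p/ℚ_[p])) : BdRp p →ₗ[ℚ_[p]] BdRp p :=
  bdrLin (galO σ)

theorem galB_apply (σ : GP p) (b : BdRp p) :
    galB σ b = locMap (galA σ) (ker_map_eq (galO σ)) b := rfl

theorem Th_lam_ne_zero (σ : GP p) : Th p (lam σ) ≠ 0 := by
  obtain ⟨e, y, hy, h⟩ := exists_period (p := p)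
  intro h0
  have h1 := h σ
  rw [h0, zero_mul] at h1
  exact mul_ne_zero (zpow_ne_zero e (chiC_ne_zero σ)) hy h1.symm

/-- The core of the argument for `B_dR`. -/
theorem core_dR (H : Subgroup (GP p)) [H.FiniteIndex] (a : GP p → ℚ_[p])
    (ha : ∀ σ ∈ H, (algebraMap ℚ_[p] ℂ_[p] (a σ)) ^ 2 = chiC σ)
    (b : BdRp p) (hb : ∀ σ ∈ H, galB σ b = a σ • b) : b = 0 := by
  by_contra hb0
  obtain ⟨i, r, x, hx, hmain⟩ := exists_gr (kerT_eq (p := p)) (Xi_ne_zero (p := p))
    (b : Localization (genSub (kerT (PadicComplexInt p) p))) hb0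
  obtain ⟨e, y, hy, hper⟩ := exists_period (p := p)
  have hz : Th p x ≠ 0 := by
    intro h0
    exact hx ((Th_eq_zero_iff x).1 h0)
  have h1 : ∀ σ ∈ H, Th p (lam σ) ^ i * galC σ (Th p x) =
      algebraMap ℚ_[p] ℂ_[p] (a σ) * Th p (lam σ) ^ r * Th p x := by
    intro σ hσ
    have h2 := hmain (galA σ) (ker_map_eq (galO σ)) (lam σ) (qpToA (PadicComplexInt p) p (a σ))
      (lam_spec σ) (by
        rw [← galB_apply]
        exact hb σ hσ)
    have h3 := (Th_eq_zero_iff _).2 h2
    rw [map_sub, map_mul, map_mul, map_mul, map_pow, map_pow, Th_galA, Th_qpToA] at h3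
    exact sub_eq_zero.1 h3
  have h2 : Th p x * y ^ ((r : ℤ) - (i : ℤ)) = 0 := by
    refine core_HT (H := H) (e * ((r : ℤ) - (i : ℤ))) _ (fun σ => algebraMap ℚ_[p] ℂ_[p] (a σ)) ha ?_
    intro σ hσ
    have hL := Th_lam_ne_zero σ
    have h3 := h1 σ hσ
    have h4 : galC σ (Th p x) = algebraMap ℚ_[p] ℂ_[p] (a σ) *
        Th p (lam σ) ^ ((r : ℤ) - (i : ℤ)) * Th p x := by
      rw [zpow_sub₀ hL, zpow_natCast, zpow_natCast]
      field_simp
      rw [mul_comm, h3]
    have h5 : galC σ y = chiC σ ^ e * y / Th p (lam σ) := by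
      rw [← hper σ]
      field_simp
    rw [map_mul, map_zpow₀, h4, h5, div_zpow, mul_zpow, ← zpow_mul]
    have h6 : Th p (lam σ) ^ ((r : ℤ) - (i : ℤ)) ≠ 0 := zpow_ne_zero _ hL
    field_simp
  rcases mul_eq_zero.1 h2 with h | h
  · exact hz h
  · exact zpow_ne_zero _ hy h

end core

section main

variable {F : Type*} [Field F] [NumberField F] {l : ℕ} [hl : Fact l.Prime] {n : ℕ}

/-- The space `D_dR(V) = (V ⊗ B_dR)^{G_{F_v}}` (the tensor product is over `ℚ_l`), where `V` is the
space of `ρ` and `v` is the place of `F` above `l` defined by the embedding `ι`. -/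
noncomputable def dR (ρ : Gal(AlgebraicClosure F/F) →* GL (Fin n) (PadicAlgCl l))
    (ι : AlgebraicClosure F →+* PadicAlgCl l) :
    Submodule (PadicAlgCl l) (Fin n → PadicAlgCl l ⊗[ℚ_[l]] BdRp l) :=
  invariants ρ ι galB

/-- The space `D_dR(V)` is zero. -/
def DRVanishes (ρ : Gal(AlgebraicClosure F/F) →* GL (Fin n) (PadicAlgCl l))
    (ι : AlgebraicClosure F →+* PadicAlgCl l) : Prop :=
  dR ρ ι = ⊥

/-- The completion `F_v` of `F` at the place `v` above `l` defined by the embedding `ι`. -/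
noncomputable def completionAt (ι : AlgebraicClosure F →+* PadicAlgCl l) :
    IntermediateField ℚ_[l] (PadicAlgCl l) :=
  IntermediateField.adjoin ℚ_[l] (Set.range fun a : F => ι (algebraMap F (AlgebraicClosure F) a))

/-- `ρ` is de Rham at the place `v` of `F` above `l` defined by the embedding `ι`: the dimension of
`D_dR(V)` is `n [F_v : ℚ_l]`. -/
def IsDeRhamAt (ρ : Gal(AlgebraicClosure F/F) →* GL (Fin n) (PadicAlgCl l))
    (ι : AlgebraicClosure F →+* PadicAlgCl l) : Prop :=
  Module.finrank (PadicAlgCl l) (dR ρ ι) = n * Module.finrank ℚ_[l] (completionAt ι)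

theorem finite_completionAt (ι : AlgebraicClosure F →+* PadicAlgCl l) :
    FiniteDimensional ℚ_[l] (completionAt ι) := by
  obtain ⟨θ, hθ⟩ := Field.exists_primitive_element ℚ F
  set j : F →+* PadicAlgCl l := ι.comp (algebraMap F (AlgebraicClosure F)) with hj
  have hle : completionAt ι ≤ IntermediateField.adjoin ℚ_[l] {j θ} := by
    unfold completionAt
    rw [IntermediateField.adjoin_le_iff]
    rintro _ ⟨a, rfl⟩
    have ha : a ∈ IntermediateField.adjoin ℚ {θ} := by rw [hθ]; trivial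
    rw [IntermediateField.mem_adjoin_simple_iff] at ha
    obtain ⟨r, s, rfl⟩ := ha
    have h2 : ∀ q : ℚ[X], j (aeval θ q) ∈ IntermediateField.adjoin ℚ_[l] {j θ} := by
      intro q
      have h3 : j (aeval θ q) = aeval (j θ) (q.map (algebraMap ℚ ℚ_[l])) := by
        rw [aeval_map_algebraMap]
        have h4 : j (aeval θ q) = (RingHom.toRatAlgHom j) (aeval θ q) := rfl
        rw [h4, ← aeval_algHom_apply]
        rfl
      rw [h3]
      exact IntermediateField.algebra_adjoin_le_adjoin _ _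
        (aeval_mem_adjoin_singleton _ _)
    show j (aeval θ r / aeval θ s) ∈ _
    rw [map_div₀]
    exact div_mem (h2 r) (h2 s)
  have hint : IsIntegral ℚ_[l] (j θ) := Algebra.IsIntegral.isIntegral _
  have hfin : FiniteDimensional ℚ_[l] (IntermediateField.adjoin ℚ_[l] {j θ}) :=
    IntermediateField.adjoin.finiteDimensional hint
  exact Submodule.finiteDimensional_of_le (S₁ := (completionAt ι).toSubalgebra.toSubmodule)
    (S₂ := (IntermediateField.adjoin ℚ_[l] {j θ}).toSubalgebra.toSubmodule) hle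

variable {ψ : ℤ_[l]ˣ →* (PadicAlgCl l)ˣ}

theorem halfChar_dR (hψ : ∀ u : Ub l, ψ u = Units.map (emb l).toMonoidHom (rt u))
    (ι : AlgebraicClosure F →+* PadicAlgCl l) : dR (scalarRep (halfChar F ψ)) ι = ⊥ := by
  rw [eq_bot_iff]
  intro x hx
  rw [Submodule.mem_bot]
  refine eq_zero_of_invariant (fun σ => galB σ) ?_ hψ ι x hx
  intro w hw
  classical
  refine core_dR (Hsub F l) (fun σ => if hσ : σ ∈ Hsub F l then
      ((((rt ⟨chi σ, Hsub_chi hσ⟩) : ℤ_[l]ˣ) : ℤ_[l]) : ℚ_[l]) else 0) ?_ w ?_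
  · intro σ hσ
    simp only [hσ, dif_pos]
    rw [← map_pow]
    unfold chiC
    congr 1
    have h1 := rt_sq ⟨chi σ, Hsub_chi hσ⟩
    have h2 := congrArg (fun z : ℤ_[l]ˣ => ((z : ℤ_[l]) : ℚ_[l])) h1
    simpa using h2
  · intro σ hσ
    simp only [hσ, dif_pos]
    exact hw σ hσ

theorem halfChar_not_deRham (hψ : ∀ u : Ub l, ψ u = Units.map (emb l).toMonoidHom (rt u))
    (ι : AlgebraicClosure F →+* PadicAlgCl l) : ¬ IsDeRhamAt (scalarRep (halfChar F ψ)) ι := by
  have := finite_completionAt ι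
  unfold IsDeRhamAt
  rw [halfChar_dR hψ ι, finrank_bot, one_mul]
  exact (Module.finrank_pos (R := ℚ_[l]) (M := completionAt ι)).ne

end main

end Pool.Agent.TH831
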