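import Pool.Agent.TH831.Tilt

/-!
# The Galois action on a generator of the kernel of `θ`
-/

set_option autoImplicit false

open Filter Topology WittVector

namespace Pool.Agent.TH831

section lam

variable {p : ℕ} [hp : Fact p.Prime]

theorem exists_om (η : Fl p) (h : sq η 0 = 1) : ∃ ω : Ainf p, teichmuller p η - 1 = xi p * ω := by
  apply ker_theta
  rw [map_sub, th_teich, h, map_one, sub_self]

open Classical in
/-- the quotient `([η] - 1) / ξ` -/
noncomputable def om (η : Fl p) : Ainf p :=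
  if h : sq η 0 = 1 then (exists_om η h).choose else 0

theorem om_spec {η : Fl p} (h : sq η 0 = 1) : teichmuller p η - 1 = xi p * om η := by
  unfold om
  rw [dif_pos h]
  exact (exists_om η h).choose_spec

theorem om_unique {η : Fl p} (h : sq η 0 = 1) {ω : Ainf p}
    (hω : teichmuller p η - 1 = xi p * ω) : om η = ω := by
  rw [om_spec h] at hω
  exact mul_left_cancel₀ xi_ne_zero hω

/-- the additive function `η ↦ θ(([η] - 1) / ξ)` -/
noncomputable def ell (η : Fl p) : PadicComplexInt p := th p (om η)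

theorem sq_mul_one {η η' : Fl p} (h : sq η 0 = 1) (h' : sq η' 0 = 1) : sq (η * η') 0 = 1 := by
  rw [sq_mul, h, h', mul_one]

theorem ell_mul {η η' : Fl p} (h : sq η 0 = 1) (h' : sq η' 0 = 1) :
    ell (η * η') = ell η + ell η' := by
  have h1 : om (η * η') = xi p * (om η * om η') + om η + om η' := by
    apply om_unique (sq_mul_one h h')
    have h2 : teichmuller p (η * η') - 1 = (teichmuller p η - 1) * (teichmuller p η' - 1) +
        (teichmuller p η - 1) + (teichmuller p η' - 1) := by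
      rw [map_mul]
      ring
    rw [h2, om_spec h, om_spec h']
    ring
  unfold ell
  rw [h1, map_add, map_add, map_mul, th_xi, zero_mul, zero_add]

theorem ell_one : ell (1 : Fl p) = 0 := by
  have h := ell_mul (η := (1 : Fl p)) (η' := 1) (sq_one 0) (sq_one 0)
  rw [mul_one] at h
  exact (left_eq_add.1 h)

theorem sq_pow_one {η : Fl p} (h : sq η 0 = 1) (n : ℕ) : sq (η ^ n) 0 = 1 := by
  induction n with
  | zero => rw [pow_zero]; exact sq_one 0
  | succ n ih => rw [pow_succ]; exact sq_mul_one ih h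

theorem ell_pow {η : Fl p} (h : sq η 0 = 1) (n : ℕ) :
    ell (η ^ n) = (n : PadicComplexInt p) * ell η := by
  induction n with
  | zero => rw [pow_zero, ell_one, Nat.cast_zero, zero_mul]
  | succ n ih => rw [pow_succ, ell_mul (sq_pow_one h n) h, ih]; push_cast; ring

/-- the automorphism of the tilt attached to `σ` -/
noncomputable def galF (σ : GP p) : Fl p →+* Fl p :=
  tiltMap (galO σ : PadicComplexInt p →+* PadicComplexInt p)

/-- the automorphism of `A_inf` attached to `σ` -/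
noncomputable def galW (σ : GP p) : Ainf p →+* Ainf p :=
  wittMap (galO σ : PadicComplexInt p →+* PadicComplexInt p)

theorem sq_galF (σ : GP p) (x : Fl p) (n : ℕ) : sq (galF σ x) n = galO σ (sq x n) :=
  sq_tiltMap _ _ _

theorem galW_teich (σ : GP p) (x : Fl p) : galW σ (teichmuller p x) = teichmuller p (galF σ x) := by
  unfold galW wittMap
  rw [map_teichmuller]
  rfl

theorem th_galW (σ : GP p) (a : Ainf p) : th p (galW σ a) = galO σ (th p a) :=
  theta_wittMap _ _

theorem galF_one {σ : GP p} {η : Fl p} (h : sq η 0 = 1) : sq (galF σ η) 0 = 1 := by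
  rw [sq_galF, h, map_one]

theorem exists_eta (σ : GP p) : ∃ η : Fl p, sq η 0 = 1 ∧ galF σ (pifl p) = pifl p * η := by
  have h1 : sq (galF σ (pifl p)) 0 = ((p : ℕ) : PadicComplexInt p) := by
    rw [sq_galF, sq_pifl, map_natCast]
  obtain ⟨η, hη⟩ := dvd_of_norm_le (x := galF σ (pifl p)) (w := pifl p) pifl_ne_zero
    (by rw [h1, sq_pifl])
  refine ⟨η, ?_, hη⟩
  rw [hη, sq_mul, sq_pifl] at h1
  exact mul_left_cancel₀ (p_ne_zero_OC (p := p)) (by rw [h1, mul_one])

/-- the quotient `σ(ϖ) / ϖ` -/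
noncomputable def eta (σ : GP p) : Fl p := (exists_eta σ).choose

theorem eta_one (σ : GP p) : sq (eta σ) 0 = 1 := (exists_eta σ).choose_spec.1

theorem eta_spec (σ : GP p) : galF σ (pifl p) = pifl p * eta σ := (exists_eta σ).choose_spec.2

/-- the quotient `σ(ξ) / ξ` -/
noncomputable def Lw (σ : GP p) : Ainf p := teichmuller p (eta σ) + (p : Ainf p) * om (eta σ)

theorem Lw_spec (σ : GP p) : galW σ (xi p) = Lw σ * xi p := by
  have h := om_spec (eta_one σ)
  have h2 : galW σ (xi p) = teichmuller p (pifl p) * teichmuller p (eta σ) - (p : Ainf p) := by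
    unfold xi
    rw [map_sub, galW_teich, eta_spec, map_mul, map_natCast]
  rw [h2]
  have h3 : teichmuller p (pifl p) = xi p + (p : Ainf p) := by
    unfold xi
    ring
  unfold Lw
  have h4 : teichmuller p (eta σ) = 1 + xi p * om (eta σ) := by
    rw [← h]
    ring
  rw [h3, h4]
  ring

theorem th_Lw (σ : GP p) : th p (Lw σ) = 1 + ((p : ℕ) : PadicComplexInt p) * ell (eta σ) := by
  unfold Lw ell
  rw [map_add, map_mul, th_teich, eta_one, map_natCast]

theorem ell_galF {σ : GP p} {η : Fl p} (h : sq η 0 = 1) :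
    ell (galF σ η) = th p (Lw σ) * galO σ (ell η) := by
  have h1 : om (galF σ η) = Lw σ * galW σ (om η) := by
    apply om_unique (galF_one h)
    have h2 := congrArg (galW σ) (om_spec h)
    rw [map_sub, map_one, map_mul, galW_teich, Lw_spec] at h2
    rw [h2]
    ring
  unfold ell
  rw [h1, map_mul, th_galW]

/-- roots of unity of `ℂ_p` are algebraic -/
theorem exists_alg {n : ℕ} {z : ℂ_[p]} (hz : z ^ p ^ n = 1) :
    ∃ t : PadicAlgCl p, (t : ℂ_[p]) = z ∧ t ^ p ^ n = 1 := by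
  obtain ⟨ζ, hζ⟩ := HasEnoughRootsOfUnity.exists_primitiveRoot (PadicAlgCl p) (p ^ n)
  have : NeZero (p ^ n) := ⟨pow_ne_zero _ hp.out.ne_zero⟩
  have h1 : IsPrimitiveRoot ((ζ : PadicAlgCl p) : ℂ_[p]) (p ^ n) :=
    hζ.map_of_injective (f := (algebraMap (PadicAlgCl p) ℂ_[p]))
      (algebraMap (PadicAlgCl p) ℂ_[p]).injective
  obtain ⟨i, -, hi⟩ := h1.eq_pow_of_pow_eq_one hz
  refine ⟨ζ ^ i, ?_, ?_⟩
  · rw [← hi]
    exact map_pow (algebraMap (PadicAlgCl p) ℂ_[p]) ζ i
  · rw [← pow_mul, mul_comm, pow_mul, hζ.pow_eq_one, one_pow]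

theorem galC_root (σ : GP p) {n : ℕ} {z : ℂ_[p]} (hz : z ^ p ^ n = 1) :
    galC σ z = z ^ (PadicInt.toZModPow n ((chi σ : ℤ_[p]ˣ) : ℤ_[p])).val := by
  obtain ⟨t, rfl, ht⟩ := exists_alg hz
  rw [galC_coe, chi_spec σ ht]
  exact map_pow (algebraMap (PadicAlgCl p) ℂ_[p]) t _

theorem norm_sub_val (x : ℤ_[p]) (n : ℕ) :
    ‖x - (((PadicInt.toZModPow n x).val : ℕ) : ℤ_[p])‖ ≤ ((p : ℝ)⁻¹) ^ n := by
  have : NeZero (p ^ n) := ⟨pow_ne_zero _ hp.out.ne_zero⟩
  have h1 : x - (((PadicInt.toZModPow n x).val : ℕ) : ℤ_[p]) ∈ Ideal.span {((p : ℤ_[p]) ^ n)} := by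
    rw [← PadicInt.ker_toZModPow, RingHom.mem_ker, map_sub, map_natCast, ZMod.natCast_zmod_val,
      sub_self]
  rw [← PadicInt.norm_le_pow_iff_mem_span_pow] at h1
  refine h1.trans (le_of_eq ?_)
  rw [zpow_neg, zpow_natCast, inv_pow]

theorem ell_galF_chi (σ : GP p) {η : Fl p} (h : sq η 0 = 1) :
    ((ell (galF σ η) : PadicComplexInt p) : ℂ_[p]) = chiC σ * (ell η : ℂ_[p]) := by
  have hroot : ∀ n, (sq η n) ^ p ^ n = 1 := by
    intro n
    have := sq_pow_pow η 0 n
    rwa [zero_add, h] at this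
  have key : ∀ n : ℕ, ‖((ell (galF σ η) : PadicComplexInt p) : ℂ_[p]) - chiC σ * (ell η : ℂ_[p])‖ ≤
      ((p : ℝ)⁻¹) ^ n := by
    intro n
    set c : ℕ := (PadicInt.toZModPow n ((chi σ : ℤ_[p]ˣ) : ℤ_[p])).val with hc
    have hη0 : η ^ c ≠ 0 := by
      intro h0
      have h1 := sq_pow_one h c
      rw [h0, sq_zero] at h1
      exact zero_ne_one h1
    obtain ⟨δ, hδ⟩ := dvd_of_norm_le (x := galF σ η) (w := η ^ c) hη0 (by
      rw [galF_one h, sq_pow_one h])
    have hpow : ∀ (m k : ℕ), sq (η ^ k) m = sq η m ^ k := by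
      intro m k
      induction k with
      | zero => rw [pow_zero, pow_zero, sq_one]
      | succ k ih => rw [pow_succ, sq_mul, ih, pow_succ]
    have hδn : sq δ n = 1 := by
      have h1 : sq (galF σ η) n = sq (η ^ c) n := by
        rw [sq_galF, hpow]
        apply Subtype.ext
        rw [galO_coe, coe_pow_OC]
        apply galC_root
        rw [← coe_pow_OC, hroot]
        rfl
      rw [hδ, sq_mul] at h1
      exact mul_left_cancel₀ (sq_ne_zero hη0 n) (by rw [h1, mul_one])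
    obtain ⟨μ, hμ⟩ := exists_sq (fun m => sq δ (n + m)) (fun m => by
      show sq δ (n + (m + 1)) ^ p = sq δ (n + m)
      rw [← add_assoc, sq_pow])
    have hμ0 : sq μ 0 = 1 := by rw [hμ]; exact hδn
    have hμp : μ ^ p ^ n = δ := by
      apply sq_ext
      intro m
      have hpow' : ∀ k : ℕ, sq (μ ^ k) m = sq μ m ^ k := by
        intro k
        induction k with
        | zero => rw [pow_zero, pow_zero, sq_one]
        | succ k ih => rw [pow_succ, sq_mul, ih, pow_succ]
      rw [hpow', hμ, add_comm n m, sq_pow_pow]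
    have h2 : ell (galF σ η) = (c : PadicComplexInt p) * ell η +
        ((p ^ n : ℕ) : PadicComplexInt p) * ell μ := by
      rw [hδ, ← hμp, ell_mul (sq_pow_one h c) (sq_pow_one hμ0 _), ell_pow h, ell_pow hμ0]
    have h3 : ((ell (galF σ η) : PadicComplexInt p) : ℂ_[p]) =
        (c : ℂ_[p]) * (ell η : ℂ_[p]) + (p : ℂ_[p]) ^ n * (ell μ : ℂ_[p]) := by
      rw [h2]
      show incl p ((c : PadicComplexInt p) * ell η + ((p ^ n : ℕ) : PadicComplexInt p) * ell μ) = _
      rw [map_add, map_mul, map_mul, map_natCast, map_natCast]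
      push_cast
      rfl
    have h4 : ((ell (galF σ η) : PadicComplexInt p) : ℂ_[p]) - chiC σ * (ell η : ℂ_[p]) =
        (p : ℂ_[p]) ^ n * (ell μ : ℂ_[p]) - (chiC σ - (c : ℂ_[p])) * (ell η : ℂ_[p]) := by
      rw [h3]
      ring
    have h5 : ‖chiC σ - (c : ℂ_[p])‖ ≤ ((p : ℝ)⁻¹) ^ n := by
      have h6 : chiC σ - (c : ℂ_[p]) = algebraMap ℚ_[p] ℂ_[p]
          ((((chi σ : ℤ_[p]ˣ) : ℤ_[p]) - (c : ℤ_[p]) : ℤ_[p]) : ℚ_[p]) := by
        show ((algebraMap ℚ_[p] ℂ_[p]).comp PadicInt.Coe.ringHom) ((chi σ : ℤ_[p]ˣ) : ℤ_[p]) -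
          (c : ℂ_[p]) = ((algebraMap ℚ_[p] ℂ_[p]).comp PadicInt.Coe.ringHom)
            (((chi σ : ℤ_[p]ˣ) : ℤ_[p]) - (c : ℤ_[p]))
        rw [map_sub, map_natCast]
      rw [h6, norm_algebraMap']
      exact norm_sub_val _ n
    rw [h4]
    refine (norm_sub_le_max' _ _).trans (max_le ?_ ?_)
    · rw [norm_mul, norm_pow, norm_p_C]
      exact mul_le_of_le_one_right (by positivity) (norm_OC _)
    · rw [norm_mul]
      calc _ ≤ ((p : ℝ)⁻¹) ^ n * 1 := mul_le_mul h5 (norm_OC _) (norm_nonneg _) (by positivity)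
        _ = _ := mul_one _
  have h6 : ‖((ell (galF σ η) : PadicComplexInt p) : ℂ_[p]) - chiC σ * (ell η : ℂ_[p])‖ ≤ 0 :=
    ge_of_tendsto' tendsto_pinv key
  exact sub_eq_zero.1 (norm_le_zero_iff.1 h6)

/-- the quotient `σ(ξ) / ξ` in `A_inf[1/p]` -/
noncomputable def lam (σ : GP p) : AinfP (PadicComplexInt p) p :=
  algebraMap (Ainf p) (AinfP (PadicComplexInt p) p) (Lw σ)

theorem lam_spec (σ : GP p) : galA σ (Xi p) = lam σ * Xi p := by
  unfold lam Xi galA
  rw [ainfMap_algebraMap, ← map_mul, ← Lw_spec]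
  rfl

theorem Th_lam (σ : GP p) : Th p (lam σ) = (th p (Lw σ) : ℂ_[p]) := by
  unfold lam
  rw [Th_algebraMap]

/-- The kernel of `θ` modulo its square is a power of the cyclotomic character. -/
theorem exists_period : ∃ (e : ℤ) (y : ℂ_[p]), y ≠ 0 ∧
    ∀ σ : GP p, Th p (lam σ) * galC σ y = chiC σ ^ e * y := by
  by_cases h : ∃ η : Fl p, sq η 0 = 1 ∧ ell η ≠ 0
  · obtain ⟨η, hη, hne⟩ := h
    refine ⟨1, (ell η : ℂ_[p]), fun h0 => hne (Subtype.ext h0), fun σ => ?_⟩
    rw [zpow_one, ← ell_galF_chi σ hη, ell_galF hη, Th_lam]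
    rfl
  · push Not at h
    refine ⟨0, 1, one_ne_zero, fun σ => ?_⟩
    rw [zpow_zero, map_one, mul_one, mul_one, Th_lam, th_Lw, h _ (eta_one σ), mul_zero, add_zero]
    rfl

end lam

end Pool.Agent.TH831
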