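import Pool.Agent.TH831.Char

/-!
# The decomposition groups above `l`
-/

set_option autoImplicit false

open Polynomial NumberField TensorProduct

namespace Pool.Agent.TH831

section decomp

variable {F : Type*} [Field F] [NumberField F] {l : ℕ} [hl : Fact l.Prime]

/-- the action of the Galois group on the embeddings of `F` -/
noncomputable def permHom (F : Type*) [Field F] (l : ℕ) [Fact l.Prime] :
    GP l →* Equiv.Perm (F →+* PadicAlgCl l) where
  toFun σ :=
    { toFun := fun f => (σ : PadicAlgCl l →+* PadicAlgCl l).comp f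
      invFun := fun f => ((σ⁻¹ : GP l) : PadicAlgCl l →+* PadicAlgCl l).comp f
      left_inv := fun f => by
        ext x
        exact σ.symm_apply_apply (f x)
      right_inv := fun f => by
        ext x
        exact σ.apply_symm_apply (f x) }
  map_one' := by
    ext f x
    rfl
  map_mul' σ τ := by
    ext f x
    rfl

/-- reduction of the cyclotomic character modulo `l ^ 3` -/
noncomputable def chiMod (l : ℕ) [Fact l.Prime] : GP l →* (ZMod (l ^ 3))ˣ :=
  (Units.map (PadicInt.toZModPow (p := l) 3).toMonoidHom).comp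
    { toFun := chi
      map_one' := map_one (cyclotomicCharacter (PadicAlgCl l) l)
      map_mul' := chi_mul }

/-- an open subgroup of the decomposition group -/
noncomputable def Hsub (F : Type*) [Field F] (l : ℕ) [Fact l.Prime] : Subgroup (GP l) :=
  (permHom F l).ker ⊓ (chiMod l).ker

instance finite_ringHom : Finite (F →+* PadicAlgCl l) :=
  Finite.of_equiv (F →ₐ[ℚ] PadicAlgCl l) (RingHom.equivRatAlgHom (R := F) (S := PadicAlgCl l)).symm

instance : (Hsub F l).FiniteIndex := by
  have h3 : NeZero (l ^ 3) := ⟨pow_ne_zero _ hl.out.ne_zero⟩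
  have h1 : (permHom F l).ker.FiniteIndex := Subgroup.finiteIndex_ker _
  have h2 : (chiMod l).ker.FiniteIndex := Subgroup.finiteIndex_ker _
  unfold Hsub
  infer_instance

theorem mem_Ub_of_mod {u : ℤ_[l]ˣ} (h : Units.map (PadicInt.toZModPow (p := l) 3).toMonoidHom u = 1) :
    u ∈ Ub l := by
  rw [mem_Ub]
  have h2 : PadicInt.toZModPow (p := l) 3 ((u : ℤ_[l]) - 1) = 0 := by
    rw [map_sub, map_one, sub_eq_zero]
    exact congrArg (fun x : (ZMod (l ^ 3))ˣ => (x : ZMod (l ^ 3))) h
  have h3 : (u : ℤ_[l]) - 1 ∈ Ideal.span {((l : ℤ_[l]) ^ 3)} := by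
    rw [← PadicInt.ker_toZModPow, RingHom.mem_ker]
    exact h2
  rw [← PadicInt.norm_le_pow_iff_mem_span_pow] at h3
  refine h3.trans_lt ?_
  have hp1 : (1 : ℝ) < l := by exact_mod_cast hl.out.one_lt
  have hp0 : (0 : ℝ) < l := by linarith
  have h4 : (l : ℝ)⁻¹ ^ 2 ≤ ‖(2 : ℤ_[l])‖ ^ 2 := pow_le_pow_left₀ (inv_nonneg.2 hp0.le) norm_two_ge 2
  refine lt_of_lt_of_le ?_ h4
  have h5 : (l : ℝ) ^ (-((3 : ℕ) : ℤ)) = (l : ℝ)⁻¹ ^ 3 := by
    rw [zpow_neg, zpow_natCast, inv_pow]
  rw [h5]
  exact pow_lt_pow_right_of_lt_one₀ (inv_pos.2 hp0) (inv_lt_one_of_one_lt₀ hp1) (by norm_num)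

omit [NumberField F] in
theorem Hsub_chi {σ : GP l} (h : σ ∈ Hsub F l) : chi σ ∈ Ub l :=
  mem_Ub_of_mod (MonoidHom.mem_ker.1 h.2)

omit [NumberField F] in
theorem Hsub_fix {σ : GP l} (h : σ ∈ Hsub F l) (f : F →+* PadicAlgCl l) (a : F) :
    σ (f a) = f a := by
  have h1 : permHom F l σ = 1 := h.1
  have h2 := congrArg (fun e : Equiv.Perm (F →+* PadicAlgCl l) => e f a) h1
  exact h2

omit [NumberField F] in
theorem exists_compat (ι : AlgebraicClosure F →+* PadicAlgCl l) (σ : GP l)
    (h : ∀ a : F, σ (ι (algebraMap F _ a)) = ι (algebraMap F _ a)) :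
    ∃ τ : Gal(AlgebraicClosure F/F), Compat ι σ τ := by
  let _ : Algebra (AlgebraicClosure F) (PadicAlgCl l) := ι.toAlgebra
  let _ : Algebra F (PadicAlgCl l) := (ι.comp (algebraMap F (AlgebraicClosure F))).toAlgebra
  have : IsScalarTower F (AlgebraicClosure F) (PadicAlgCl l) := IsScalarTower.of_algebraMap_eq' rfl
  let σ' : PadicAlgCl l ≃ₐ[F] PadicAlgCl l := AlgEquiv.ofRingEquiv (f := σ.toRingEquiv) h
  refine ⟨σ'.restrictNormal (AlgebraicClosure F), fun x => ?_⟩
  exact AlgEquiv.restrictNormal_commutes σ' (AlgebraicClosure F) x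

end decomp

section tens

variable {K E W I : Type*} [Field K] [Field E] [Algebra K E] [AddCommGroup W] [Module K W]

/-- contraction of the first factor -/
noncomputable def contr (f : E →ₗ[K] K) : E ⊗[K] W →ₗ[K] W :=
  (TensorProduct.lid K W).toLinearMap ∘ₗ f.rTensor W

theorem contr_tmul (f : E →ₗ[K] K) (e : E) (w : W) : contr f (e ⊗ₜ[K] w) = f e • w := by
  simp [contr]

theorem contr_lTensor (f : E →ₗ[K] K) (T : W →ₗ[K] W) (x : E ⊗[K] W) :
    contr f (T.lTensor E x) = T (contr f x) := by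
  induction x using TensorProduct.induction_on with
  | zero => simp
  | tmul e w => rw [LinearMap.lTensor_tmul, contr_tmul, contr_tmul, map_smul]
  | add a b ha hb => rw [map_add, map_add, map_add, map_add, ha, hb]

theorem eq_zero_of_contr (x : E ⊗[K] W) (h : ∀ f : E →ₗ[K] K, contr f x = 0) : x = 0 := by
  classical
  let b := Module.Basis.ofVectorSpace K E
  apply (TensorProduct.equivFinsuppOfBasisLeft (N := W) b).injective
  rw [map_zero]
  ext i
  rw [Finsupp.zero_apply, ← h (b.coord i)]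
  clear h
  induction x using TensorProduct.induction_on with
  | zero => simp
  | tmul e w => rw [contr_tmul, TensorProduct.equivFinsuppOfBasisLeft_apply_tmul_apply]; rfl
  | add x y hx hy => rw [map_add, Finsupp.add_apply, hx, hy, map_add]

/-- Descent of eigenvectors from `E ⊗ W` to `W`. -/
theorem tensor_eq_zero (T : I → W →ₗ[K] W) (c : I → K)
    (h : ∀ w : W, (∀ i, T i w = c i • w) → w = 0) (x : E ⊗[K] W)
    (hx : ∀ i, (T i).lTensor E x = c i • x) : x = 0 := by
  apply eq_zero_of_contr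
  intro f
  apply h
  intro i
  rw [← contr_lTensor, hx i, map_smul]

end tens

end Pool.Agent.TH831
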