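import Pool.Agent.TH831.BdR
import Pool.Agent.TH831.TateInt

/-!
# The ring of integers of `ℂ_p`
-/

set_option autoImplicit false

open Filter Topology WittVector

namespace Pool.Agent.TH831

section oc

variable {p : ℕ} [hp : Fact p.Prime]

theorem mem_OC (x : ℂ_[p]) : x ∈ PadicComplexInt p ↔ ‖x‖ ≤ 1 := by
  rw [PadicComplex.norm_eq_norm]
  show Valued.v x ≤ 1 ↔ _
  exact (Valued.toNormedField.norm_le_one_iff (L := ℂ_[p]) (Γ₀ := NNReal)).symm

theorem norm_OC (x : PadicComplexInt p) : ‖(x : ℂ_[p])‖ ≤ 1 := (mem_OC _).1 x.2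

theorem coe_mul_OC (a b : PadicComplexInt p) :
    ((a * b : PadicComplexInt p) : ℂ_[p]) = (a : ℂ_[p]) * (b : ℂ_[p]) := rfl

theorem coe_pow_OC (a : PadicComplexInt p) (n : ℕ) :
    ((a ^ n : PadicComplexInt p) : ℂ_[p]) = (a : ℂ_[p]) ^ n :=
  map_pow (PadicComplexInt p).subtype a n

theorem dvd_OC {a b : PadicComplexInt p} (ha : a ≠ 0) :
    a ∣ b ↔ ‖(b : ℂ_[p])‖ ≤ ‖(a : ℂ_[p])‖ := by
  constructor
  · rintro ⟨c, rfl⟩
    rw [coe_mul_OC, norm_mul]
    exact mul_le_of_le_one_right (norm_nonneg _) (norm_OC c)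
  · intro h
    have ha' : (a : ℂ_[p]) ≠ 0 := fun h0 => ha (Subtype.ext h0)
    have h1 : ‖(b : ℂ_[p]) / (a : ℂ_[p])‖ ≤ 1 := by
      rw [norm_div]
      exact div_le_one_of_le₀ h (norm_nonneg _)
    refine ⟨⟨(b : ℂ_[p]) / (a : ℂ_[p]), (mem_OC _).2 h1⟩, ?_⟩
    apply Subtype.ext
    rw [coe_mul_OC]
    field_simp

theorem norm_p_C : ‖(p : ℂ_[p])‖ = (p : ℝ)⁻¹ := by
  have h : (p : ℂ_[p]) = algebraMap ℚ_[p] ℂ_[p] (p : ℚ_[p]) := by rw [map_natCast]
  rw [h, norm_algebraMap', Padic.norm_p]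

theorem p_ne_zero_OC : ((p : ℕ) : PadicComplexInt p) ≠ 0 := by
  intro h
  have h1 : ((p : ℕ) : ℂ_[p]) = 0 := by
    have := congrArg (fun x : PadicComplexInt p => (x : ℂ_[p])) h
    simpa using this
  exact hp.out.ne_zero (by exact_mod_cast h1)

theorem coe_p_OC : ((((p : ℕ) : PadicComplexInt p)) : ℂ_[p]) = (p : ℂ_[p]) := by
  simp

instance instFactOC : Fact ¬IsUnit ((p : ℕ) : PadicComplexInt p) := by
  refine ⟨fun h => ?_⟩
  have h1 := (dvd_OC (p_ne_zero_OC (p := p)) (b := 1)).1 h.dvd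
  rw [coe_p_OC, norm_p_C] at h1
  have h2 : ‖((1 : PadicComplexInt p) : ℂ_[p])‖ = 1 := by simp
  rw [h2] at h1
  have hp1 : (1 : ℝ) < p := by exact_mod_cast hp.out.one_lt
  exact absurd h1 (not_le.2 (inv_lt_one_of_one_lt₀ hp1))

theorem mem_span_p_pow (n : ℕ) (x : PadicComplexInt p) :
    x ∈ Ideal.span {((p : ℕ) : PadicComplexInt p)} ^ n ↔ ‖(x : ℂ_[p])‖ ≤ ((p : ℝ)⁻¹) ^ n := by
  rw [Ideal.span_singleton_pow, Ideal.mem_span_singleton,
    dvd_OC (pow_ne_zero n p_ne_zero_OC)]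
  have h : ‖((((p : ℕ) : PadicComplexInt p) ^ n : PadicComplexInt p) : ℂ_[p])‖ = ((p : ℝ)⁻¹) ^ n := by
    rw [coe_pow_OC, coe_p_OC, norm_pow, norm_p_C]
  rw [h]

theorem smodEq_OC (n : ℕ) (x y : PadicComplexInt p) :
    x ≡ y [SMOD (Ideal.span {((p : ℕ) : PadicComplexInt p)} ^ n • ⊤ : Ideal (PadicComplexInt p))] ↔
      ‖(x : ℂ_[p]) - (y : ℂ_[p])‖ ≤ ((p : ℝ)⁻¹) ^ n := by
  rw [SModEq.sub_mem, smul_eq_mul, Ideal.mul_top, mem_span_p_pow]
  rfl

theorem tendsto_pinv : Tendsto (fun n : ℕ => ((p : ℝ)⁻¹) ^ n) atTop (𝓝 0) := by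
  have hp1 : (1 : ℝ) < p := by exact_mod_cast hp.out.one_lt
  exact tendsto_pow_atTop_nhds_zero_of_lt_one (by positivity) (inv_lt_one_of_one_lt₀ hp1)

instance instCompleteOC : IsAdicComplete (Ideal.span {((p : ℕ) : PadicComplexInt p)})
    (PadicComplexInt p) where
  haus' x h := by
    have h1 : ∀ n : ℕ, ‖(x : ℂ_[p])‖ ≤ ((p : ℝ)⁻¹) ^ n := by
      intro n
      have h2 := (smodEq_OC n x 0).1 (h n)
      have h3 : ((0 : PadicComplexInt p) : ℂ_[p]) = 0 := rfl
      rwa [h3, sub_zero] at h2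
    have h2 : ‖(x : ℂ_[p])‖ ≤ 0 := ge_of_tendsto' tendsto_pinv h1
    have h3 : (x : ℂ_[p]) = 0 := norm_le_zero_iff.1 h2
    exact Subtype.ext h3
  prec' f h := by
    have h1 : ∀ {m n : ℕ}, m ≤ n → ‖(f m : ℂ_[p]) - (f n : ℂ_[p])‖ ≤ ((p : ℝ)⁻¹) ^ m :=
      fun hmn => (smodEq_OC _ _ _).1 (h hmn)
    have hc : CauchySeq (fun n => (f n : ℂ_[p])) := by
      refine cauchySeq_of_le_tendsto_0 (fun n => ((p : ℝ)⁻¹) ^ n) ?_ tendsto_pinv
      intro n m N hn hm
      rw [dist_eq_norm]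
      have h2 : (f n : ℂ_[p]) - (f m : ℂ_[p]) = ((f N : ℂ_[p]) - (f m : ℂ_[p])) -
          ((f N : ℂ_[p]) - (f n : ℂ_[p])) := by ring
      rw [h2]
      exact (norm_sub_le_max' _ _).trans (max_le (h1 hm) (h1 hn))
    obtain ⟨L, hL⟩ := cauchySeq_tendsto_of_complete hc
    have hL1 : ‖L‖ ≤ 1 := le_of_tendsto' hL.norm fun n => norm_OC (f n)
    refine ⟨⟨L, (mem_OC _).2 hL1⟩, fun n => ?_⟩
    rw [smodEq_OC]
    have h3 : Tendsto (fun m => ‖(f n : ℂ_[p]) - (f m : ℂ_[p])‖) atTop (𝓝 ‖(f n : ℂ_[p]) - L‖) :=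
      (hL.const_sub _).norm
    exact le_of_tendsto h3 (eventually_atTop.2 ⟨n, fun m hm => h1 hm⟩)

theorem galC_mem (σ : GP p) (x : ℂ_[p]) (hx : x ∈ PadicComplexInt p) :
    galC σ x ∈ PadicComplexInt p := by
  rw [mem_OC, norm_galC]
  exact (mem_OC _).1 hx

theorem galC_inv_apply (σ : GP p) (x : ℂ_[p]) : galC σ⁻¹ (galC σ x) = x := by
  rw [← galC_mul, inv_mul_cancel]
  refine galC_ext (f := fun x => galC 1 x) (g := fun x => x) (galC_isometry _).continuous
    continuous_id (fun x => ?_) x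
  show galC 1 (x : ℂ_[p]) = x
  rw [galC_coe]
  rfl

theorem galC_apply_inv (σ : GP p) (x : ℂ_[p]) : galC σ (galC σ⁻¹ x) = x := by
  have h := galC_inv_apply σ⁻¹ x
  rwa [inv_inv] at h

/-- the action of an element of the Galois group on the ring of integers of `ℂ_p` -/
noncomputable def galR (σ : GP p) : PadicComplexInt p →+* PadicComplexInt p :=
  (galC σ : ℂ_[p] →+* ℂ_[p]).restrict (PadicComplexInt p) (PadicComplexInt p) (galC_mem σ)

theorem galR_coe (σ : GP p) (x : PadicComplexInt p) :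
    ((galR σ x : PadicComplexInt p) : ℂ_[p]) = galC σ (x : ℂ_[p]) := rfl

theorem galR_comp_inv (σ : GP p) : (galR σ).comp (galR σ⁻¹) = RingHom.id _ := by
  ext x
  exact galC_apply_inv σ _

theorem galR_inv_comp (σ : GP p) : (galR σ⁻¹).comp (galR σ) = RingHom.id _ := by
  ext x
  exact galC_inv_apply σ _

/-- the action of the Galois group on the ring of integers of `ℂ_p` -/
noncomputable def galO (σ : GP p) : PadicComplexInt p ≃+* PadicComplexInt p :=
  RingEquiv.ofRingHom (galR σ) (galR σ⁻¹) (galR_comp_inv σ) (galR_inv_comp σ)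

theorem galO_coe (σ : GP p) (x : PadicComplexInt p) :
    ((galO σ x : PadicComplexInt p) : ℂ_[p]) = galC σ (x : ℂ_[p]) := rfl

/-- inclusion -/
noncomputable def incl (p : ℕ) [Fact p.Prime] : PadicComplexInt p →+* ℂ_[p] :=
  (PadicComplexInt p).subtype

theorem incl_apply (x : PadicComplexInt p) : incl p x = (x : ℂ_[p]) := rfl

theorem isUnit_incl : IsUnit (incl p ((p : ℕ) : PadicComplexInt p)) := by
  rw [map_natCast, isUnit_iff_ne_zero]
  exact_mod_cast hp.out.ne_zero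

/-- `𝓞_{ℂ_p}[1/p] → ℂ_p` -/
noncomputable def inclP (p : ℕ) [Fact p.Prime] :
    Localization.Away ((p : ℕ) : PadicComplexInt p) →+* ℂ_[p] :=
  IsLocalization.Away.lift ((p : ℕ) : PadicComplexInt p) isUnit_incl

theorem inclP_algebraMap (x : PadicComplexInt p) :
    inclP p (algebraMap _ (Localization.Away ((p : ℕ) : PadicComplexInt p)) x) = (x : ℂ_[p]) :=
  IsLocalization.Away.lift_eq _ isUnit_incl x

theorem inclP_injective : Function.Injective (inclP p) := by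
  rw [injective_iff_map_eq_zero]
  intro z hz
  obtain ⟨⟨x, s⟩, hs⟩ := IsLocalization.surj (Submonoid.powers ((p : ℕ) : PadicComplexInt p)) z
  have h1 : z * algebraMap _ (Localization.Away ((p : ℕ) : PadicComplexInt p))
      (s : PadicComplexInt p) = algebraMap _ _ x := hs
  have h2 := congrArg (inclP p) h1
  rw [map_mul, hz, zero_mul, inclP_algebraMap] at h2
  have h3 : x = 0 := Subtype.ext h2.symm
  rw [h3, map_zero] at h1
  have h4 : IsUnit (algebraMap _ (Localization.Away ((p : ℕ) : PadicComplexInt p))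
      (s : PadicComplexInt p)) := IsLocalization.map_units _ s
  exact (h4.mul_left_eq_zero).1 h1

/-- `θ` as a map to `ℂ_p` -/
noncomputable def Th (p : ℕ) [Fact p.Prime] : AinfP (PadicComplexInt p) p →+* ℂ_[p] :=
  (inclP p).comp (fontaineThetaInvertP (PadicComplexInt p) p)

theorem Th_eq_zero_iff (x : AinfP (PadicComplexInt p) p) :
    Th p x = 0 ↔ x ∈ kerT (PadicComplexInt p) p := by
  rw [RingHom.mem_ker]
  unfold Th
  rw [RingHom.comp_apply, map_eq_zero_iff _ inclP_injective]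

theorem Th_algebraMap (x : WittVector p (PreTilt (PadicComplexInt p) p)) :
    Th p (algebraMap _ (AinfP (PadicComplexInt p) p) x) =
      (fontaineTheta (PadicComplexInt p) p x : ℂ_[p]) := by
  unfold Th
  rw [RingHom.comp_apply, thetaInvertP_algebraMap, inclP_algebraMap]

/-- the action on `A_inf[1/p]` -/
noncomputable def galA (σ : GP p) : AinfP (PadicComplexInt p) p →+* AinfP (PadicComplexInt p) p :=
  ainfMap (galO σ : PadicComplexInt p →+* PadicComplexInt p)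

theorem Th_galA (σ : GP p) (x : AinfP (PadicComplexInt p) p) :
    Th p (galA σ x) = galC σ (Th p x) := by
  have h : (Th p).comp (galA σ) = (galC σ : ℂ_[p] →+* ℂ_[p]).comp (Th p) := by
    apply IsLocalization.ringHom_ext
      (Submonoid.powers (p : WittVector p (PreTilt (PadicComplexInt p) p)))
    ext x
    simp only [RingHom.comp_apply]
    unfold galA
    rw [ainfMap_algebraMap, Th_algebraMap, Th_algebraMap, theta_wittMap]
    rfl
  exact congrArg (fun f => f x) h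

theorem theta_zpToW (x : ℤ_[p]) :
    ((fontaineTheta (PadicComplexInt p) p (zpToW (PadicComplexInt p) p x) : PadicComplexInt p) :
      ℂ_[p]) = algebraMap ℚ_[p] ℂ_[p] (x : ℚ_[p]) := by
  set f : ℤ_[p] →+* ℂ_[p] := (incl p).comp ((fontaineTheta (PadicComplexInt p) p).comp
    (zpToW (PadicComplexInt p) p)) with hf
  set g : ℤ_[p] →+* ℂ_[p] := (algebraMap ℚ_[p] ℂ_[p]).comp PadicInt.Coe.ringHom with hg
  have key : ∀ (x : ℤ_[p]) (n : ℕ), ‖f x - g x‖ ≤ ((p : ℝ)⁻¹) ^ n := by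
    intro x n
    have h1 : x - ((PadicInt.appr x n : ℕ) : ℤ_[p]) ∈ Ideal.span {((p : ℤ_[p]) ^ n)} :=
      PadicInt.appr_spec n x
    obtain ⟨y, hy⟩ := Ideal.mem_span_singleton.1 h1
    have h2 : x = ((PadicInt.appr x n : ℕ) : ℤ_[p]) + (p : ℤ_[p]) ^ n * y := by
      rw [← hy]
      ring
    have h3 : f x - g x = (p : ℂ_[p]) ^ n * (f y - g y) := by
      conv_lhs => rw [h2]
      rw [map_add, map_mul, map_pow, map_natCast, map_natCast, map_add, map_mul, map_pow,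
        map_natCast, map_natCast]
      ring
    have h4 : ‖f y - g y‖ ≤ 1 := by
      refine (norm_sub_le_max' _ _).trans (max_le (norm_OC _) ?_)
      have h5 : g y = algebraMap ℚ_[p] ℂ_[p] (y : ℚ_[p]) := rfl
      rw [h5, norm_algebraMap']
      exact PadicInt.norm_le_one y
    rw [h3, norm_mul, norm_pow, norm_p_C]
    exact mul_le_of_le_one_right (by positivity) h4
  have h5 : ‖f x - g x‖ ≤ 0 := ge_of_tendsto' tendsto_pinv (key x)
  exact sub_eq_zero.1 (norm_le_zero_iff.1 h5)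

theorem Th_qpToA (x : ℚ_[p]) :
    Th p (qpToA (PadicComplexInt p) p x) = algebraMap ℚ_[p] ℂ_[p] x := by
  have h : (Th p).comp (qpToA (PadicComplexInt p) p) = algebraMap ℚ_[p] ℂ_[p] := by
    apply IsLocalization.ringHom_ext (nonZeroDivisors ℤ_[p])
    ext x
    simp only [RingHom.comp_apply]
    show Th p (qpToA (PadicComplexInt p) p (x : ℚ_[p])) = algebraMap ℚ_[p] ℂ_[p] (x : ℚ_[p])
    rw [qpToA_coe, Th_algebraMap, theta_zpToW]
  exact congrArg (fun f => f x) h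

end oc

end Pool.Agent.TH831
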