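import Mathlib

/-!
# A square root of the identity character of `ℤ_pˣ`, up to roots of unity
-/

set_option autoImplicit false

open Polynomial

namespace Pool.Agent.TH831

section root

variable {p : ℕ} [hp : Fact p.Prime]

theorem norm_two_pos : 0 < ‖(2 : ℤ_[p])‖ := by
  rw [norm_pos_iff]
  exact two_ne_zero

theorem norm_two_ge : ((p : ℝ))⁻¹ ≤ ‖(2 : ℤ_[p])‖ := by
  by_cases h : p = 2
  · subst h
    have h1 : ‖((2 : ℕ) : ℤ_[2])‖ = ((2 : ℕ) : ℝ)⁻¹ := PadicInt.norm_p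
    have h2 : ((2 : ℕ) : ℤ_[2]) = 2 := by norm_cast
    rw [h2] at h1
    rw [h1]
  · have h1 : ‖((2 : ℕ) : ℤ_[p])‖ = 1 := by
      rw [← PadicInt.isUnit_iff]
      by_contra h2
      rw [PadicInt.isUnit_iff] at h2
      have h3 : ‖((2 : ℕ) : ℤ_[p])‖ < 1 := lt_of_le_of_ne (PadicInt.norm_le_one _) h2
      have h4 : ‖(((2 : ℕ) : ℤ) : ℤ_[p])‖ < 1 := by exact_mod_cast h3
      rw [PadicInt.norm_intCast_lt_one_iff] at h4
      have h5 : p ∣ 2 := by exact_mod_cast h4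
      exact h ((Nat.prime_dvd_prime_iff_eq hp.out Nat.prime_two).1 h5)
    have h2 : ((2 : ℕ) : ℤ_[p]) = 2 := by norm_cast
    rw [h2] at h1
    rw [h1]
    exact inv_le_one_of_one_le₀ (by exact_mod_cast hp.out.one_lt.le)

theorem norm_add_one {v w : ℤ_[p]} (hv : ‖v - 1‖ < ‖(2 : ℤ_[p])‖) (hw : ‖w - 1‖ < ‖(2 : ℤ_[p])‖) :
    ‖v + w‖ = ‖(2 : ℤ_[p])‖ := by
  have h1 : ‖(v - 1) + (w - 1)‖ < ‖(2 : ℤ_[p])‖ :=
    (PadicInt.nonarchimedean _ _).trans_lt (max_lt hv hw)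
  have h2 : v + w = ((v - 1) + (w - 1)) + 2 := by ring
  rw [h2, PadicInt.norm_add_eq_max_of_ne h1.ne, max_eq_right h1.le]

theorem sqrt_exists (u : ℤ_[p]) (hu : ‖u - 1‖ < ‖(2 : ℤ_[p])‖ ^ 2) :
    ∃ v : ℤ_[p], v ^ 2 = u ∧ ‖v - 1‖ < ‖(2 : ℤ_[p])‖ := by
  have h0 : (aeval (1 : ℤ_[p])) (derivative (X ^ 2 - C u : ℤ_[p][X])) = 2 := by
    simp
    norm_num
  have h1 : (aeval (1 : ℤ_[p])) (X ^ 2 - C u : ℤ_[p][X]) = 1 - u := by
    simp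
  obtain ⟨z, hz1, hz2, -⟩ := hensels_lemma (F := (X ^ 2 - C u : ℤ_[p][X])) (a := (1 : ℤ_[p]))
    (by rw [h0, h1, norm_sub_rev]; exact hu)
  refine ⟨z, ?_, ?_⟩
  · have : z ^ 2 - u = 0 := by simpa using hz1
    exact sub_eq_zero.1 this
  · rw [h0] at hz2
    exact hz2

theorem sqrt_unique {v w : ℤ_[p]} (hv : ‖v - 1‖ < ‖(2 : ℤ_[p])‖) (hw : ‖w - 1‖ < ‖(2 : ℤ_[p])‖)
    (h : v ^ 2 = w ^ 2) : v = w := by
  have h1 : (v - w) * (v + w) = 0 := by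
    have : (v - w) * (v + w) = v ^ 2 - w ^ 2 := by ring
    rw [this, h, sub_self]
  rcases mul_eq_zero.1 h1 with h2 | h2
  · exact sub_eq_zero.1 h2
  · exfalso
    have h3 := norm_add_one hv hw
    rw [h2, norm_zero] at h3
    exact norm_two_pos.ne h3

/-- units close to `1` -/
noncomputable def ball (p : ℕ) [Fact p.Prime] (r : ℝ) (hr : 0 < r) : Subgroup ℤ_[p]ˣ where
  carrier := {u | ‖((u : ℤ_[p])) - 1‖ < r}
  one_mem' := by simpa using hr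
  mul_mem' := by
    intro a b ha hb
    have h : (((a * b : ℤ_[p]ˣ) : ℤ_[p])) - 1 = (a : ℤ_[p]) * ((b : ℤ_[p]) - 1) + ((a : ℤ_[p]) - 1) := by
      push_cast
      ring
    show ‖(((a * b : ℤ_[p]ˣ) : ℤ_[p])) - 1‖ < r
    rw [h]
    refine (PadicInt.nonarchimedean _ _).trans_lt (max_lt ?_ ha)
    rw [norm_mul, PadicInt.norm_units, one_mul]
    exact hb
  inv_mem' := by
    intro a ha
    have h : (((a⁻¹ : ℤ_[p]ˣ) : ℤ_[p])) - 1 = -(((a⁻¹ : ℤ_[p]ˣ) : ℤ_[p]) * ((a : ℤ_[p]) - 1)) := by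
      rw [mul_sub, Units.inv_mul, mul_one]
      ring
    show ‖(((a⁻¹ : ℤ_[p]ˣ) : ℤ_[p])) - 1‖ < r
    rw [h, norm_neg, norm_mul, PadicInt.norm_units, one_mul]
    exact ha

theorem mem_ball {r : ℝ} {hr : 0 < r} {u : ℤ_[p]ˣ} : u ∈ ball p r hr ↔ ‖((u : ℤ_[p])) - 1‖ < r :=
  Iff.rfl

/-- the units close to `1` which have a canonical square root -/
noncomputable def Ub (p : ℕ) [Fact p.Prime] : Subgroup ℤ_[p]ˣ := ball p (‖(2 : ℤ_[p])‖ ^ 2) (pow_pos norm_two_pos 2)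

theorem mem_Ub {u : ℤ_[p]ˣ} : u ∈ Ub p ↔ ‖((u : ℤ_[p])) - 1‖ < ‖(2 : ℤ_[p])‖ ^ 2 :=
  Iff.rfl

/-- the units among which square roots are unique -/
noncomputable def Vb (p : ℕ) [Fact p.Prime] : Subgroup ℤ_[p]ˣ := ball p ‖(2 : ℤ_[p])‖ norm_two_pos

theorem mem_Vb {u : ℤ_[p]ˣ} : u ∈ Vb p ↔ ‖((u : ℤ_[p])) - 1‖ < ‖(2 : ℤ_[p])‖ :=
  Iff.rfl

theorem root_unit (u : Ub p) : ∃ v : ℤ_[p]ˣ, v ∈ Vb p ∧ v ^ 2 = u := by
  obtain ⟨v, hv1, hv2⟩ := sqrt_exists ((u : ℤ_[p]ˣ) : ℤ_[p]) u.2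
  have hv : IsUnit v := by
    rw [← isUnit_pow_iff two_ne_zero, hv1]
    exact Units.isUnit _
  obtain ⟨w, rfl⟩ := hv
  refine ⟨w, hv2, ?_⟩
  apply Units.ext
  rw [Units.val_pow_eq_pow_val]
  exact hv1

/-- the canonical square root -/
noncomputable def rt (u : Ub p) : ℤ_[p]ˣ := (root_unit u).choose

theorem rt_mem (u : Ub p) : rt u ∈ Vb p := (root_unit u).choose_spec.1

theorem rt_sq (u : Ub p) : rt u ^ 2 = u := (root_unit u).choose_spec.2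

theorem rt_unique {v w : ℤ_[p]ˣ} (hv : v ∈ Vb p) (hw : w ∈ Vb p) (h : v ^ 2 = w ^ 2) : v = w := by
  apply Units.ext
  refine sqrt_unique hv hw ?_
  have := congrArg (fun x : ℤ_[p]ˣ => (x : ℤ_[p])) h
  simpa only [Units.val_pow_eq_pow_val] using this

/-- the canonical square root as a homomorphism -/
noncomputable def rtHom (p : ℕ) [Fact p.Prime] : Ub p →* ℤ_[p]ˣ where
  toFun := rt
  map_one' := rt_unique (rt_mem _) (one_mem _) (by rw [rt_sq]; simp)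
  map_mul' a b := rt_unique (rt_mem _) (mul_mem (rt_mem _) (rt_mem _)) (by
    rw [rt_sq, mul_pow, rt_sq, rt_sq]
    rfl)

theorem norm_rt_sub_one (u : Ub p) :
    ‖((rt u : ℤ_[p]ˣ) : ℤ_[p]) - 1‖ * ‖(2 : ℤ_[p])‖ = ‖(((u : ℤ_[p]ˣ) : ℤ_[p])) - 1‖ := by
  have h1 : ‖((rt u : ℤ_[p]ˣ) : ℤ_[p]) + 1‖ = ‖(2 : ℤ_[p])‖ :=
    norm_add_one (rt_mem u) (by rw [sub_self, norm_zero]; exact norm_two_pos)
  rw [← h1, ← norm_mul]
  congr 1
  have h2 : (((rt u ^ 2 : ℤ_[p]ˣ)) : ℤ_[p]) = ((u : ℤ_[p]ˣ) : ℤ_[p]) := by rw [rt_sq]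
  rw [← h2]
  push_cast
  ring

/-- the inclusion of `ℤ_p` in the algebraic closure of `ℚ_p` -/
noncomputable def emb (p : ℕ) [Fact p.Prime] : ℤ_[p] →+* PadicAlgCl p :=
  (algebraMap ℚ_[p] (PadicAlgCl p)).comp PadicInt.Coe.ringHom

theorem norm_emb (x : ℤ_[p]) : ‖emb p x‖ = ‖x‖ := by
  show ‖algebraMap ℚ_[p] (PadicAlgCl p) (x : ℚ_[p])‖ = ‖x‖
  rw [norm_algebraMap']
  rfl

theorem exists_exponent (p : ℕ) [Fact p.Prime] : ∃ N : ℕ, 0 < N ∧ ∀ u : ℤ_[p]ˣ, u ^ N ∈ Ub p := by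
  have : NeZero (p ^ 3) := ⟨pow_ne_zero _ (Fact.out : p.Prime).ne_zero⟩
  refine ⟨Fintype.card (ZMod (p ^ 3))ˣ, Fintype.card_pos, fun u => ?_⟩
  rw [mem_Ub]
  have h1 : (Units.map (PadicInt.toZModPow (p := p) 3).toMonoidHom u) ^
      Fintype.card (ZMod (p ^ 3))ˣ = 1 := pow_card_eq_one
  have h2 : PadicInt.toZModPow (p := p) 3 (((u ^ Fintype.card (ZMod (p ^ 3))ˣ : ℤ_[p]ˣ) : ℤ_[p]) - 1) = 0 := by
    rw [map_sub, map_one, sub_eq_zero]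
    rw [← map_pow] at h1
    exact congrArg (fun x : (ZMod (p ^ 3))ˣ => (x : ZMod (p ^ 3))) h1
  have h3 : ((u ^ Fintype.card (ZMod (p ^ 3))ˣ : ℤ_[p]ˣ) : ℤ_[p]) - 1 ∈
      Ideal.span {((p : ℤ_[p]) ^ 3)} := by
    rw [← PadicInt.ker_toZModPow, RingHom.mem_ker]
    exact h2
  rw [← PadicInt.norm_le_pow_iff_mem_span_pow] at h3
  refine h3.trans_lt ?_
  have hp1 : (1 : ℝ) < p := by exact_mod_cast (Fact.out : p.Prime).one_lt
  have hp0 : (0 : ℝ) < p := by linarith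
  have h4 : (p : ℝ)⁻¹ ^ 2 ≤ ‖(2 : ℤ_[p])‖ ^ 2 := pow_le_pow_left₀ (inv_nonneg.2 hp0.le) norm_two_ge 2
  refine lt_of_lt_of_le ?_ h4
  have h5 : (p : ℝ) ^ (-((3 : ℕ) : ℤ)) = (p : ℝ)⁻¹ ^ 3 := by
    rw [zpow_neg, zpow_natCast, inv_pow]
  rw [h5]
  exact pow_lt_pow_right_of_lt_one₀ (inv_pos.2 hp0) (inv_lt_one_of_one_lt₀ hp1) (by norm_num)

theorem exists_psi (p : ℕ) [Fact p.Prime] : ∃ ψ : ℤ_[p]ˣ →* (PadicAlgCl p)ˣ,
    (∀ u : Ub p, ψ u = Units.map (emb p).toMonoidHom (rt u)) ∧ Continuous ψ ∧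
      ∃ N : ℕ, 0 < N ∧ ∀ u, ψ u ^ (2 * N) = Units.map (emb p).toMonoidHom u ^ N := by
  let _ : DivisibleBy (Additive (PadicAlgCl p)ˣ) ℤ := by
    refine divisibleByOfSMulRightSurj _ _ ?_
    intro n hn a
    have key : ∀ (m : ℕ), m ≠ 0 → ∀ b : (PadicAlgCl p)ˣ, ∃ c : (PadicAlgCl p)ˣ, c ^ m = b := by
      intro m hm b
      obtain ⟨z, hz⟩ := IsAlgClosed.exists_pow_nat_eq (b : PadicAlgCl p) (Nat.pos_of_ne_zero hm)
      have hz0 : z ≠ 0 := by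
        rintro rfl
        rw [zero_pow hm] at hz
        exact b.ne_zero hz.symm
      refine ⟨Units.mk0 z hz0, ?_⟩
      ext
      rw [Units.val_pow_eq_pow_val, Units.val_mk0]
      exact hz
    obtain ⟨c, hc⟩ := key n.natAbs (Int.natAbs_ne_zero.2 hn) a.toMul
    rcases Int.natAbs_eq n with h | h
    · refine ⟨Additive.ofMul c, ?_⟩
      show n • Additive.ofMul c = a
      rw [h, natCast_zsmul, ← ofMul_pow, hc]
      rfl
    · refine ⟨Additive.ofMul c⁻¹, ?_⟩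
      show n • Additive.ofMul c⁻¹ = a
      rw [h, neg_smul, natCast_zsmul, ← ofMul_pow, inv_pow, hc, ← ofMul_inv, inv_inv]
      rfl
  have hB := Module.Baer.of_divisible (Additive (PadicAlgCl p)ˣ)
  obtain ⟨h, hh⟩ := hB.extension_property_addMonoidHom (MonoidHom.toAdditive (Ub p).subtype)
    (fun a b hab => Subtype.ext hab)
    (MonoidHom.toAdditive ((Units.map (emb p).toMonoidHom).comp (rtHom p)))
  let ψ : ℤ_[p]ˣ →* (PadicAlgCl p)ˣ := MonoidHom.toAdditive.symm h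
  have hψ : ∀ u : Ub p, ψ u = Units.map (emb p).toMonoidHom (rt u) := by
    intro u
    exact congrArg (fun f => (f (Additive.ofMul u)).toMul) hh
  refine ⟨ψ, hψ, ?_, ?_⟩
  · refine continuous_of_continuousAt_one ψ ?_
    have hcont : ∀ ε : ℝ, 0 < ε → ∀ᶠ u : ℤ_[p]ˣ in nhds 1, ‖((ψ u : (PadicAlgCl p)ˣ) : PadicAlgCl p) - 1‖ < ε := by
      intro ε hε
      have hc : Continuous (fun u : ℤ_[p]ˣ => ‖(u : ℤ_[p]) - 1‖) := by fun_prop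
      have h1 : ∀ᶠ u : ℤ_[p]ˣ in nhds 1, ‖(u : ℤ_[p]) - 1‖ < min (‖(2 : ℤ_[p])‖ ^ 2) (ε * ‖(2 : ℤ_[p])‖) := by
        apply hc.continuousAt.eventually_lt continuousAt_const
        rw [Units.val_one, sub_self, norm_zero]
        exact lt_min (pow_pos norm_two_pos 2) (mul_pos hε norm_two_pos)
      filter_upwards [h1] with u hu
      have hu1 : u ∈ Ub p := hu.trans_le (min_le_left _ _)
      have h2 := hψ ⟨u, hu1⟩
      have h3 : ((ψ u : (PadicAlgCl p)ˣ) : PadicAlgCl p) - 1 =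
          emb p (((rt ⟨u, hu1⟩ : ℤ_[p]ˣ) : ℤ_[p]) - 1) := by
        rw [map_sub, map_one]
        congr 1
        exact congrArg (fun x : (PadicAlgCl p)ˣ => (x : PadicAlgCl p)) h2
      rw [h3, norm_emb]
      have h4 := norm_rt_sub_one (⟨u, hu1⟩ : Ub p)
      have h5 : ‖((rt ⟨u, hu1⟩ : ℤ_[p]ˣ) : ℤ_[p]) - 1‖ * ‖(2 : ℤ_[p])‖ < ε * ‖(2 : ℤ_[p])‖ := by
        rw [h4]
        exact hu.trans_le (min_le_right _ _)
      exact lt_of_mul_lt_mul_right h5 norm_two_pos.le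
    have hval : Filter.Tendsto (fun u : ℤ_[p]ˣ => ((ψ u : (PadicAlgCl p)ˣ) : PadicAlgCl p))
        (nhds 1) (nhds 1) := by
      rw [Metric.tendsto_nhds]
      intro ε hε
      filter_upwards [hcont ε hε] with u hu
      rw [dist_eq_norm]
      exact hu
    rw [ContinuousAt, map_one, Units.isEmbedding_val₀.tendsto_nhds_iff]
    exact hval
  · obtain ⟨N, hN, hN2⟩ := exists_exponent p
    refine ⟨N, hN, fun u => ?_⟩
    have h1 := hψ ⟨u ^ N, hN2 u⟩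
    have h2 : ψ (u ^ N) ^ 2 = Units.map (emb p).toMonoidHom (u ^ N) := by
      rw [h1, ← map_pow, rt_sq]
    rw [mul_comm, pow_mul, ← map_pow, h2, map_pow]

end root

end Pool.Agent.TH831
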