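import Pool.Agent.TH831.Trace

/-!
# Tate's theorem: `H⁰(G, ℂ_p(M)) = 0` for `M ≠ 0`
-/

set_option autoImplicit false

open Polynomial Finset

namespace Pool.Agent.TH831

/-- the absolute Galois group of `ℚ_p` -/
abbrev GP (p : ℕ) [Fact p.Prime] : Type := Gal(PadicAlgCl p/ℚ_[p])

section act

variable {p : ℕ} [hp : Fact p.Prime]

theorem isometry_gal (σ : GP p) : Isometry σ := by
  apply AddMonoidHomClass.isometry_of_norm
  exact norm_map_eq σ

/-- the action of the Galois group on `ℂ_p`, by continuity -/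
noncomputable def galC (σ : GP p) : ℂ_[p] ≃+* ℂ_[p] :=
  UniformSpace.Completion.mapRingEquiv σ.toRingEquiv (isometry_gal σ).continuous
    (isometry_gal σ.symm).continuous

theorem galC_coe (σ : GP p) (x : PadicAlgCl p) : galC σ (x : ℂ_[p]) = (σ x : PadicAlgCl p) :=
  UniformSpace.Completion.mapRingHom_coe (f := σ.toRingEquiv.toRingHom)
    (isometry_gal σ).continuous x

theorem galC_isometry (σ : GP p) : Isometry (galC σ) :=
  Isometry.isometry_mapRingHom (f := σ.toRingEquiv.toRingHom) (isometry_gal σ)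

theorem norm_galC (σ : GP p) (x : ℂ_[p]) : ‖galC σ x‖ = ‖x‖ := by
  have h := (galC_isometry σ).dist_eq x 0
  rwa [map_zero, dist_zero_right, dist_zero_right] at h

theorem galC_ext {f g : ℂ_[p] → ℂ_[p]} (hf : Continuous f) (hg : Continuous g)
    (h : ∀ x : PadicAlgCl p, f x = g x) (x : ℂ_[p]) : f x = g x := by
  have h1 : f = g := UniformSpace.Completion.ext hf hg h
  rw [h1]

theorem galC_mul (σ τ : GP p) (x : ℂ_[p]) : galC (σ * τ) x = galC σ (galC τ x) := by
  refine galC_ext (f := fun x => galC (σ * τ) x) (g := fun x => galC σ (galC τ x))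
    (galC_isometry _).continuous ((galC_isometry _).continuous.comp (galC_isometry _).continuous)
    (fun x => ?_) x
  show galC (σ * τ) (x : ℂ_[p]) = galC σ (galC τ (x : ℂ_[p]))
  rw [galC_coe, galC_coe, galC_coe]
  rfl

theorem galC_algebraMap (σ : GP p) (a : ℚ_[p]) :
    galC σ (algebraMap ℚ_[p] ℂ_[p] a) = algebraMap ℚ_[p] ℂ_[p] a := by
  have h : algebraMap ℚ_[p] ℂ_[p] a = ((algebraMap ℚ_[p] (PadicAlgCl p) a : PadicAlgCl p) : ℂ_[p]) :=
    rfl
  rw [h, galC_coe, AlgEquiv.commutes]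

end act

section chi

variable {p : ℕ} [hp : Fact p.Prime]

/-- the cyclotomic character of the absolute Galois group of `ℚ_p` -/
noncomputable def chi (σ : GP p) : ℤ_[p]ˣ := cyclotomicCharacter (PadicAlgCl p) p σ.toRingEquiv

theorem chi_mul (σ τ : GP p) : chi (σ * τ) = chi σ * chi τ :=
  map_mul (cyclotomicCharacter (PadicAlgCl p) p) σ.toRingEquiv τ.toRingEquiv

theorem chi_spec (σ : GP p) {n : ℕ} {t : PadicAlgCl p} (ht : t ^ p ^ n = 1) :
    σ t = t ^ (PadicInt.toZModPow n (chi σ : ℤ_[p])).val :=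
  cyclotomicCharacter.spec p σ.toRingEquiv t ht

theorem exists_root (n : ℕ) : ∃ ζ : PadicAlgCl p, IsPrimitiveRoot ζ (p ^ (n + 1)) :=
  HasEnoughRootsOfUnity.exists_primitiveRoot (PadicAlgCl p) (p ^ (n + 1))

/-- a primitive root of unity of order `p ^ (n + 1)` -/
noncomputable def zt (p : ℕ) [Fact p.Prime] (n : ℕ) : PadicAlgCl p :=
  (exists_root (p := p) n).choose

theorem zt_spec (n : ℕ) : IsPrimitiveRoot (zt p n) (p ^ (n + 1)) :=
  (exists_root (p := p) n).choose_spec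

theorem adjoin_le {m n : ℕ} (hmn : m ≤ n) {z w : PadicAlgCl p}
    (hz : IsPrimitiveRoot z (p ^ (m + 1))) (hw : IsPrimitiveRoot w (p ^ (n + 1))) :
    IntermediateField.adjoin ℚ_[p] {z} ≤ IntermediateField.adjoin ℚ_[p] {w} := by
  rw [IntermediateField.adjoin_simple_le_iff]
  have h1 : z ^ p ^ (n + 1) = 1 := by
    have h2 : p ^ (n + 1) = p ^ (m + 1) * p ^ (n - m) := by
      rw [← pow_add]
      congr 1
      omega
    rw [h2, pow_mul, hz.pow_eq_one, one_pow]
  obtain ⟨i, -, hi⟩ := hw.eq_pow_of_pow_eq_one h1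
  rw [← hi]
  exact pow_mem (IntermediateField.mem_adjoin_simple_self _ _) i

/-- the cyclotomic `ℤ_p`-extension (with all the roots of unity of `p`-power order) -/
noncomputable def Kinf (p : ℕ) [Fact p.Prime] : IntermediateField ℚ_[p] (PadicAlgCl p) :=
  ⨆ n : ℕ, IntermediateField.adjoin ℚ_[p] {zt p n}

theorem mem_Kinf {a : PadicAlgCl p} (ha : a ∈ Kinf p) :
    ∃ n, a ∈ IntermediateField.adjoin ℚ_[p] {zt p n} := by
  have hdir : Directed (· ≤ ·) fun n : ℕ => IntermediateField.adjoin ℚ_[p] {zt p n} := by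
    intro m n
    exact ⟨max m n, adjoin_le (le_max_left _ _) (zt_spec m) (zt_spec _),
      adjoin_le (le_max_right _ _) (zt_spec n) (zt_spec _)⟩
  have h := IntermediateField.coe_iSup_of_directed hdir
  have h2 : a ∈ ((⨆ n : ℕ, IntermediateField.adjoin ℚ_[p] {zt p n} :
      IntermediateField ℚ_[p] (PadicAlgCl p)) : Set (PadicAlgCl p)) := ha
  rw [h] at h2
  simpa using h2

theorem chi_of_fix {σ : GP p} (hσ : ∀ n, σ (zt p n) = zt p n) : chi σ = 1 := by
  ext1
  rw [Units.val_one]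
  apply PadicInt.ext_of_toZModPow.1
  intro n
  rcases n with _ | n
  · have : Subsingleton (ZMod (p ^ 0)) := by
      rw [pow_zero]
      infer_instance
    exact Subsingleton.elim _ _
  have h1 := chi_spec σ (n := n + 1) (t := zt p n) (zt_spec n).pow_eq_one
  rw [hσ n] at h1
  have hlt : 1 < p ^ (n + 1) := Nat.one_lt_pow (Nat.succ_ne_zero n) hp.out.one_lt
  have : NeZero (p ^ (n + 1)) := ⟨by omega⟩
  have h2 := (zt_spec (p := p) n).pow_inj (i := 1) hlt (ZMod.val_lt _)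
    (by rw [pow_one]; exact h1)
  have h3 : (((PadicInt.toZModPow (n + 1) (chi σ : ℤ_[p])).val : ℕ) : ZMod (p ^ (n + 1))) = 1 := by
    rw [← h2, Nat.cast_one]
  rw [ZMod.natCast_zmod_val] at h3
  rw [h3, map_one]

theorem exists_gamma (m M : ℕ) (hM : 0 < M) : ∃ γ : GP p, γ (zt p m) = zt p m ∧
    (chi γ : ℤ_[p]) ^ M ≠ 1 := by
  -- choose a large level
  set c := 1 + p ^ (m + 1) with hc
  have hc1 : 1 < c := by
    have : 0 < p ^ (m + 1) := pow_pos hp.out.pos _
    omega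
  obtain ⟨n, hn⟩ : ∃ n, m ≤ n ∧ c ^ M < p ^ (n + 1) := by
    refine ⟨max m (c ^ M), le_max_left _ _, ?_⟩
    calc c ^ M < p ^ (c ^ M) := Nat.lt_pow_self hp.out.one_lt
      _ ≤ p ^ (max m (c ^ M) + 1) := Nat.pow_le_pow_right hp.out.pos (by
          have := le_max_right m (c ^ M)
          omega)
  have hcp : ¬ p ∣ c := by
    intro h
    have h1 : p ∣ p ^ (m + 1) := dvd_pow_self p (Nat.succ_ne_zero m)
    exact hp.out.one_lt.ne' (Nat.dvd_one.1 ((Nat.dvd_add_left h1).1 h))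
  obtain ⟨γ, hγ⟩ := exists_aut (zt_spec n) c hcp
  refine ⟨γ, ?_, ?_⟩
  · have h1 : (zt p m) ^ p ^ (n + 1) = 1 := by
      have h2 : p ^ (n + 1) = p ^ (m + 1) * p ^ (n - m) := by
        rw [← pow_add]
        congr 1
        omega
      rw [h2, pow_mul, (zt_spec m).pow_eq_one, one_pow]
    obtain ⟨i, -, hi⟩ := (zt_spec n).eq_pow_of_pow_eq_one h1
    rw [← hi, map_pow, hγ, ← pow_mul, mul_comm, pow_mul, hi, hc, pow_add, pow_one,
      (zt_spec m).pow_eq_one, mul_one]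
  · intro h
    have hlt : 1 < p ^ (n + 1) := Nat.one_lt_pow (Nat.succ_ne_zero n) hp.out.one_lt
    have : NeZero (p ^ (n + 1)) := ⟨by omega⟩
    have h1 := chi_spec γ (n := n + 1) (t := zt p n) (zt_spec n).pow_eq_one
    rw [hγ] at h1
    have hcM : c ≤ c ^ M := Nat.le_self_pow hM.ne' c
    have h2 := (zt_spec (p := p) n).pow_inj (i := c) (by omega) (ZMod.val_lt _) h1
    have h3 : PadicInt.toZModPow (n + 1) (chi γ : ℤ_[p]) = (c : ZMod (p ^ (n + 1))) := by
      rw [h2, ZMod.natCast_zmod_val]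
    have h4 := congrArg (PadicInt.toZModPow (n + 1)) h
    rw [map_pow, h3, map_one] at h4
    have h5 : ((c ^ M : ℕ) : ZMod (p ^ (n + 1))) = ((1 : ℕ) : ZMod (p ^ (n + 1))) := by
      rw [Nat.cast_pow, h4, Nat.cast_one]
    rw [ZMod.natCast_eq_natCast_iff'] at h5
    rw [Nat.mod_eq_of_lt hn.2, Nat.mod_eq_of_lt hlt] at h5
    have := Nat.one_lt_pow hM.ne' hc1
    omega

end chi

section tate

variable {p : ℕ} [hp : Fact p.Prime]

/-- an element of `ℂ_p` fixed by the kernel of the cyclotomic character is a limit of elements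
of the cyclotomic fields -/
theorem approx (y : ℂ_[p]) (hy : ∀ σ : GP p, chi σ = 1 → galC σ y = y) (ε : ℝ) (hε : 0 < ε) :
    ∃ (n : ℕ) (x : PadicAlgCl p), x ∈ IntermediateField.adjoin ℚ_[p] {zt p n} ∧
      ‖y - (x : ℂ_[p])‖ ≤ ε := by
  have hp0 : (0 : ℝ) < p := by exact_mod_cast hp.out.pos
  have hp1 : (1 : ℝ) ≤ p := by exact_mod_cast hp.out.one_lt.le
  set δ := ε / (p : ℝ) ^ 2 with hδ
  have hδ0 : 0 < δ := by positivity
  have hδε : (p : ℝ) ^ 2 * δ = ε := by
    rw [hδ]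
    field_simp
  have hδle : δ ≤ ε := by
    rw [← hδε]
    have : 1 ≤ (p : ℝ) ^ 2 := one_le_pow₀ hp1
    nlinarith
  obtain ⟨x₀, hx₀⟩ : ∃ x₀ : PadicAlgCl p, ‖y - (x₀ : ℂ_[p])‖ < δ := by
    obtain ⟨x₀, hx₀⟩ := (UniformSpace.Completion.denseRange_coe (α := PadicAlgCl p)).exists_dist_lt
      y hδ0
    exact ⟨x₀, by rwa [← dist_eq_norm]⟩
  have h1 : ∀ σ : PadicAlgCl p ≃ₐ[Kinf p] PadicAlgCl p, ‖σ x₀ - x₀‖ ≤ δ := by
    intro σ
    set σ' : GP p := AlgEquiv.restrictScalars ℚ_[p] σ with hσ'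
    have h2 : chi σ' = 1 := by
      apply chi_of_fix
      intro n
      have h3 : zt p n ∈ Kinf p := by
        have h4 : IntermediateField.adjoin ℚ_[p] {zt p n} ≤ Kinf p :=
          le_iSup (fun n : ℕ => IntermediateField.adjoin ℚ_[p] {zt p n}) n
        exact h4 (IntermediateField.mem_adjoin_simple_self _ _)
      exact σ.commutes ⟨zt p n, h3⟩
    have h3 := hy σ' h2
    have h4 : (((σ x₀ - x₀ : PadicAlgCl p)) : ℂ_[p]) =
        galC σ' ((x₀ : ℂ_[p]) - y) - ((x₀ : ℂ_[p]) - y) := by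
      rw [map_sub, h3, galC_coe, UniformSpace.Completion.coe_sub]
      show _ = ((σ' x₀ : PadicAlgCl p) : ℂ_[p]) - y - ((x₀ : ℂ_[p]) - y)
      rw [sub_sub_sub_cancel_right]
      rfl
    rw [← PadicComplex.norm_extends, h4]
    refine (norm_sub_le_max' _ _).trans ?_
    rw [norm_galC, max_self, norm_sub_rev]
    exact hx₀.le
  obtain ⟨a, ha, hxa⟩ := ax (Kinf p) x₀ δ hδ0.le h1
  obtain ⟨n, hn⟩ := mem_Kinf ha
  refine ⟨n, a, hn, ?_⟩
  have h2 : y - (a : ℂ_[p]) = (y - (x₀ : ℂ_[p])) + ((x₀ - a : PadicAlgCl p) : ℂ_[p]) := by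
    rw [UniformSpace.Completion.coe_sub]
    ring
  rw [h2]
  refine (IsUltrametricDist.norm_add_le_max _ _).trans (max_le (hx₀.le.trans hδle) ?_)
  rw [PadicComplex.norm_extends, ← hδε]
  exact hxa

/-- **Tate's theorem** for positive exponents -/
theorem tate_pos (M : ℕ) (hM : 0 < M) (y : ℂ_[p])
    (hy : ∀ σ : GP p, galC σ y =
      algebraMap ℚ_[p] ℂ_[p] (((chi σ : ℤ_[p]) ^ M : ℤ_[p]) : ℚ_[p]) * y) :
    y = 0 := by
  by_contra hy0
  have hp0 : (0 : ℝ) < p := by exact_mod_cast hp.out.pos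
  have hp1 : (1 : ℝ) ≤ p := by exact_mod_cast hp.out.one_lt.le
  have hr : 0 < ‖y‖ := norm_pos_iff.2 hy0
  have hfix : ∀ σ : GP p, chi σ = 1 → galC σ y = y := by
    intro σ hσ
    rw [hy σ, hσ, Units.val_one, one_pow]
    simp
  -- a first approximation
  obtain ⟨m, x, hxm, hxy⟩ := approx y hfix (‖y‖ / (2 * p)) (by positivity)
  have hxy' : ‖y - (x : ℂ_[p])‖ < ‖y‖ := by
    refine hxy.trans_lt ?_
    rw [div_lt_iff₀ (by positivity)]
    nlinarith
  have hxn : ‖x‖ = ‖y‖ := by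
    rw [← PadicComplex.norm_extends]
    have h1 : (x : ℂ_[p]) = y - (y - (x : ℂ_[p])) := by ring
    apply le_antisymm
    · rw [h1]
      exact (norm_sub_le_max' _ _).trans (max_le le_rfl hxy'.le)
    · have h2 : y = (x : ℂ_[p]) + (y - (x : ℂ_[p])) := by ring
      have h3 := IsUltrametricDist.norm_add_le_max (x : ℂ_[p]) (y - (x : ℂ_[p]))
      rw [← h2] at h3
      rcases le_max_iff.1 h3 with h4 | h4
      · exact h4
      · exact absurd h4 (not_le.2 hxy')
  obtain ⟨γ, hγm, hγM⟩ := exists_gamma (p := p) m M hM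
  set c : ℚ_[p] := (((chi γ : ℤ_[p]) ^ M : ℤ_[p]) : ℚ_[p]) with hc
  have hcn : ‖c‖ ≤ 1 := PadicInt.norm_le_one _
  have hη : 0 < ‖(1 : ℚ_[p]) - c‖ := by
    rw [norm_pos_iff, sub_ne_zero]
    intro h
    apply hγM
    apply PadicInt.ext
    rw [← hc, ← h, PadicInt.coe_one]
  set η := ‖(1 : ℚ_[p]) - c‖ with hηd
  -- a second approximation
  obtain ⟨n₀, x', hxn', hxy2⟩ := approx y hfix (min (‖y‖ / (2 * p)) (η * ‖y‖ / (2 * p)))
    (lt_min (by positivity) (by positivity))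
  set n := max m n₀ with hn
  have hmn : m ≤ n := le_max_left _ _
  have hx'n : x' ∈ IntermediateField.adjoin ℚ_[p] {zt p n} :=
    adjoin_le (le_max_right _ _) (zt_spec n₀) (zt_spec n) hxn'
  have hxn2 : x ∈ IntermediateField.adjoin ℚ_[p] {zt p n} :=
    adjoin_le hmn (zt_spec m) (zt_spec n) hxm
  have hprim : IsPrimitiveRoot (zt p n ^ p ^ (n - m)) (p ^ (m + 1)) := by
    refine (zt_spec n).pow (pow_pos hp.out.pos _) ?_
    rw [← pow_add]
    congr 1
    omega
  obtain ⟨T, hT1, hT2, hT3⟩ := exists_trace hmn (zt_spec (p := p) n)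
  have hγ' : γ (zt p n ^ p ^ (n - m)) = zt p n ^ p ^ (n - m) := by
    obtain ⟨i, -, hi⟩ := (zt_spec (p := p) m).eq_pow_of_pow_eq_one hprim.pow_eq_one
    rw [← hi, map_pow, hγm]
  -- `γ` preserves the field
  have hγx' : γ x' ∈ IntermediateField.adjoin ℚ_[p] {zt p n} := by
    obtain ⟨f, hf⟩ := mem_adjoin_iff hx'n
    have hγζ : (γ (zt p n)) ^ p ^ (n + 1) = 1 := by
      rw [← map_pow, (zt_spec n).pow_eq_one, map_one]
    obtain ⟨a, -, ha⟩ := (zt_spec n).eq_pow_of_pow_eq_one hγζ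
    have h2 : γ (aeval (zt p n) f) = aeval (γ (zt p n)) f :=
      (aeval_algHom_apply γ.toAlgHom (zt p n) f).symm
    rw [← hf, h2, ← ha, aeval_eq_sum_range]
    refine sum_mem fun i _ => ?_
    rw [Algebra.smul_def]
    exact mul_mem (IntermediateField.algebraMap_mem _ _)
      (pow_mem (pow_mem (IntermediateField.mem_adjoin_simple_self _ _) a) i)
  set e : PadicAlgCl p := γ x' - c • x' with he
  have heF : e ∈ IntermediateField.adjoin ℚ_[p] {zt p n} := by
    rw [he, Algebra.smul_def]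
    exact sub_mem hγx' (mul_mem (IntermediateField.algebraMap_mem _ _) hx'n)
  have hen : ‖e‖ ≤ η * ‖y‖ / (2 * p) := by
    have h1 : ((e : PadicAlgCl p) : ℂ_[p]) = galC γ ((x' : ℂ_[p]) - y) -
        algebraMap ℚ_[p] ℂ_[p] c * ((x' : ℂ_[p]) - y) := by
      rw [map_sub, hy γ, ← hc, galC_coe, he, UniformSpace.Completion.coe_sub, Algebra.smul_def,
        UniformSpace.Completion.coe_mul]
      show _ - algebraMap ℚ_[p] ℂ_[p] c * (x' : ℂ_[p]) = _
      ring
    have h2 : ‖(x' : ℂ_[p]) - y‖ ≤ η * ‖y‖ / (2 * p) := by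
      rw [norm_sub_rev]
      exact hxy2.trans (min_le_right _ _)
    rw [← PadicComplex.norm_extends, h1]
    refine (norm_sub_le_max' _ _).trans (max_le ?_ ?_)
    · rw [norm_galC]
      exact h2
    · rw [norm_mul]
      have h3 : ‖algebraMap ℚ_[p] ℂ_[p] c‖ ≤ 1 := by
        rw [norm_algebraMap']
        exact hcn
      calc _ ≤ 1 * ‖(x' : ℂ_[p]) - y‖ := mul_le_mul_of_nonneg_right h3 (norm_nonneg _)
        _ ≤ _ := by rw [one_mul]; exact h2
  have hTe : T e = (1 - c) • T x' := by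
    rw [he, map_sub, map_smul, hT3 γ hγ' x' hx'n, sub_smul, one_smul]
  have h5 : ‖T x'‖ < ‖y‖ := by
    have h6 := hT1 e heF
    rw [hTe, norm_smul, ← hηd] at h6
    have h7 : (p : ℝ) * ‖e‖ ≤ η * ‖y‖ / 2 := by
      calc (p : ℝ) * ‖e‖ ≤ p * (η * ‖y‖ / (2 * p)) := mul_le_mul_of_nonneg_left hen hp0.le
        _ = η * ‖y‖ / 2 := by field_simp
    have h8 : η * ‖T x'‖ < η * ‖y‖ := by
      have : 0 < η * ‖y‖ := by positivity
      linarith
    exact lt_of_mul_lt_mul_left h8 hη.le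
  have h6 : ‖T (x' - x)‖ < ‖y‖ := by
    refine (hT1 _ (sub_mem hx'n hxn2)).trans_lt ?_
    have h7 : ‖x' - x‖ ≤ ‖y‖ / (2 * p) := by
      rw [← PadicComplex.norm_extends]
      have h8 : (((x' - x : PadicAlgCl p)) : ℂ_[p]) = (y - (x : ℂ_[p])) - (y - (x' : ℂ_[p])) := by
        rw [UniformSpace.Completion.coe_sub]
        ring
      rw [h8]
      exact (norm_sub_le_max' _ _).trans (max_le hxy (hxy2.trans (min_le_left _ _)))
    calc (p : ℝ) * ‖x' - x‖ ≤ p * (‖y‖ / (2 * p)) := mul_le_mul_of_nonneg_left h7 hp0.le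
      _ = ‖y‖ / 2 := by field_simp
      _ < ‖y‖ := by linarith
  have hTx : T x = x := by
    apply hT2
    exact adjoin_le le_rfl (zt_spec m) hprim hxm
  have h7 : x = T x' - T (x' - x) := by
    rw [map_sub, hTx]
    ring
  have h8 : ‖x‖ < ‖y‖ := by
    rw [h7]
    exact (norm_sub_le_max' _ _).trans_lt (max_lt h5 h6)
  rw [hxn] at h8
  exact lt_irrefl _ h8

end tate

end Pool.Agent.TH831
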