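import Pool.Agent.TH831.OCp

/-!
# The tilt of the ring of integers of `ℂ_p` and the kernel of `θ`
-/

set_option autoImplicit false

open Filter Topology WittVector

namespace Pool.Agent.TH831

section tilt

variable {p : ℕ} [hp : Fact p.Prime]

/-- the tilt -/
noncomputable abbrev Fl (p : ℕ) [Fact p.Prime] : Type := PreTilt (PadicComplexInt p) p

/-- the ideal generated by `p` -/
noncomputable abbrev Ip (p : ℕ) [Fact p.Prime] : Ideal (PadicComplexInt p) :=
  Ideal.span {((p : ℕ) : PadicComplexInt p)}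

/-- the tilt as compatible sequences -/
noncomputable def tiltEquiv (p : ℕ) [Fact p.Prime] :
    Perfection (PadicComplexInt p) p ≃* Fl p :=
  Perfection.quotientMulEquiv p (Ip p)

/-- the compatible sequence of `p`-power roots attached to an element of the tilt -/
noncomputable def sq (x : Fl p) (n : ℕ) : PadicComplexInt p :=
  Perfection.coeffMonoidHom (PadicComplexInt p) p n ((tiltEquiv p).symm x)

theorem sq_zero_eq (x : Fl p) : sq x 0 = x.untilt := by
  exact Perfection.coeff_zero_symm_quotientMulEquiv (I := Ip p) (p := p) x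

theorem sq_pow (x : Fl p) (n : ℕ) : sq x (n + 1) ^ p = sq x n :=
  Perfection.coeffMonoidHom_pow_p' _ _

theorem sq_pow_pow (x : Fl p) (n m : ℕ) : sq x (n + m) ^ p ^ m = sq x n := by
  induction m with
  | zero => simp
  | succ m ih =>
    rw [← add_assoc, pow_succ', pow_mul, sq_pow, ih]

theorem sq_mul (x y : Fl p) (n : ℕ) : sq (x * y) n = sq x n * sq y n := by
  unfold sq
  rw [map_mul, map_mul]

theorem sq_one (n : ℕ) : sq (1 : Fl p) n = 1 := by
  unfold sq
  rw [map_one, map_one]

theorem sq_ext {x y : Fl p} (h : ∀ n, sq x n = sq y n) : x = y := by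
  apply (tiltEquiv p).symm.injective
  exact Perfection.extMonoid h

theorem exists_sq (f : ℕ → PadicComplexInt p) (hf : ∀ n, f (n + 1) ^ p = f n) :
    ∃ x : Fl p, ∀ n, sq x n = f n := by
  obtain ⟨g, hg⟩ : ∃ g : Perfection (PadicComplexInt p) p,
      ∀ n, Perfection.coeffMonoidHom (PadicComplexInt p) p n g = f n := ⟨⟨f, hf⟩, fun _ => rfl⟩
  refine ⟨tiltEquiv p g, fun n => ?_⟩
  unfold sq
  rw [MulEquiv.symm_apply_apply]
  exact hg n

theorem coeff_eq_mk_sq (x : Fl p) (n : ℕ) :
    PreTilt.coeff n x = Ideal.Quotient.mk (Ip p) (sq x n) := by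
  have h := Perfection.coeff_quotientMulEquiv (I := Ip p) ((tiltEquiv p).symm x) n
  have h2 : Perfection.quotientMulEquiv p (Ip p) ((tiltEquiv p).symm x) = x :=
    (tiltEquiv p).apply_symm_apply x
  rw [h2] at h
  exact h

theorem sq_tiltMap (e : PadicComplexInt p →+* PadicComplexInt p) (x : Fl p) (n : ℕ) :
    sq (tiltMap e x) n = e (sq x n) := by
  obtain ⟨y, hy⟩ := exists_sq (fun n => e (sq x n)) (fun n => by rw [← map_pow, sq_pow])
  have h : tiltMap e x = y := by
    apply Perfection.ext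
    intro m
    show modPMap e (PreTilt.coeff m x) = PreTilt.coeff m y
    rw [coeff_eq_mk_sq, coeff_eq_mk_sq, hy]
    exact modPMap_mk e _
  rw [h, hy]

theorem sq_zero (n : ℕ) : sq (0 : Fl p) n = 0 := by
  have h0 : sq (0 : Fl p) 0 = 0 := by
    rw [sq_zero_eq]
    exact Perfection.teichmuller_zero
  have h := sq_pow_pow (0 : Fl p) 0 n
  rw [zero_add, h0] at h
  exact pow_eq_zero_iff (pow_ne_zero n hp.out.ne_zero) |>.1 h

theorem eq_zero_of_sq {x : Fl p} {n : ℕ} (h : sq x n = 0) : x = 0 := by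
  have h0 : sq x 0 = 0 := by
    have := sq_pow_pow x 0 n
    rw [zero_add, h, zero_pow (pow_ne_zero n hp.out.ne_zero)] at this
    exact this.symm
  apply sq_ext
  intro m
  rw [sq_zero]
  have h := sq_pow_pow x 0 m
  rw [zero_add, h0] at h
  exact pow_eq_zero_iff (pow_ne_zero m hp.out.ne_zero) |>.1 h

theorem sq_ne_zero {x : Fl p} (h : x ≠ 0) (n : ℕ) : sq x n ≠ 0 := fun h0 => h (eq_zero_of_sq h0)

instance instDomainFl : IsDomain (Fl p) := by
  have h1 : NoZeroDivisors (Fl p) := ⟨by
    intro a b hab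
    have h := sq_mul a b 0
    rw [hab, sq_zero] at h
    rcases mul_eq_zero.1 h.symm with h2 | h2
    · exact Or.inl (eq_zero_of_sq h2)
    · exact Or.inr (eq_zero_of_sq h2)⟩
  have h2 : Nontrivial (Fl p) := ⟨0, 1, by
    intro h
    have h3 := sq_one (p := p) 0
    rw [← h, sq_zero] at h3
    exact zero_ne_one h3⟩
  exact NoZeroDivisors.to_isDomain _

theorem norm_sq_pow (x : Fl p) (n : ℕ) :
    ‖(sq x n : ℂ_[p])‖ ^ p ^ n = ‖(sq x 0 : ℂ_[p])‖ := by
  have h := sq_pow_pow x 0 n
  rw [zero_add] at h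
  rw [← h, coe_pow_OC, norm_pow]

/-- Divisibility in the tilt. -/
theorem dvd_of_norm_le {x w : Fl p} (hw : w ≠ 0)
    (h : ‖(sq x 0 : ℂ_[p])‖ ≤ ‖(sq w 0 : ℂ_[p])‖) : w ∣ x := by
  have h1 : ∀ n, sq w n ∣ sq x n := by
    intro n
    rw [dvd_OC (sq_ne_zero hw n)]
    rw [← norm_sq_pow x n, ← norm_sq_pow w n] at h
    exact le_of_pow_le_pow_left₀ (pow_ne_zero n hp.out.ne_zero) (norm_nonneg _) h
  choose y hy using h1
  obtain ⟨z, hz⟩ := exists_sq y (by
    intro n
    have h2 : sq w n * y (n + 1) ^ p = sq w n * y n := by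
      rw [← hy n, ← sq_pow w n, ← mul_pow, ← hy (n + 1), sq_pow]
    exact mul_left_cancel₀ (sq_ne_zero hw n) h2)
  refine ⟨z, sq_ext fun n => ?_⟩
  rw [sq_mul, hz, hy n]

theorem exists_pow_root (a : PadicComplexInt p) : ∃ b : PadicComplexInt p, b ^ p = a := by
  obtain ⟨z, hz⟩ := IsAlgClosed.exists_pow_nat_eq (a : ℂ_[p]) hp.out.pos
  have hz1 : ‖z‖ ≤ 1 := by
    have h1 : ‖z‖ ^ p ≤ 1 := by
      rw [← norm_pow, hz]
      exact norm_OC a
    exact (pow_le_one_iff_of_nonneg (norm_nonneg _) hp.out.ne_zero).1 h1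
  refine ⟨⟨z, (mem_OC _).2 hz1⟩, ?_⟩
  apply Subtype.ext
  rw [coe_pow_OC]
  exact hz

theorem exists_untilt (a : PadicComplexInt p) : ∃ x : Fl p, sq x 0 = a := by
  choose r hr using exists_pow_root (p := p)
  obtain ⟨x, hx⟩ := exists_sq (fun n => r^[n] a) (fun n => by
    show (r^[n + 1] a) ^ p = r^[n] a
    rw [Function.iterate_succ_apply']
    exact hr _)
  exact ⟨x, hx 0⟩

/-- an element of the tilt with `ϖ♯ = p` -/
noncomputable def pifl (p : ℕ) [Fact p.Prime] : Fl p :=
  (exists_untilt ((p : ℕ) : PadicComplexInt p)).choose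

theorem sq_pifl : sq (pifl p) 0 = ((p : ℕ) : PadicComplexInt p) :=
  (exists_untilt ((p : ℕ) : PadicComplexInt p)).choose_spec

theorem pifl_ne_zero : pifl p ≠ 0 := by
  intro h
  have h1 := sq_pifl (p := p)
  rw [h, sq_zero] at h1
  exact p_ne_zero_OC h1.symm

/-- Witt vectors over the tilt -/
noncomputable abbrev Ainf (p : ℕ) [Fact p.Prime] : Type := WittVector p (Fl p)

/-- `θ` -/
noncomputable abbrev th (p : ℕ) [Fact p.Prime] : Ainf p →+* PadicComplexInt p :=
  fontaineTheta (PadicComplexInt p) p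

theorem th_teich (x : Fl p) : th p (teichmuller p x) = sq x 0 := by
  rw [fontaineTheta_teichmuller, sq_zero_eq]

/-- the element `[ϖ] - p` -/
noncomputable def xi (p : ℕ) [Fact p.Prime] : Ainf p := teichmuller p (pifl p) - (p : Ainf p)

theorem th_xi : th p (xi p) = 0 := by
  unfold xi
  rw [map_sub, th_teich, sq_pifl, map_natCast, sub_self]

theorem exists_teich_add (a : Ainf p) :
    ∃ a' : Ainf p, a = teichmuller p (a.coeff 0) + (p : Ainf p) * a' := by
  have h : a - teichmuller p (a.coeff 0) ∈ Ideal.span {(p : Ainf p)} := by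
    rw [mem_span_p_iff_coeff_zero_eq_zero]
    have h1 : (a - teichmuller p (a.coeff 0)).coeff 0 =
        WittVector.constantCoeff (a - teichmuller p (a.coeff 0)) := rfl
    rw [h1, map_sub]
    show a.coeff 0 - (teichmuller p (a.coeff 0)).coeff 0 = 0
    rw [teichmuller_coeff_zero, sub_self]
  obtain ⟨a', ha'⟩ := Ideal.mem_span_singleton.1 h
  exact ⟨a', by rw [← ha']; ring⟩

theorem p_mul_cancel_OC {x y : PadicComplexInt p}
    (h : ((p : ℕ) : PadicComplexInt p) * x = ((p : ℕ) : PadicComplexInt p) * y) : x = y :=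
  mul_left_cancel₀ p_ne_zero_OC h

theorem ker_step (a : Ainf p) (ha : th p a = 0) :
    ∃ y a' : Ainf p, a = xi p * y + (p : Ainf p) * a' ∧ th p a' = 0 := by
  obtain ⟨a1, ha1⟩ := exists_teich_add a
  have h1 : sq (a.coeff 0) 0 + ((p : ℕ) : PadicComplexInt p) * th p a1 = 0 := by
    rw [← th_teich, ← map_natCast (th p) p, ← map_mul, ← map_add, ← ha1, ha]
  have h2 : pifl p ∣ a.coeff 0 := by
    apply dvd_of_norm_le pifl_ne_zero
    rw [sq_pifl]
    have h3 : sq (a.coeff 0) 0 = -(((p : ℕ) : PadicComplexInt p) * th p a1) :=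
      eq_neg_of_add_eq_zero_left h1
    rw [h3]
    show ‖-((((p : ℕ) : PadicComplexInt p) : ℂ_[p]) * (th p a1 : ℂ_[p]))‖ ≤ _
    rw [norm_neg, norm_mul]
    exact mul_le_of_le_one_right (norm_nonneg _) (norm_OC _)
  obtain ⟨y, hy⟩ := h2
  refine ⟨teichmuller p y, teichmuller p y + a1, ?_, ?_⟩
  · rw [ha1, hy, map_mul]
    unfold xi
    have h4 : (teichmuller p (pifl p) * teichmuller p y + (p : Ainf p) * a1).coeff 0 =
        pifl p * y := by
      rw [← hy]
      rw [← map_mul, ← hy, ← ha1]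
    ring
  · apply p_mul_cancel_OC
    rw [mul_zero]
    have h5 := congrArg (th p) ha1
    rw [ha, hy, map_add, map_mul, map_mul, map_mul, th_teich, th_teich, sq_pifl, map_natCast] at h5
    rw [map_add, th_teich, mul_add]
    exact h5.symm

theorem ker_theta (a : Ainf p) (ha : th p a = 0) : xi p ∣ a := by
  choose! y a' h1 h2 using ker_step (p := p)
  let s : ℕ → Ainf p := fun n => a'^[n] a
  have hs : ∀ n, th p (s n) = 0 := by
    intro n
    induction n with
    | zero => exact ha
    | succ n ih =>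
      show th p (a'^[n + 1] a) = 0
      rw [Function.iterate_succ_apply']
      exact h2 _ ih
  let f : ℕ → Ainf p := fun n => ∑ k ∈ Finset.range n, (p : Ainf p) ^ k * y (s k)
  have hf : ∀ n, a = xi p * f n + (p : Ainf p) ^ n * s n := by
    intro n
    induction n with
    | zero =>
      show a = xi p * ∑ k ∈ Finset.range 0, (p : Ainf p) ^ k * y (s k) + (p : Ainf p) ^ 0 * a
      simp
    | succ n ih =>
      have h3 : f (n + 1) = f n + (p : Ainf p) ^ n * y (s n) := Finset.sum_range_succ _ _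
      have h4 : s (n + 1) = a' (s n) := Function.iterate_succ_apply' _ _ _
      conv_lhs => rw [ih, h1 (s n) (hs n)]
      rw [h3, h4]
      ring
  have hcauchy : ∀ {m n : ℕ}, m ≤ n →
      f m ≡ f n [SMOD (Ideal.span {(p : Ainf p)} ^ m • ⊤ : Ideal (Ainf p))] := by
    intro m n hmn
    rw [SModEq.sub_mem, smul_eq_mul, Ideal.mul_top, Ideal.span_singleton_pow,
      Ideal.mem_span_singleton, ← dvd_neg, neg_sub]
    show (p : Ainf p) ^ m ∣ ∑ k ∈ Finset.range n, (p : Ainf p) ^ k * y (s k) -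
      ∑ k ∈ Finset.range m, (p : Ainf p) ^ k * y (s k)
    rw [← Finset.sum_sdiff (Finset.range_mono hmn), add_sub_cancel_right]
    refine Finset.dvd_sum fun k hk => ?_
    rw [Finset.mem_sdiff, Finset.mem_range, Finset.mem_range, not_lt] at hk
    exact Dvd.dvd.mul_right (pow_dvd_pow _ hk.2) _
  obtain ⟨L, hL⟩ := IsPrecomplete.prec' (I := Ideal.span {(p : Ainf p)}) f hcauchy
  refine ⟨L, ?_⟩
  rw [IsHausdorff.eq_iff_smodEq (I := Ideal.span {(p : Ainf p)})]
  intro n
  have h5 := hL n
  rw [SModEq.sub_mem, smul_eq_mul, Ideal.mul_top, Ideal.span_singleton_pow,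
      Ideal.mem_span_singleton] at h5 ⊢
  have h6 : a - xi p * L = xi p * (f n - L) + (p : Ainf p) ^ n * s n := by
    conv_lhs => rw [hf n]
    ring
  rw [h6]
  exact dvd_add (Dvd.dvd.mul_left h5 _) (dvd_mul_right _ _)

theorem p_ne_zero_Ainf : (p : Ainf p) ≠ 0 := by
  intro h
  have h1 := eq_zero_of_p_mul_eq_zero (p := p) (1 : Ainf p) (by rw [h, mul_zero])
  exact one_ne_zero h1

instance instDomainAinfP : IsDomain (AinfP (PadicComplexInt p) p) := by
  refine IsLocalization.isDomain_localization (M := Submonoid.powers (p : Ainf p)) ?_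
  exact powers_le_nonZeroDivisors_of_noZeroDivisors p_ne_zero_Ainf

theorem algebraMap_AinfP_injective :
    Function.Injective (algebraMap (Ainf p) (AinfP (PadicComplexInt p) p)) :=
  IsLocalization.injective _ (powers_le_nonZeroDivisors_of_noZeroDivisors p_ne_zero_Ainf)

/-- the element `ξ` in `A_inf[1/p]` -/
noncomputable def Xi (p : ℕ) [Fact p.Prime] : AinfP (PadicComplexInt p) p :=
  algebraMap (Ainf p) (AinfP (PadicComplexInt p) p) (xi p)

theorem xi_ne_zero : xi p ≠ 0 := by
  intro h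
  have h1 : (xi p).coeff 0 = 0 := by
    rw [h, WittVector.zero_coeff]
  have h2 : (xi p).coeff 0 = pifl p := by
    show WittVector.constantCoeff (xi p) = _
    unfold xi
    rw [map_sub, map_natCast, CharP.cast_eq_zero, sub_zero]
    exact teichmuller_coeff_zero p (pifl p)
  exact pifl_ne_zero (h2.symm.trans h1)

theorem Xi_ne_zero : Xi p ≠ 0 := by
  unfold Xi
  rw [Ne, map_eq_zero_iff _ algebraMap_AinfP_injective]
  exact xi_ne_zero

theorem kerT_eq : kerT (PadicComplexInt p) p = Ideal.span {Xi p} := by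
  apply le_antisymm
  · intro x hx
    rw [Ideal.mem_span_singleton]
    obtain ⟨⟨a, s⟩, hs⟩ := IsLocalization.surj (Submonoid.powers (p : Ainf p)) x
    have hs' : x * algebraMap (Ainf p) (AinfP (PadicComplexInt p) p) (s : Ainf p) =
      algebraMap (Ainf p) (AinfP (PadicComplexInt p) p) a := hs
    have h1 : Th p (algebraMap (Ainf p) (AinfP (PadicComplexInt p) p) a) = 0 := by
      rw [← hs', map_mul, (Th_eq_zero_iff x).2 hx, zero_mul]
    rw [Th_algebraMap] at h1
    have h2 : th p a = 0 := Subtype.ext h1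
    obtain ⟨b, hb⟩ := ker_theta a h2
    have h3 : IsUnit (algebraMap (Ainf p) (AinfP (PadicComplexInt p) p) (s : Ainf p)) :=
      IsLocalization.map_units _ s
    rw [← h3.dvd_mul_right, hs', hb, map_mul]
    exact dvd_mul_right _ _
  · rw [Ideal.span_singleton_le_iff_mem, ← Th_eq_zero_iff]
    unfold Xi
    rw [Th_algebraMap]
    have h := th_xi (p := p)
    exact congrArg (fun x : PadicComplexInt p => (x : ℂ_[p])) h

end tilt

end Pool.Agent.TH831
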