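import Pool.Agent.TH831.Cyc

/-!
# Normalised traces in the cyclotomic tower
-/

set_option autoImplicit false

open Polynomial Finset

namespace Pool.Agent.TH831

section trace

variable {p : ℕ} [hp : Fact p.Prime]

theorem mem_adjoin_iff {z x : PadicAlgCl p} (hx : x ∈ IntermediateField.adjoin ℚ_[p] {z}) :
    ∃ f : ℚ_[p][X], aeval z f = x := by
  have hint : IsIntegral ℚ_[p] z := (Algebra.IsAlgebraic.isAlgebraic z).isIntegral
  have hx2 : x ∈ Algebra.adjoin ℚ_[p] {z} := by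
    rw [← IntermediateField.adjoin_simple_toSubalgebra_of_isAlgebraic hint.isAlgebraic]
    exact hx
  rw [Algebra.adjoin_singleton_eq_range_aeval] at hx2
  obtain ⟨f, hf⟩ := hx2
  exact ⟨f, hf⟩

theorem exists_trace {m n : ℕ} (hmn : m ≤ n) {ζ : PadicAlgCl p}
    (hζ : IsPrimitiveRoot ζ (p ^ (n + 1))) :
    ∃ T : PadicAlgCl p →ₗ[ℚ_[p]] PadicAlgCl p,
      (∀ x ∈ IntermediateField.adjoin ℚ_[p] {ζ}, ‖T x‖ ≤ p * ‖x‖) ∧
      (∀ x ∈ IntermediateField.adjoin ℚ_[p] {ζ ^ p ^ (n - m)}, T x = x) ∧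
      (∀ γ : PadicAlgCl p ≃ₐ[ℚ_[p]] PadicAlgCl p, γ (ζ ^ p ^ (n - m)) = ζ ^ p ^ (n - m) →
        ∀ x ∈ IntermediateField.adjoin ℚ_[p] {ζ}, T (γ x) = T x) := by
  have hp0 : (0 : ℝ) < p := by exact_mod_cast hp.out.pos
  have hp1 : (1 : ℝ) < p := by exact_mod_cast hp.out.one_lt
  set N := p ^ (n - m) with hN
  have hN0 : N ≠ 0 := (pow_pos hp.out.pos _).ne'
  have hNN : p ^ (m + 1) * N = p ^ (n + 1) := by
    rw [hN, ← pow_add]
    congr 1
    omega
  have hNL : (N : PadicAlgCl p) ≠ 0 := Nat.cast_ne_zero.2 hN0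
  have hNQ : (N : ℚ_[p]) ≠ 0 := Nat.cast_ne_zero.2 hN0
  have hcop : ∀ b, ¬ p ∣ 1 + p ^ (m + 1) * b := by
    intro b h
    have h1 : p ∣ p ^ (m + 1) * b := Dvd.dvd.mul_right (dvd_pow_self p (Nat.succ_ne_zero m)) b
    exact hp.out.one_lt.ne' (Nat.dvd_one.1 ((Nat.dvd_add_left h1).1 h))
  choose g hg using fun b : ℕ => exists_aut hζ (1 + p ^ (m + 1) * b) (hcop b)
  let T : PadicAlgCl p →ₗ[ℚ_[p]] PadicAlgCl p :=
    (N : ℚ_[p])⁻¹ • ∑ b ∈ range N, (g b).toLinearMap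
  have hT : ∀ x, T x = (N : PadicAlgCl p)⁻¹ * ∑ b ∈ range N, g b x := by
    intro x
    show (N : ℚ_[p])⁻¹ • ((∑ b ∈ range N, (g b).toLinearMap) x) = _
    rw [Algebra.smul_def, map_inv₀, map_natCast, LinearMap.sum_apply]
    rfl
  -- the root of unity `ω`
  set ω := ζ ^ p ^ (m + 1) with hω
  have hω1 : IsPrimitiveRoot ω N := hζ.pow (pow_pos hp.out.pos _) hNN.symm
  have hTζ : ∀ j, T (ζ ^ j) = if N ∣ j then ζ ^ j else 0 := by
    intro j
    have h1 : ∑ b ∈ range N, g b (ζ ^ j) = ζ ^ j * ∑ b ∈ range N, (ω ^ j) ^ b := by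
      rw [mul_sum]
      refine sum_congr rfl fun b _ => ?_
      rw [map_pow, hg b, hω]
      ring
    rw [hT, h1]
    split_ifs with h
    · have h2 : ω ^ j = 1 := (hω1.pow_eq_one_iff_dvd j).2 h
      simp only [h2, one_pow, sum_const, card_range, nsmul_eq_mul, mul_one]
      rw [mul_comm (ζ ^ j), ← mul_assoc, inv_mul_cancel₀ hNL, one_mul]
    · have h2 : ω ^ j ≠ 1 := fun h3 => h ((hω1.pow_eq_one_iff_dvd j).1 h3)
      have h3 : (ω ^ j) ^ N = 1 := by rw [← pow_mul, mul_comm, pow_mul, hω1.pow_eq_one, one_pow]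
      have h4 : (∑ b ∈ range N, (ω ^ j) ^ b) = 0 := by
        have h5 := geom_sum_mul (ω ^ j) N
        rw [h3, sub_self] at h5
        exact (mul_eq_zero.1 h5).resolve_right (sub_ne_zero.2 h2)
      rw [h4, mul_zero, mul_zero]
  have hTζn : ∀ j, ‖T (ζ ^ j)‖ ≤ 1 := by
    intro j
    rw [hTζ]
    split_ifs
    · rw [norm_pow, norm_root hζ, one_pow]
    · rw [norm_zero]
      exact zero_le_one
  have hsmul : ∀ (c : ℚ_[p]) (x : PadicAlgCl p), ‖c‖ ≤ 1 → ‖x‖ ≤ 1 → ‖c • x‖ ≤ 1 := by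
    intro c x hc hx
    rw [norm_smul]
    exact mul_le_one₀ hc (norm_nonneg _) hx
  have hTπ : ∀ j, ‖T ((ζ - 1) ^ j)‖ ≤ 1 := by
    intro j
    rw [sub_eq_add_neg, add_pow, map_sum]
    apply IsUltrametricDist.norm_sum_le_of_forall_le_of_nonneg zero_le_one
    intro i _
    have h1 : ζ ^ i * (-1) ^ (j - i) * ((j.choose i : ℕ) : PadicAlgCl p) =
        (((-1) ^ (j - i) * ((j.choose i : ℕ) : ℚ_[p])) : ℚ_[p]) • ζ ^ i := by
      rw [Algebra.smul_def, map_mul, map_pow, map_neg, map_one, map_natCast]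
      ring
    rw [h1, map_smul]
    apply hsmul _ _ _ (hTζn i)
    rw [norm_mul, norm_pow, norm_neg, norm_one, one_pow, one_mul]
    exact_mod_cast Padic.norm_int_le_one (p := p) (j.choose i : ℤ)
  have hTle : ∀ x ∈ IntermediateField.adjoin ℚ_[p] {ζ}, ‖x‖ ≤ 1 → ‖T x‖ ≤ 1 := by
    intro x hx hx1
    obtain ⟨b, hb, hbx⟩ := exists_repr hζ x hx hx1
    rw [hbx, map_sum]
    apply IsUltrametricDist.norm_sum_le_of_forall_le_of_nonneg zero_le_one
    intro j _
    rw [map_smul]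
    exact hsmul _ _ (hb j) (hTπ j)
  refine ⟨T, fun x hx => ?_, fun x hx => ?_, fun γ hγ x hx => ?_⟩
  · by_cases hx0 : x = 0
    · rw [hx0, map_zero, norm_zero, mul_zero]
    obtain ⟨k, hk1, hk2⟩ := exists_mem_Ico_zpow (norm_pos_iff.2 hx0) hp1
    have hc : ‖(p : ℚ_[p]) ^ (k + 1)‖ = ((p : ℝ) ^ (k + 1))⁻¹ := by
      rw [norm_zpow, Padic.norm_p, inv_zpow]
    have hpk : 0 < (p : ℝ) ^ (k + 1) := zpow_pos hp0 _
    have h1 := hTle ((p : ℚ_[p]) ^ (k + 1) • x) (by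
      rw [Algebra.smul_def]
      exact mul_mem (IntermediateField.algebraMap_mem _ _) hx) (by
        rw [norm_smul, hc, inv_mul_le_iff₀ hpk, mul_one]
        exact hk2.le)
    rw [map_smul, norm_smul, hc, inv_mul_le_iff₀ hpk, mul_one] at h1
    refine h1.trans ?_
    rw [zpow_add_one₀ hp0.ne', mul_comm]
    exact mul_le_mul_of_nonneg_left hk1 hp0.le
  · obtain ⟨f, hf⟩ := mem_adjoin_iff hx
    have h1 : ∀ b, g b x = x := by
      intro b
      rw [← hf]
      have h2 : g b (aeval (ζ ^ N) f) = aeval (g b (ζ ^ N)) f :=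
        (aeval_algHom_apply (g b).toAlgHom (ζ ^ N) f).symm
      rw [h2]
      congr 1
      have h3 : g b (ζ ^ N) = ζ ^ N := by
        rw [map_pow, hg b, ← pow_mul, add_mul, one_mul, pow_add]
        have h4 : p ^ (m + 1) * b * N = p ^ (n + 1) * b := by rw [← hNN]; ring
        rw [h4, pow_mul, hζ.pow_eq_one, one_pow, mul_one]
      rw [h3]
    rw [hT, sum_congr rfl (fun b _ => h1 b), sum_const, card_range, nsmul_eq_mul, ← mul_assoc,
      inv_mul_cancel₀ hNL, one_mul]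
  · obtain ⟨f, hf⟩ := mem_adjoin_iff hx
    have hγζ : (γ ζ) ^ p ^ (n + 1) = 1 := by rw [← map_pow, hζ.pow_eq_one, map_one]
    obtain ⟨a, -, ha⟩ := hζ.eq_pow_of_pow_eq_one hγζ
    have hap : Nat.Coprime a (p ^ (n + 1)) := by
      have h1 : IsPrimitiveRoot (ζ ^ a) (p ^ (n + 1)) := by
        rw [ha]
        exact hζ.map_of_injective γ.injective
      exact (hζ.pow_iff_coprime (pow_pos hp.out.pos _) a).1 h1
    have haN : Nat.Coprime N a := by
      apply Nat.Coprime.symm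
      refine Nat.Coprime.coprime_dvd_right ?_ hap
      exact Dvd.intro_left _ hNN
    have key : ∀ j, T (γ (ζ ^ j)) = T (ζ ^ j) := by
      intro j
      rw [map_pow, ← ha, ← pow_mul, hTζ, hTζ]
      by_cases h : N ∣ j
      · have h2 : N ∣ a * j := h.mul_left a
        rw [if_pos h, if_pos h2]
        obtain ⟨i, rfl⟩ := h
        rw [pow_mul ζ N i, ← hγ, map_pow, ← ha, ← pow_mul, ← pow_mul]
      · have h2 : ¬ N ∣ a * j := fun h3 => h (haN.dvd_of_dvd_mul_left h3)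
        rw [if_neg h, if_neg h2]
    rw [← hf, aeval_eq_sum_range, map_sum, map_sum, map_sum]
    refine sum_congr rfl fun i _ => ?_
    have h6 : γ (f.coeff i • ζ ^ i) = f.coeff i • γ (ζ ^ i) := by
      rw [Algebra.smul_def, map_mul, AlgEquiv.commutes, ← Algebra.smul_def]
    rw [h6, map_smul, map_smul, key]

end trace

end Pool.Agent.TH831
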